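import Mathlib

set_option autoImplicit false
open MeasureTheory Set

namespace Pool.Agent.H77.Cov

lemma int_affine (a b m n : ℝ) :
    ∫ x in a..b, (m * x + n) = m * (b ^ 2 - a ^ 2) / 2 + n * (b - a) := by
  rw [intervalIntegral.integral_add (Continuous.intervalIntegrable (by fun_prop) _ _)
    (Continuous.intervalIntegrable (by fun_prop) _ _),
    intervalIntegral.integral_const_mul, integral_id]
  simp
  ring

/-- three point inequality -/
lemma conc3 {f : ℝ → ℝ} {L : ℝ} (hf : ConcaveOn ℝ (Icc 0 L) f) {x y z : ℝ}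
    (hx : 0 ≤ x) (hxy : x ≤ y) (hyz : y ≤ z) (hz : z ≤ L) :
    (z - y) * f x + (y - x) * f z ≤ (z - x) * f y := by
  rcases eq_or_lt_of_le (hxy.trans hyz) with h | h
  · have h1 : y = x := by linarith
    have h2 : z = x := by linarith
    subst h1; subst h2; simp
  have hd : 0 < z - x := by linarith
  have h01 : 0 ≤ (z - y) / (z - x) := by apply div_nonneg <;> linarith
  have h02 : 0 ≤ (y - x) / (z - x) := by apply div_nonneg <;> linarith
  have h03 : (z - y) / (z - x) + (y - x) / (z - x) = 1 := by field_simp; ring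
  have hx' : x ∈ Icc 0 L := ⟨hx, by linarith⟩
  have hz' : z ∈ Icc 0 L := ⟨by linarith, hz⟩
  have := hf.2 hx' hz' h01 h02 h03
  have e : (z - y) / (z - x) * x + (y - x) / (z - x) * z = y := by field_simp; ring
  simp only [smul_eq_mul] at this
  rw [e] at this
  have h3 := mul_le_mul_of_nonneg_left this hd.le
  have e2 : (z - x) * ((z - y) / (z - x) * f x + (y - x) / (z - x) * f z)
      = (z - y) * f x + (y - x) * f z := by field_simp
  linarith

lemma conc_bdd {f : ℝ → ℝ} {L : ℝ} (hf : ConcaveOn ℝ (Icc 0 L) f) :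
    ∃ M, ∀ x ∈ Icc 0 L, |f x| ≤ M := by
  refine ⟨|f 0| + |f L| + 2 * |f (L / 2)|, fun x hx => ?_⟩
  have hL : 0 ≤ L := hx.1.trans hx.2
  have key : ∀ y ∈ Icc 0 L, - (|f 0| + |f L|) ≤ f y := by
    intro y hy
    rcases eq_or_lt_of_le hL with h | h
    · have : y = 0 := by linarith [hy.1, hy.2]
      subst this
      have := neg_abs_le (f 0); have := abs_nonneg (f L); linarith
    · have h1 := conc3 hf le_rfl hy.1 hy.2 le_rfl
      have h2 := neg_abs_le (f 0); have h3 := neg_abs_le (f L)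
      have h4 := abs_nonneg (f 0); have h5 := abs_nonneg (f L)
      have hy1 := hy.1; have hy2 := hy.2
      by_contra hc
      push Not at hc
      have : (L - 0) * f y < (L - 0) * (-(|f 0| + |f L|)) := by
        apply mul_lt_mul_of_pos_left hc; linarith
      nlinarith [mul_nonneg (sub_nonneg.2 hy2) (by linarith : (0:ℝ) ≤ f 0 + |f 0|),
        mul_nonneg hy1 (by linarith : (0:ℝ) ≤ f L + |f L|),
        mul_nonneg (sub_nonneg.2 hy2) h5, mul_nonneg hy1 h4]
  have h1 := key x hx
  have h2 := key (L - x) ⟨by linarith [hx.2], by linarith [hx.1]⟩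
  have h3 : f x + f (L - x) ≤ 2 * f (L / 2) := by
    have hx' : L - x ∈ Icc 0 L := ⟨by linarith [hx.2], by linarith [hx.1]⟩
    have h01 : (0 : ℝ) ≤ 1 / 2 := by norm_num
    have h02 : (1 / 2 : ℝ) + 1 / 2 = 1 := by norm_num
    have := hf.2 hx hx' h01 h01 h02
    simp only [smul_eq_mul] at this
    rw [show (1 / 2 : ℝ) * x + 1 / 2 * (L - x) = L / 2 by ring] at this
    linarith
  have h4 := le_abs_self (f (L / 2))
  have h5 := abs_nonneg (f (L / 2))
  rw [abs_le]
  constructor <;> linarith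

lemma conc_intOn {f : ℝ → ℝ} {L : ℝ} (hf : ConcaveOn ℝ (Icc 0 L) f) :
    IntegrableOn f (Icc 0 L) volume := by
  obtain ⟨M, hM⟩ := conc_bdd hf
  have : IsFiniteMeasure (volume.restrict (Icc 0 L)) := ⟨by simp⟩
  apply Integrable.of_bound (C := M)
  · have h1 : ContinuousOn f (Ioo 0 L) := by
      have := hf.continuousOn_interior
      rwa [interior_Icc] at this
    have h2 := h1.aestronglyMeasurable (μ := volume) measurableSet_Ioo
    rwa [restrict_Ioo_eq_restrict_Icc] at h2
  · filter_upwards [ae_restrict_mem measurableSet_Icc] with x hx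
    exact hM x hx

lemma conc_ii {f : ℝ → ℝ} {L : ℝ} (hf : ConcaveOn ℝ (Icc 0 L) f) {a b : ℝ} (ha : 0 ≤ a)
    (hab : a ≤ b) (hb : b ≤ L) : IntervalIntegrable f volume a b := by
  rw [intervalIntegrable_iff_integrableOn_Icc_of_le hab]
  exact (conc_intOn hf).mono_set (Icc_subset_Icc ha hb)

/-- trapezoid rule for concave functions -/
lemma trap {f : ℝ → ℝ} {L : ℝ} (hf : ConcaveOn ℝ (Icc 0 L) f) {a b : ℝ} (ha : 0 ≤ a)
    (hab : a ≤ b) (hb : b ≤ L) : (b - a) * (f a + f b) / 2 ≤ ∫ x in a..b, f x := by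
  rcases eq_or_lt_of_le hab with h | h
  · subst h; simp
  have hd : 0 < b - a := by linarith
  have h1 : ∫ x in a..b, ((f b - f a) / (b - a) * x + (f a - (f b - f a) / (b - a) * a))
      ≤ ∫ x in a..b, f x := by
    apply intervalIntegral.integral_mono_on hab
    · apply Continuous.intervalIntegrable; fun_prop
    · exact conc_ii hf ha hab hb
    · intro x hx
      have := conc3 hf ha hx.1 hx.2 hb
      have e : (b - a) * ((f b - f a) / (b - a) * x + (f a - (f b - f a) / (b - a) * a))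
        = (b - x) * f a + (x - a) * f b := by field_simp; ring
      rw [← e] at this
      exact le_of_mul_le_mul_left this hd
  rw [int_affine] at h1
  have e : (f b - f a) / (b - a) * (b ^ 2 - a ^ 2) / 2 + (f a - (f b - f a) / (b - a) * a) * (b - a)
    = (b - a) * (f a + f b) / 2 := by field_simp; ring
  linarith

/-- trapezoid with bounds at the nodes -/
lemma trap' {f : ℝ → ℝ} {L : ℝ} (hf : ConcaveOn ℝ (Icc 0 L) f) {a b u v : ℝ} (ha : 0 ≤ a)
    (hab : a ≤ b) (hb : b ≤ L) (hu : u ≤ f a) (hv : v ≤ f b) :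
    (b - a) * (u + v) / 2 ≤ ∫ x in a..b, f x := by
  have := trap hf ha hab hb
  nlinarith [mul_nonneg (sub_nonneg.2 hab) (sub_nonneg.2 hu), mul_nonneg (sub_nonneg.2 hab) (sub_nonneg.2 hv)]

/-- reflection of a concave function -/
lemma conc_refl {f : ℝ → ℝ} {L : ℝ} (hf : ConcaveOn ℝ (Icc 0 L) f) :
    ConcaveOn ℝ (Icc 0 L) (fun x => f (L - x)) := by
  refine ⟨hf.1, fun x hx y hy a b ha hb hab => ?_⟩
  have hx' : L - x ∈ Icc 0 L := ⟨by linarith [hx.2], by linarith [hx.1]⟩
  have hy' : L - y ∈ Icc 0 L := ⟨by linarith [hy.2], by linarith [hy.1]⟩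
  have := hf.2 hx' hy' ha hb hab
  simp only [smul_eq_mul] at this ⊢
  rw [show a * (L - x) + b * (L - y) = L - (a * x + b * y) by linear_combination L * hab] at this
  exact this

/-- supporting line at an interior point -/
lemma conc_support {f : ℝ → ℝ} {L : ℝ} (hf : ConcaveOn ℝ (Icc 0 L) f) {x : ℝ} (hx : 0 < x)
    (hxL : x < L) : ∃ k, ∀ y ∈ Icc 0 L, f y ≤ f x + k * (y - x) := by
  -- k := sup of the right slopes
  set R : Set ℝ := (fun y => (f y - f x) / (y - x)) '' (Ioc x L) with hR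
  have hne : R.Nonempty := ⟨_, ⟨L, ⟨hxL, le_rfl⟩, rfl⟩⟩
  have hcmp : ∀ z, 0 ≤ z → z < x → ∀ r ∈ R, r ≤ (f x - f z) / (x - z) := by
    rintro z hz0 hzx r ⟨y, hy, rfl⟩
    have := conc3 hf hz0 hzx.le hy.1.le hy.2
    have h1 : 0 < y - x := by linarith [hy.1]
    have h2 : 0 < x - z := by linarith
    simp only
    rw [div_le_div_iff₀ h1 h2]
    nlinarith
  have hbdd : BddAbove R := ⟨(f x - f 0) / (x - 0), fun r hr => hcmp 0 le_rfl hx r hr⟩
  refine ⟨sSup R, fun y hy => ?_⟩
  rcases lt_trichotomy y x with h | h | h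
  · have h1 : sSup R ≤ (f x - f y) / (x - y) := csSup_le hne (fun r hr => hcmp y hy.1 h r hr)
    have h2 : 0 < x - y := by linarith
    rw [le_div_iff₀ h2] at h1
    linarith
  · subst h; simp
  · have h1 : (f y - f x) / (y - x) ≤ sSup R := le_csSup hbdd ⟨y, ⟨h, hy.2⟩, rfl⟩
    have h2 : 0 < y - x := by linarith
    rw [div_le_iff₀ h2] at h1
    linarith

end Pool.Agent.H77.Cov
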