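import Mathlib
import Pool.Agent.H77.Cov.Conc

set_option autoImplicit false
open MeasureTheory Set

namespace Pool.Agent.H77.Cov

/-- `c = 1 - √3/2` -/
noncomputable def cc : ℝ := 1 - Real.sqrt 3 / 2
/-- `A0`, the area of the truncated square -/
noncomputable def A0 : ℝ := Real.pi / 6 + 2 * Real.sqrt 3 - 3
/-- corner integral -/
noncomputable def C1 : ℝ := Real.pi / 12 + Real.sqrt 3 / 2 - 1
/-- integral of `b` -/
noncomputable def mb : ℝ := cc - Real.sqrt 3 * Real.pi / 24 + 1 / 8
/-- mean of `b` -/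
noncomputable def bb : ℝ := mb / cc

lemma s3_sq : Real.sqrt 3 ^ 2 = 3 := Real.sq_sqrt (by norm_num)
lemma s3_gt : (1.7320508 : ℝ) < Real.sqrt 3 := by
  apply Real.lt_sqrt_of_sq_lt; norm_num
lemma s3_lt : Real.sqrt 3 < (1.7320509 : ℝ) := by
  rw [Real.sqrt_lt' (by norm_num)]; norm_num

lemma cc_gt : (0.1339745 : ℝ) < cc := by unfold cc; linarith [s3_lt]
lemma cc_lt : cc < (0.1339746 : ℝ) := by unfold cc; linarith [s3_gt]
lemma A0_eq : A0 = 2 * C1 + (Real.sqrt 3 - 1) := by unfold A0 C1; ring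
lemma A0_gt : (0.9877002 : ℝ) < A0 := by unfold A0; linarith [s3_gt, Real.pi_gt_d6]
lemma A0_lt : A0 < (0.9877008 : ℝ) := by unfold A0; linarith [s3_lt, Real.pi_lt_d6]
lemma C1_gt : (0.1278247 : ℝ) < C1 := by unfold C1; linarith [s3_gt, Real.pi_gt_d6]
lemma C1_lt : C1 < (0.1278249 : ℝ) := by unfold C1; linarith [s3_lt, Real.pi_lt_d6]

lemma cc_bb : cc * bb = mb := by
  unfold bb
  have : cc ≠ 0 := by linarith [cc_gt]
  field_simp

lemma mb_gt : (0.0322494 : ℝ) < mb := by
  unfold mb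
  have h1 := s3_gt; have h2 := s3_lt; have h3 := Real.pi_gt_d6; have h4 := Real.pi_lt_d6
  have h5 : Real.sqrt 3 * Real.pi < 1.7320509 * 3.141593 := by
    apply mul_lt_mul h2 h4.le (by linarith) (by norm_num)
  linarith [cc_gt]
lemma mb_lt : mb < (0.0322499 : ℝ) := by
  unfold mb
  have h1 := s3_gt; have h2 := s3_lt; have h3 := Real.pi_gt_d6; have h4 := Real.pi_lt_d6
  have h5 : 1.7320508 * 3.141592 < Real.sqrt 3 * Real.pi := by
    apply mul_lt_mul h1 h3.le (by norm_num) (by linarith)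
  linarith [cc_lt]

lemma bb_gt : (0.24071 : ℝ) < bb := by
  unfold bb
  rw [lt_div_iff₀ (by linarith [cc_gt])]
  linarith [cc_lt, mb_gt]
lemma bb_lt : bb < (0.24072 : ℝ) := by
  unfold bb
  rw [div_lt_iff₀ (by linarith [cc_gt])]
  linarith [cc_gt, mb_lt]

/-- `s x = sin β` where `x = 1 - cos β` -/
noncomputable def sf (x : ℝ) : ℝ := Real.sqrt (2 * x - x ^ 2)
/-- `sin ψ` -/
noncomputable def sps (x : ℝ) : ℝ := sf x / 2 + Real.sqrt 3 / 2 * (1 - x)
/-- `cos ψ` -/
noncomputable def cps (x : ℝ) : ℝ := (1 - x) / 2 - Real.sqrt 3 / 2 * sf x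
/-- `b` -/
noncomputable def bf (x : ℝ) : ℝ := 1 - Real.sqrt 3 / 2 * sf x - (1 - x) / 2
/-- `a` -/
noncomputable def af (x : ℝ) : ℝ := 1 - Real.sqrt 3 / 2 * (1 - x) + sf x / 2

lemma bf_sub (x : ℝ) : bf x - x = cps x := by unfold bf cps; ring

lemma sf_cont : Continuous sf := by unfold sf; fun_prop
lemma sps_cont : Continuous sps := by unfold sps; have := sf_cont; fun_prop
lemma bf_cont : Continuous bf := by unfold bf; have := sf_cont; fun_prop

lemma sf_sq {x : ℝ} (hx : x ∈ Icc 0 cc) : sf x ^ 2 = 1 - (1 - x) ^ 2 := by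
  unfold sf
  rw [Real.sq_sqrt]; · ring
  nlinarith [hx.1, hx.2, cc_lt]

lemma sf_nonneg (x : ℝ) : 0 ≤ sf x := Real.sqrt_nonneg _

lemma sf_le {x : ℝ} (hx : x ∈ Icc 0 cc) : sf x ≤ 1 / 2 := by
  have h := sf_sq hx
  have h0 := sf_nonneg x
  have h1 : Real.sqrt 3 / 2 ≤ 1 - x := by have := hx.2; unfold cc at this; linarith
  have h2 : 3 / 4 ≤ (1 - x) ^ 2 := by nlinarith [s3_sq, Real.sqrt_nonneg 3]
  nlinarith

lemma one_sub_ge {x : ℝ} (hx : x ∈ Icc 0 cc) : Real.sqrt 3 / 2 ≤ 1 - x := by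
  have := hx.2; unfold cc at this; linarith

lemma sps_le {x : ℝ} (hx : x ∈ Icc 0 cc) : sps x ≤ 1 := by
  unfold sps
  have h := sf_sq hx
  nlinarith [sq_nonneg (sf x - 1 / 2), sq_nonneg ((1 - x) - Real.sqrt 3 / 2), s3_sq]

lemma bf_mem {x : ℝ} (hx : x ∈ Icc 0 cc) : bf x ∈ Icc cc (1 / 2) := by
  have h := sf_sq hx
  have h0 := sf_nonneg x
  have h1 := one_sub_ge hx
  have h2 := sf_le hx
  have h3 := sps_le hx
  have h4 := s3_sq
  have h5 := s3_gt
  have h6 := s3_lt
  constructor
  · -- √3/2 s + k/2 ≤ √3/2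
    unfold bf cc
    unfold sps at h3
    have : Real.sqrt 3 * (Real.sqrt 3 / 2 * sf x + (1 - x) / 2) ≤ Real.sqrt 3 * (Real.sqrt 3 / 2) := by
      nlinarith
    have := le_of_mul_le_mul_left this (by linarith)
    linarith
  · unfold bf
    have hk : 1 - x ≤ 1 := by linarith [hx.1]
    have hk0 : 0 ≤ 1 - x := by linarith
    nlinarith

lemma int_sf : ∫ x in (0:ℝ)..cc, sf x = Real.pi / 12 - Real.sqrt 3 / 8 := by
  have h := intervalIntegral.integral_comp_mul_deriv (a := 0) (b := Real.pi / 6)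
    (f := fun t => 1 - Real.cos t) (f' := fun t => Real.sin t) (g := sf)
    (fun t _ => by
      have := (Real.hasDerivAt_cos t).const_sub 1
      simpa using this)
    (Real.continuous_sin.continuousOn) sf_cont
  simp only [Function.comp, Real.cos_zero, sub_self, Real.cos_pi_div_six] at h
  rw [show (1 : ℝ) - Real.sqrt 3 / 2 = cc from rfl] at h
  rw [← h]
  have h2 : ∫ t in (0:ℝ)..Real.pi / 6, sf (1 - Real.cos t) * Real.sin t
      = ∫ t in (0:ℝ)..Real.pi / 6, Real.sin t ^ 2 := by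
    apply intervalIntegral.integral_congr
    intro t ht
    rw [uIcc_of_le (by positivity)] at ht
    have hs : 0 ≤ Real.sin t := Real.sin_nonneg_of_nonneg_of_le_pi ht.1 (by linarith [ht.2, Real.pi_pos])
    have : sf (1 - Real.cos t) = Real.sin t := by
      unfold sf
      rw [show 2 * (1 - Real.cos t) - (1 - Real.cos t) ^ 2 = Real.sin t ^ 2 by
        have := Real.sin_sq_add_cos_sq t; linarith]
      exact Real.sqrt_sq hs
    simp only [this]; ring
  rw [h2, integral_sin_sq]
  simp only [Real.sin_zero, Real.cos_zero, Real.sin_pi_div_six, Real.cos_pi_div_six]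
  ring

lemma int_sps : ∫ x in (0:ℝ)..cc, sps x = Real.pi / 24 := by
  have : ∫ x in (0:ℝ)..cc, sps x = ∫ x in (0:ℝ)..cc, ((1/2) * sf x +
      ((- (Real.sqrt 3 / 2)) * x + Real.sqrt 3 / 2)) := by
    congr 1; ext x; unfold sps; ring
  rw [this, intervalIntegral.integral_add, intervalIntegral.integral_const_mul, int_sf, int_affine]
  · unfold cc
    ring_nf
    rw [show Real.sqrt 3 ^ 3 = Real.sqrt 3 * 3 by rw [pow_succ, s3_sq]; ring]
    ring
  · apply Continuous.intervalIntegrable; have := sf_cont; fun_prop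
  · apply Continuous.intervalIntegrable; fun_prop

lemma int_bf : ∫ x in (0:ℝ)..cc, bf x = mb := by
  have : ∫ x in (0:ℝ)..cc, bf x = ∫ x in (0:ℝ)..cc, ((-(Real.sqrt 3 / 2)) * sf x +
      ((1/2) * x + 1 / 2)) := by
    congr 1; ext x; unfold bf; ring
  rw [this, intervalIntegral.integral_add, intervalIntegral.integral_const_mul, int_sf, int_affine]
  · unfold mb cc
    ring_nf
    rw [s3_sq]
    ring
  · apply Continuous.intervalIntegrable; have := sf_cont; fun_prop
  · apply Continuous.intervalIntegrable; fun_prop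

/-- the corner integral with affine corrections -/
lemma int_corner (k m : ℝ) :
    ∫ x in (0:ℝ)..cc, (2 * sps x - 1 - (k * bf x + m)) = C1 - (k * mb + m * cc) := by
  have e : (fun x => 2 * sps x - 1 - (k * bf x + m))
      = fun x => (2 * sps x + (-k) * bf x) + (-1 - m) := by ext x; ring
  rw [e, intervalIntegral.integral_add, intervalIntegral.integral_add,
    intervalIntegral.integral_const_mul, intervalIntegral.integral_const_mul, int_sps, int_bf,
    intervalIntegral.integral_const]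
  · simp only [smul_eq_mul]
    unfold C1 cc
    ring
  · apply Continuous.intervalIntegrable; have := sps_cont; fun_prop
  · apply Continuous.intervalIntegrable; have := bf_cont; fun_prop
  · apply Continuous.intervalIntegrable; have := sps_cont; have := bf_cont; fun_prop
  · apply Continuous.intervalIntegrable; fun_prop

end Pool.Agent.H77.Cov
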