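import Mathlib
import Pool.Agent.H77.Cov.Const

set_option autoImplicit false
open MeasureTheory Set

namespace Pool.Agent.H77.Cov

/-- left half of the Psi inequality -/
lemma psi_left {g : ℝ → ℝ} {p x0 R μ : ℝ} (hp0 : 0 ≤ p) (hp : p ≤ 0.1405)
    (hg : ConcaveOn ℝ (Icc 0 (1 + p)) g) (ha : 0 ≤ g (cc + p)) (hb : 0 ≤ g (1 - cc))
    (hx0 : 1 / 2 ≤ x0) (hx1 : x0 ≤ 1 / 2 + p)
    (hR : R * (1 - cc - x0) = 1 - cc - p - bb) (hμ0 : 0 ≤ μ) (hμ : cc - (x0 - cc - p) / 2 ≤ μ)
    (hμ1 : μ ≤ 0.0213) :
    ∃ k m, (∀ b ∈ Icc cc (1 / 2), ∀ v ∈ Icc 0 p, g (b + v) ≤ k * b + m) ∧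
      k * mb + m * cc ≤ (∫ y in (cc + p)..x0, g y) - g x0 * ((x0 - p - bb) / 2) + μ * g x0 * R := by
  have hc1 := cc_gt; have hc2 := cc_lt; have hb1 := bb_gt; have hb2 := bb_lt
  have hcb := cc_bb
  set xa := cc + p with hxa
  set x1 := bb + p with hx1d
  set G := g x0 with hG
  have hDR : 0 < 1 - cc - x0 := by linarith
  have hDL : 0 < x0 - xa := by linarith
  have hG0 : 0 ≤ G := by
    have := conc3 hg (x := xa) (y := x0) (z := 1 - cc) (by linarith) (by linarith) (by linarith) (by linarith)
    have h2 : 0 ≤ (1 - cc - x0) * g xa := mul_nonneg hDR.le ha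
    have h3 : 0 ≤ (x0 - xa) * g (1 - cc) := mul_nonneg hDL.le hb
    by_contra hc
    push Not at hc
    have : (1 - cc - xa) * g x0 < 0 := mul_neg_of_pos_of_neg (by linarith) hc
    linarith
  obtain ⟨k1, hk1⟩ := conc_support hg (x := x1) (by linarith) (by linarith)
  obtain ⟨ka, hka⟩ := conc_support hg (x := xa) (by linarith) (by linarith)
  -- upper bound of g at points left of x0
  have hup : ∀ z, xa ≤ z → z ≤ x0 → (1 - cc - x0) * g z ≤ (1 - cc - z) * G := by
    intro z hz1 hz2
    have := conc3 hg (x := z) (y := x0) (z := 1 - cc) (by linarith) hz2 (by linarith) (by linarith)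
    have h3 : 0 ≤ (x0 - z) * g (1 - cc) := mul_nonneg (by linarith) hb
    linarith
  have hlo : ∀ z, xa ≤ z → z ≤ x0 → 0 ≤ g z := by
    intro z hz1 hz2
    have := conc3 hg (x := xa) (y := z) (z := x0) (by linarith) hz1 hz2 (by linarith)
    have h3 : 0 ≤ (x0 - z) * g xa := mul_nonneg (by linarith) ha
    have h4 : 0 ≤ (z - xa) * g x0 := mul_nonneg (by linarith) hG0
    by_contra hc
    push Not at hc
    have : (x0 - xa) * g z < 0 := mul_neg_of_pos_of_neg (by linarith) hc
    linarith
  have hint : ∀ z, xa ≤ z → z ≤ x0 →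
      g z * (x0 - xa) / 2 + G * (x0 - z) / 2 ≤ ∫ y in xa..x0, g y := by
    intro z hz1 hz2
    have h1 := trap' hg (a := xa) (b := z) (u := 0) (v := g z) (by linarith) hz1 (by linarith) ha le_rfl
    have h2 := trap' hg (a := z) (b := x0) (u := g z) (v := G) (by linarith) hz2 (by linarith) le_rfl le_rfl
    have h3 := intervalIntegral.integral_add_adjacent_intervals (μ := volume)
      (conc_ii hg (a := xa) (b := z) (by linarith) hz1 (by linarith))
      (conc_ii hg (a := z) (b := x0) (by linarith) hz2 (by linarith))
    rw [← h3]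
    linarith
  by_cases hk1' : 0 ≤ k1
  · refine ⟨k1, g x1 - k1 * bb, ?_, ?_⟩
    · intro b hb v hv
      have := hk1 (b + v) ⟨by linarith [hb.1, hv.1], by linarith [hb.2, hv.2]⟩
      have h2 : k1 * (b + v - x1) ≤ k1 * (b + p - x1) := by
        apply mul_le_mul_of_nonneg_left _ hk1'; linarith [hv.2]
      rw [hx1d] at h2 this
      rw [hx1d]
      linarith
    · have h1 := hint x1 (by linarith) (by linarith)
      have h2 := hup x1 (by linarith) (by linarith)
      have h3 := hlo x1 (by linarith) (by linarith)
      have h4 : g x1 ≤ G * R := by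
        have : (1 - cc - x0) * g x1 ≤ (1 - cc - x0) * (G * R) := by
          calc (1 - cc - x0) * g x1 ≤ (1 - cc - x1) * G := h2
            _ = (R * (1 - cc - x0)) * G := by rw [hR, hx1d]; ring
            _ = _ := by ring
        exact le_of_mul_le_mul_left this hDR
      have h5 : g x1 * (cc - (x0 - xa) / 2) ≤ μ * G * R := by
        calc g x1 * (cc - (x0 - xa) / 2) ≤ g x1 * μ := by
              apply mul_le_mul_of_nonneg_left _ h3; rw [hxa]; linarith
          _ ≤ (G * R) * μ := mul_le_mul_of_nonneg_right h4 hμ0
          _ = _ := by ring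
      have e : k1 * mb + (g x1 - k1 * bb) * cc = g x1 * cc := by rw [← hcb]; ring
      rw [e]
      have h6 : x0 - x1 = x0 - p - bb := by rw [hx1d]; ring
      have h7 : G * (x0 - x1) / 2 = G * ((x0 - p - bb) / 2) := by rw [h6]; ring
      linarith
  · push Not at hk1'
    by_cases hka' : ka ≤ 0
    · -- decreasing case
      refine ⟨ka, g xa - ka * xa, ?_, ?_⟩
      · intro b hb v hv
        have := hka (b + v) ⟨by linarith [hb.1, hv.1], by linarith [hb.2, hv.2]⟩
        have h2 : ka * v ≤ 0 := mul_nonpos_of_nonpos_of_nonneg hka' hv.1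
        linarith
      · have h1 := hint xa le_rfl (by linarith)
        have h2 := hup xa le_rfl (by linarith)
        have h3 := hka x0 ⟨by linarith, by linarith⟩
        have e : ka * mb + (g xa - ka * xa) * cc = g xa * cc + (-ka) * cc * (xa - bb) := by
          rw [← hcb]; ring
        rw [e]
        -- |ka| bound
        have h4 : (-ka) * (x0 - xa) ≤ g xa - G := by linarith
        have hDRR : (1 - cc - x0) * (g xa - G) ≤ (x0 - xa) * G := by linarith
        have h5 : (1 - cc - x0) * (-ka) ≤ G := by
          have : (x0 - xa) * ((1 - cc - x0) * (-ka)) ≤ (x0 - xa) * G := by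
            calc (x0 - xa) * ((1 - cc - x0) * (-ka)) = (1 - cc - x0) * ((-ka) * (x0 - xa)) := by ring
              _ ≤ (1 - cc - x0) * (g xa - G) := mul_le_mul_of_nonneg_left h4 hDR.le
              _ ≤ _ := hDRR
          exact le_of_mul_le_mul_left this hDL
        -- main claim, multiplied by DR
        have h6 : g xa * (cc - (x0 - xa) / 2) ≤ μ * g xa := by
          have : g xa * (cc - (x0 - xa) / 2) ≤ g xa * μ := by
            apply mul_le_mul_of_nonneg_left _ ha; rw [hxa]; linarith
          linarith
        have h7 : (1 - cc - x0) * (μ * g xa) ≤ μ * (G * (1 - cc - xa)) := by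
          calc (1 - cc - x0) * (μ * g xa) = μ * ((1 - cc - x0) * g xa) := by ring
            _ ≤ μ * ((1 - cc - xa) * G) := mul_le_mul_of_nonneg_left h2 hμ0
            _ = _ := by ring
        have h8 : (1 - cc - x0) * ((-ka) * cc * (xa - bb)) ≤ G * (0.00454) := by
          rcases le_total xa bb with h | h
          · have : (1 - cc - x0) * ((-ka) * cc * (xa - bb)) ≤ 0 := by
              apply mul_nonpos_of_nonneg_of_nonpos hDR.le
              apply mul_nonpos_of_nonneg_of_nonpos _ (by linarith)
              apply mul_nonneg <;> linarith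
            nlinarith
          · have h9 : cc * (xa - bb) ≤ 0.00454 := by nlinarith
            have h10 : 0 ≤ cc * (xa - bb) := by apply mul_nonneg <;> linarith
            calc (1 - cc - x0) * ((-ka) * cc * (xa - bb))
                = ((1 - cc - x0) * (-ka)) * (cc * (xa - bb)) := by ring
              _ ≤ G * (cc * (xa - bb)) := mul_le_mul_of_nonneg_right h5 h10
              _ ≤ _ := mul_le_mul_of_nonneg_left h9 hG0
        have h11 : μ * G * R * (1 - cc - x0) = μ * G * (1 - cc - p - bb) := by
          rw [← hR]; ring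
        have h12 : μ * (bb - cc) + 0.00454 ≤ (bb - cc) * (1 - cc - x0) / 2 := by
          nlinarith
        -- combine
        have h13 : (1 - cc - x0) * (g xa * (cc - (x0 - xa) / 2) + (-ka) * cc * (xa - bb))
            ≤ (1 - cc - x0) * (G * (bb - cc) / 2 + μ * G * R) := by
          have h14 := mul_le_mul_of_nonneg_left h6 hDR.le
          have h15 := mul_le_mul_of_nonneg_left h12 hG0
          have e1 : 1 - cc - xa = (1 - cc - p - bb) + (bb - cc) := by rw [hxa]; ring
          rw [e1] at h7
          nlinarith
        have h16 := le_of_mul_le_mul_left h13 hDR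
        have e3 : G * ((x0 - p - bb) / 2) = G * (x0 - xa) / 2 - G * (bb - cc) / 2 := by
          rw [hxa]; ring
        rw [e3]
        linarith
    · -- maximum inside
      push Not at hka'
      have hcont : ContinuousOn g (Icc xa x1) := by
        have h1 := hg.continuousOn_interior
        rw [interior_Icc] at h1
        apply h1.mono
        intro y hy
        exact ⟨by linarith [hy.1], by linarith [hy.2]⟩
      obtain ⟨z, hz, hzmax⟩ := isCompact_Icc.exists_isMaxOn (nonempty_Icc.2 (by linarith : xa ≤ x1)) hcont
      have hM : ∀ y ∈ Icc 0 (1 + p), g y ≤ g z := by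
        intro y hy
        rcases le_total y xa with h | h
        · have h1 := hka y hy
          have h2 : ka * (y - xa) ≤ 0 := mul_nonpos_of_nonneg_of_nonpos hka'.le (by linarith)
          have h3 := hzmax (show xa ∈ Icc xa x1 from ⟨le_rfl, by linarith⟩)
          simp only [mem_ofPred_eq] at h3
          linarith
        · rcases le_total y x1 with h' | h'
          · exact hzmax (show y ∈ Icc xa x1 from ⟨h, h'⟩)
          · have h1 := hk1 y hy
            have h2 : k1 * (y - x1) ≤ 0 := mul_nonpos_of_nonpos_of_nonneg hk1'.le (by linarith)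
            have h3 := hzmax (show x1 ∈ Icc xa x1 from ⟨by linarith, le_rfl⟩)
            simp only [mem_ofPred_eq] at h3
            linarith
      have hz1 := hz.1
      have hz2 := hz.2
      refine ⟨0, g z, ?_, ?_⟩
      · intro b hb v hv
        have := hM (b + v) ⟨by linarith [hb.1, hv.1], by linarith [hb.2, hv.2]⟩
        linarith
      · have h1 := hint z (by linarith) (by linarith)
        have h2 := hup z (by linarith) (by linarith)
        have h3 := hlo z (by linarith) (by linarith)
        have h6 : g z * (cc - (x0 - xa) / 2) ≤ μ * g z := by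
          have : g z * (cc - (x0 - xa) / 2) ≤ g z * μ := by
            apply mul_le_mul_of_nonneg_left _ h3; rw [hxa]; linarith
          linarith
        have h7 : (1 - cc - x0) * (μ * g z) ≤ μ * (G * (1 - cc - z)) := by
          calc (1 - cc - x0) * (μ * g z) = μ * ((1 - cc - x0) * g z) := by ring
            _ ≤ μ * ((1 - cc - z) * G) := mul_le_mul_of_nonneg_left h2 hμ0
            _ = _ := by ring
        have h11 : μ * G * R * (1 - cc - x0) = μ * G * (1 - cc - p - bb) := by
          rw [← hR]; ring
        have h12 : μ * (x1 - z) ≤ (x1 - z) * (1 - cc - x0) / 2 := by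
          nlinarith [mul_nonneg (sub_nonneg.2 hz2) (by linarith : 0 ≤ (1 - cc - x0) / 2 - μ)]
        have h13 : (1 - cc - x0) * (g z * (cc - (x0 - xa) / 2))
            ≤ (1 - cc - x0) * (G * (x1 - z) / 2 + μ * G * R) := by
          have h14 := mul_le_mul_of_nonneg_left h6 hDR.le
          have h15 := mul_le_mul_of_nonneg_left h12 hG0
          have e1 : 1 - cc - z = (1 - cc - p - bb) + (x1 - z) := by rw [hx1d]; ring
          rw [e1] at h7
          nlinarith
        have h16 := le_of_mul_le_mul_left h13 hDR
        have e3 : G * ((x0 - p - bb) / 2) = G * (x0 - z) / 2 - G * (x1 - z) / 2 := by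
          rw [hx1d]; ring
        rw [e3]
        linarith

end Pool.Agent.H77.Cov
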