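import Mathlib
import Pool.Agent.H77.Cov.Psi

set_option autoImplicit false
open MeasureTheory Set

namespace Pool.Agent.H77.Cov

lemma ratio_num {Λ D : ℝ} (h1 : (0.59155 : ℝ) ≤ Λ) (hD : D ≤ 0.36603) (hD0 : 0 < D)  :
    (cc - (Λ - D) / 2) * ((Λ + cc - bb) / D) ≤ (Λ - 2 * (bb - cc)) / 2 - 0.16 := by
  have hc1 := cc_gt; have hc2 := cc_lt; have hb1 := bb_gt; have hb2 := bb_lt
  rw [← mul_div_assoc, div_le_iff₀ hD0]
  have h3 : 0.1618 ≤ Λ / 2 - cc := by linarith
  have h4 : 0.4848 ≤ Λ - (bb - cc) := by linarith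
  have h5 : 0.1618 * 0.4848 ≤ (Λ / 2 - cc) * (Λ - (bb - cc)) := by
    apply mul_le_mul h3 h4 (by norm_num) (by linarith)
  have h6 : D * (0.16 + (bb - cc) / 2) ≤ 0.36603 * 0.213376 := by
    apply mul_le_mul hD (by linarith) (by linarith) (by norm_num)
  nlinarith

lemma psi_full {g : ℝ → ℝ} {p x0 : ℝ} (hp0 : 0 ≤ p) (hp : p ≤ 0.1405)
    (hg : ConcaveOn ℝ (Icc 0 (1 + p)) g) (ha : 0 ≤ g (cc + p)) (hb : 0 ≤ g (1 - cc))
    (hx0 : 1 / 2 ≤ x0) (hx1 : x0 ≤ 1 / 2 + p) :
    ∃ kl ml kr mr, (∀ b ∈ Icc cc (1 / 2), ∀ v ∈ Icc 0 p, g (b + v) ≤ kl * b + ml) ∧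
      (∀ b ∈ Icc cc (1 / 2), ∀ v ∈ Icc 0 p, g (1 - b + v) ≤ kr * b + mr) ∧
      (kl * mb + ml * cc) + (kr * mb + mr * cc) + 0.16 * g x0 ≤ (∫ y in (cc + p)..(1 - cc), g y) ∧
      (kr * mb + mr * cc) + 0.16 * g x0 ≤ (∫ y in (cc + p)..(1 - cc), g y) := by
  have hc1 := cc_gt; have hc2 := cc_lt; have hb1 := bb_gt; have hb2 := bb_lt
  have hs1 := s3_gt; have hs2 := s3_lt
  have hccs : cc = 1 - Real.sqrt 3 / 2 := rfl
  set DR := 1 - cc - x0 with hDRd
  set DL := x0 - cc - p with hDLd
  have hDR : 0 < DR := by rw [hDRd]; linarith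
  have hDL : 0 < DL := by rw [hDLd]; linarith
  have hG0 : 0 ≤ g x0 := by
    have := conc3 hg (x := cc + p) (y := x0) (z := 1 - cc) (by linarith) (by linarith) (by linarith) (by linarith)
    have h2 : 0 ≤ (1 - cc - x0) * g (cc + p) := mul_nonneg hDR.le ha
    have h3 : 0 ≤ (x0 - (cc + p)) * g (1 - cc) := mul_nonneg (by linarith) hb
    by_contra hc
    push Not at hc
    have : (1 - cc - (cc + p)) * g x0 < 0 := mul_neg_of_pos_of_neg (by linarith) hc
    linarith
  -- left
  obtain ⟨kl, ml, hl1, hl2⟩ := psi_left (R := (1 - cc - p - bb) / DR) (μ := max 0 (cc - DL / 2)) hp0 hp hg ha hb hx0 hx1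
    (by rw [div_mul_cancel₀]; exact hDR.ne') (le_max_left _ _) (le_max_right _ _)
    (max_le (by norm_num) (by rw [hDLd]; linarith))
  -- right
  have hg' := conc_refl hg
  obtain ⟨kr, mr, hr1, hr2⟩ := psi_left (g := fun x => g (1 + p - x)) (x0 := 1 + p - x0)
    (R := (1 - cc - p - bb) / DL) (μ := max 0 (cc - DR / 2)) hp0 hp hg'
    (by simpa [show 1 + p - (cc + p) = 1 - cc by ring] using hb)
    (by simpa [show 1 + p - (1 - cc) = cc + p by ring] using ha) (by linarith) (by linarith)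
    (by rw [show 1 - cc - (1 + p - x0) = DL by rw [hDLd]; ring, div_mul_cancel₀]; exact hDL.ne')
    (le_max_left _ _) (by rw [show (1 + p - x0 - cc - p) = DR by rw [hDRd]; ring]; exact le_max_right _ _)
    (max_le (by norm_num) (by rw [hDRd]; linarith))
  have hcomp := intervalIntegral.integral_comp_sub_left (a := cc + p) (b := 1 + p - x0) g (1 + p)
  rw [hcomp] at hr2
  simp only [show 1 + p - (1 + p - x0) = x0 by ring, show 1 + p - (cc + p) = 1 - cc by ring] at hr2
  have hsplit := intervalIntegral.integral_add_adjacent_intervals (μ := volume)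
      (conc_ii hg (a := cc + p) (b := x0) (by linarith) (by linarith) (by linarith))
      (conc_ii hg (a := x0) (b := 1 - cc) (by linarith) (by linarith) (by linarith))
  have hleft := trap' hg (a := cc + p) (b := x0) (u := 0) (v := g x0) (by linarith) (by linarith)
    (by linarith) ha le_rfl
  refine ⟨kl, ml, kr, mr, hl1, ?_, ?_, ?_⟩
  · intro b hb v hv
    have := hr1 b hb (p - v) ⟨by linarith [hv.2], by linarith [hv.1]⟩
    rwa [show 1 + p - (b + (p - v)) = 1 - b + v by ring] at this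
  · -- key numeric inequality
    have key : max 0 (cc - DL / 2) * ((1 - cc - p - bb) / DR) + max 0 (cc - DR / 2) * ((1 - cc - p - bb) / DL)
        ≤ (DL + DR - 2 * (bb - cc)) / 2 - 0.16 := by
      rcases le_total (cc - DL / 2) 0 with h1 | h1
      · rcases le_total (cc - DR / 2) 0 with h2 | h2
        · rw [max_eq_left h1, max_eq_left h2]
          have : DL + DR = 1 - 2 * cc - p := by rw [hDRd, hDLd]; ring
          rw [this]; linarith
        · rw [max_eq_left h1, max_eq_right h2]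
          have := ratio_num (Λ := DL + DR) (D := DL) (by rw [hDRd, hDLd]; linarith)
            (by rw [hDLd]; linarith) hDL
          have e : 1 - cc - p - bb = DL + DR + cc - bb := by rw [hDRd, hDLd]; ring
          rw [e]
          have e2 : cc - DR / 2 = cc - (DL + DR - DL) / 2 := by ring
          rw [e2]; linarith
      · have h2 : cc - DR / 2 ≤ 0 := by rw [hDRd]; rw [hDLd] at h1; linarith
        rw [max_eq_right h1, max_eq_left h2]
        have := ratio_num (Λ := DL + DR) (D := DR) (by rw [hDRd, hDLd]; linarith)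
            (by rw [hDRd]; linarith) hDR
        have e : 1 - cc - p - bb = DL + DR + cc - bb := by rw [hDRd, hDLd]; ring
        rw [e]
        have e2 : cc - DL / 2 = cc - (DL + DR - DR) / 2 := by ring
        rw [e2]; linarith
    have key2 := mul_le_mul_of_nonneg_left key hG0
    rw [← hsplit]
    have e : g x0 * ((DL + DR - 2 * (bb - cc)) / 2) = g x0 * ((x0 - p - bb) / 2) + g x0 * ((1 + p - x0 - p - bb) / 2) := by
      rw [hDRd, hDLd]; ring
    nlinarith
  · have key : max 0 (cc - DR / 2) * ((1 - cc - p - bb) / DL) ≤ 0.04 := by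
      have h1 : max 0 (cc - DR / 2) ≤ 0.0213 := max_le (by norm_num) (by rw [hDRd]; linarith)
      rcases le_total (cc - DR / 2) 0 with h2 | h2
      · rw [max_eq_left h2]; norm_num
      · have h3 : (1 - cc - p - bb) / DL ≤ 1.8 := by
          rw [div_le_iff₀ hDL, hDLd]
          rw [hDRd] at h2
          linarith
        have h4 : 0 ≤ (1 - cc - p - bb) / DL := by apply div_nonneg _ hDL.le; linarith
        calc max 0 (cc - DR / 2) * ((1 - cc - p - bb) / DL) ≤ 0.0213 * 1.8 :=
              mul_le_mul h1 h3 h4 (by norm_num)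
          _ ≤ 0.04 := by norm_num
    have key2 := mul_le_mul_of_nonneg_left key hG0
    rw [← hsplit]
    have h5 : g x0 * 0.2 ≤ g x0 * ((x0 - (cc + p)) / 2 + (1 + p - x0 - p - bb) / 2) := by
      apply mul_le_mul_of_nonneg_left _ hG0; linarith
    nlinarith

end Pool.Agent.H77.Cov
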