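import Mathlib
import Pool.Agent.H77.Cov.PsiFull

set_option autoImplicit false
open MeasureTheory Set

namespace Pool.Agent.H77.Cov

/-- All facts used about a convex cover in its minimal-width frame, in terms of the upper boundary
`T = 1 + (κ x + τ) + g` and the lower boundary `B = (κ x + τ) - h`. -/
structure Pkg (p κ τ S0 S1 v0 y0 v6 y6 ts : ℝ) (g h : ℝ → ℝ) : Prop where
  hp : 0 ≤ p
  hp1 : p ≤ 0.1405
  hg : ConcaveOn ℝ (Icc 0 (1 + p)) g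
  hh : ConcaveOn ℝ (Icc 0 (1 + p)) h
  hS0 : 0 ≤ S0
  hS0' : S0 ≤ cc + p
  hS1 : 1 - cc ≤ S1
  hS1' : S1 ≤ 1 + p
  gS : ∀ x ∈ Icc S0 S1, 0 ≤ g x
  hS : ∀ x ∈ Icc S0 S1, 0 ≤ h x
  eS0 : S0 = 0 ∨ (g S0 = 0 ∧ h S0 = 0)
  eS1 : S1 = 1 + p ∨ (g S1 = 0 ∧ h S1 = 0)
  /-- `V ≥ 0` -/
  hV0 : 0 ≤ 1 + g 0 + h 0
  hV1 : 0 ≤ 1 + g (1 + p) + h (1 + p)
  LL : ∀ x ∈ Icc 0 cc, ∃ v ∈ Icc 0 p, bf x + v ∈ Icc S0 S1 ∧
    -(1 - sps x) - κ * cps x ≤ g (bf x + v) + h (x + v)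
  UL : ∀ x ∈ Icc 0 cc, ∃ v ∈ Icc 0 p, bf x + v ∈ Icc S0 S1 ∧
    -(1 - sps x) + κ * cps x ≤ h (bf x + v) + g (x + v)
  LR : ∀ x ∈ Icc 0 cc, ∃ v ∈ Icc 0 p, 1 - bf x + v ∈ Icc S0 S1 ∧
    -(1 - sps x) + κ * cps x ≤ g (1 - bf x + v) + h (1 - x + v)
  UR : ∀ x ∈ Icc 0 cc, ∃ v ∈ Icc 0 p, 1 - bf x + v ∈ Icc S0 S1 ∧
    -(1 - sps x) - κ * cps x ≤ h (1 - bf x + v) + g (1 - x + v)
  hv0 : v0 ∈ Icc 0 p
  hv6 : v6 ∈ Icc 0 p
  -- chord at height ts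
  tT0 : ts ≤ 1 + τ + g 0
  tT1 : ts ≤ 1 + (κ * (1 + p) + τ) + g (1 + p)
  tB0 : τ - h 0 ≤ ts
  tB1 : (κ * (1 + p) + τ) - h (1 + p) ≤ ts
  -- X_0 at (v0, y0)
  x0a : (κ * v0 + τ) - h v0 ≤ cc + y0
  x0b : (κ * (1 + v0) + τ) - h (1 + v0) ≤ cc + y0
  x0c : 1 + y0 ≤ 1 + (κ * (1 / 2 + v0) + τ) + g (1 / 2 + v0)
  -- X_60 at (v6, y6)
  x6a : 1 - cc + y6 ≤ 1 + (κ * v6 + τ) + g v6
  x6b : 1 - cc + y6 ≤ 1 + (κ * (1 + v6) + τ) + g (1 + v6)
  x6c : (κ * (1 / 2 + v6) + τ) - h (1 / 2 + v6) ≤ y6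

/-- horizontal flip -/
lemma Pkg.flipH {p κ τ S0 S1 v0 y0 v6 y6 ts : ℝ} {g h : ℝ → ℝ}
    (H : Pkg p κ τ S0 S1 v0 y0 v6 y6 ts g h) :
    Pkg p (-κ) (τ + κ * (1 + p)) (1 + p - S1) (1 + p - S0) (p - v0) y0 (p - v6) y6 ts
      (fun x => g (1 + p - x)) (fun x => h (1 + p - x)) where
  hp := H.hp
  hp1 := H.hp1
  hg := conc_refl H.hg
  hh := conc_refl H.hh
  hS0 := by linarith [H.hS1']
  hS0' := by linarith [H.hS1]
  hS1 := by linarith [H.hS0']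
  hS1' := by linarith [H.hS0]
  gS := fun x hx => H.gS _ ⟨by linarith [hx.2], by linarith [hx.1]⟩
  hS := fun x hx => H.hS _ ⟨by linarith [hx.2], by linarith [hx.1]⟩
  eS0 := by
    rcases H.eS1 with h | h
    · left; linarith
    · right; simpa using h
  eS1 := by
    rcases H.eS0 with h | h
    · left; linarith
    · right; simpa using h
  hV0 := by simpa using H.hV1
  hV1 := by simpa using H.hV0
  LL := by
    intro x hx
    obtain ⟨v, hv, h1, h2⟩ := H.LR x hx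
    refine ⟨p - v, ⟨by linarith [hv.2], by linarith [hv.1]⟩, ⟨by linarith [h1.2], by linarith [h1.1]⟩, ?_⟩
    rw [show 1 + p - (bf x + (p - v)) = 1 - bf x + v by ring,
      show 1 + p - (x + (p - v)) = 1 - x + v by ring]
    linarith
  UL := by
    intro x hx
    obtain ⟨v, hv, h1, h2⟩ := H.UR x hx
    refine ⟨p - v, ⟨by linarith [hv.2], by linarith [hv.1]⟩, ⟨by linarith [h1.2], by linarith [h1.1]⟩, ?_⟩
    rw [show 1 + p - (bf x + (p - v)) = 1 - bf x + v by ring,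
      show 1 + p - (x + (p - v)) = 1 - x + v by ring]
    linarith
  LR := by
    intro x hx
    obtain ⟨v, hv, h1, h2⟩ := H.LL x hx
    refine ⟨p - v, ⟨by linarith [hv.2], by linarith [hv.1]⟩, ⟨by linarith [h1.2], by linarith [h1.1]⟩, ?_⟩
    rw [show 1 + p - (1 - bf x + (p - v)) = bf x + v by ring,
      show 1 + p - (1 - x + (p - v)) = x + v by ring]
    linarith
  UR := by
    intro x hx
    obtain ⟨v, hv, h1, h2⟩ := H.UL x hx
    refine ⟨p - v, ⟨by linarith [hv.2], by linarith [hv.1]⟩, ⟨by linarith [h1.2], by linarith [h1.1]⟩, ?_⟩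
    rw [show 1 + p - (1 - bf x + (p - v)) = bf x + v by ring,
      show 1 + p - (1 - x + (p - v)) = x + v by ring]
    linarith
  hv0 := ⟨by linarith [H.hv0.2], by linarith [H.hv0.1]⟩
  hv6 := ⟨by linarith [H.hv6.2], by linarith [H.hv6.1]⟩
  tT0 := by have := H.tT1; simp only [sub_zero]; linarith
  tT1 := by have := H.tT0; simp only [sub_self]; linarith
  tB0 := by have := H.tB1; simp only [sub_zero]; linarith
  tB1 := by have := H.tB0; simp only [sub_self]; linarith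
  x0a := by
    have := H.x0b
    rw [show 1 + p - (p - v0) = 1 + v0 by ring]; linarith
  x0b := by
    have := H.x0a
    rw [show 1 + p - (1 + (p - v0)) = v0 by ring]; linarith
  x0c := by
    have := H.x0c
    rw [show 1 + p - (1 / 2 + (p - v0)) = 1 / 2 + v0 by ring]; linarith
  x6a := by
    have := H.x6b
    rw [show 1 + p - (p - v6) = 1 + v6 by ring]; linarith
  x6b := by
    have := H.x6a
    rw [show 1 + p - (1 + (p - v6)) = v6 by ring]; linarith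
  x6c := by
    have := H.x6c
    rw [show 1 + p - (1 / 2 + (p - v6)) = 1 / 2 + v6 by ring]; linarith

/-- vertical flip -/
lemma Pkg.flipV {p κ τ S0 S1 v0 y0 v6 y6 ts : ℝ} {g h : ℝ → ℝ}
    (H : Pkg p κ τ S0 S1 v0 y0 v6 y6 ts g h) :
    Pkg p (-κ) (-τ - 1) S0 S1 v6 (-1 - y6) v0 (-1 - y0) (-ts) h g where
  hp := H.hp
  hp1 := H.hp1
  hg := H.hh
  hh := H.hg
  hS0 := H.hS0
  hS0' := H.hS0'
  hS1 := H.hS1
  hS1' := H.hS1'
  gS := H.hS
  hS := H.gS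
  eS0 := H.eS0.imp id (fun h => ⟨h.2, h.1⟩)
  eS1 := H.eS1.imp id (fun h => ⟨h.2, h.1⟩)
  hV0 := by linarith [H.hV0]
  hV1 := by linarith [H.hV1]
  LL := by
    intro x hx
    obtain ⟨v, hv, h1, h2⟩ := H.UL x hx
    exact ⟨v, hv, h1, by linarith⟩
  UL := by
    intro x hx
    obtain ⟨v, hv, h1, h2⟩ := H.LL x hx
    exact ⟨v, hv, h1, by linarith⟩
  LR := by
    intro x hx
    obtain ⟨v, hv, h1, h2⟩ := H.UR x hx
    exact ⟨v, hv, h1, by linarith⟩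
  UR := by
    intro x hx
    obtain ⟨v, hv, h1, h2⟩ := H.LR x hx
    exact ⟨v, hv, h1, by linarith⟩
  hv0 := H.hv6
  hv6 := H.hv0
  tT0 := by linarith [H.tB0]
  tT1 := by linarith [H.tB1]
  tB0 := by linarith [H.tT0]
  tB1 := by linarith [H.tT1]
  x0a := by linarith [H.x6a]
  x0b := by linarith [H.x6b]
  x0c := by linarith [H.x6c]
  x6a := by linarith [H.x0a]
  x6b := by linarith [H.x0b]
  x6c := by linarith [H.x0c]

/-- monotonicity to the left of `S0` -/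
lemma mono_left {f : ℝ → ℝ} {L S0 S1 : ℝ} (hf : ConcaveOn ℝ (Icc 0 L) f)
    (h01 : S0 < S1) (hS1 : S1 ≤ L) (e0 : f S0 = 0) (e1 : 0 ≤ f S1) {x y : ℝ} (hx : 0 ≤ x)
    (hxy : x ≤ y) (hy : y ≤ S0) : f x ≤ f y := by
  have h1 := conc3 hf hx (hxy.trans hy) h01.le hS1
  rw [e0] at h1
  have h2 : 0 ≤ (S0 - x) * f S1 := mul_nonneg (by linarith) e1
  have h3 : f x ≤ 0 := by
    by_contra hc
    push Not at hc
    have : 0 < (S1 - S0) * f x := mul_pos (by linarith) hc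
    linarith
  rcases eq_or_lt_of_le (hxy.trans hy) with h | h
  · have : x = y := by linarith
    rw [this]
  · have h4 := conc3 hf hx hxy hy (h01.le.trans hS1)
    rw [e0] at h4
    have h5 : 0 < S0 - x := by linarith
    have h6 : 0 ≤ (y - x) * (- f x) := mul_nonneg (by linarith) (by linarith)
    by_contra hc
    push Not at hc
    nlinarith

/-- `g` and `h` at `x` compared with an earlier point, either `x ∈ S` or monotone -/
lemma Pkg.left {p κ τ S0 S1 v0 y0 v6 y6 ts : ℝ} {g h : ℝ → ℝ}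
    (H : Pkg p κ τ S0 S1 v0 y0 v6 y6 ts g h) {x : ℝ} (hx0 : 0 ≤ x) (hx : x ≤ cc + p) :
    (0 ≤ g x ∧ 0 ≤ h x) ∨ ((∀ y, 0 ≤ y → y ≤ x → g y ≤ g x ∧ h y ≤ h x)) := by
  have hc := cc_lt
  have hp1 := H.hp1
  have h1 := H.hS1
  rcases le_or_gt S0 x with h | h
  · left
    exact ⟨H.gS x ⟨h, by linarith⟩, H.hS x ⟨h, by linarith⟩⟩
  · right
    intro y hy hyx
    rcases H.eS0 with e | e
    · linarith
    · have h01 : S0 < S1 := by linarith [H.hS0']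
      exact ⟨mono_left H.hg h01 H.hS1' e.1 (H.gS _ ⟨h01.le, le_rfl⟩) hy hyx h.le,
        mono_left H.hh h01 H.hS1' e.2 (H.hS _ ⟨h01.le, le_rfl⟩) hy hyx h.le⟩

end Pool.Agent.H77.Cov
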