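import Mathlib
import Pool.Agent.H77.Cov.Pkg

set_option autoImplicit false
open MeasureTheory Set

namespace Pool.Agent.H77.Cov

variable {p κ τ S0 S1 v0 y0 v6 y6 ts : ℝ} {g h : ℝ → ℝ}

lemma Pkg.left_pt (H : Pkg p κ τ S0 S1 v0 y0 v6 y6 ts g h) {kg mg kh mh : ℝ}
    (hkg : ∀ b ∈ Icc cc (1 / 2), ∀ v ∈ Icc 0 p, g (b + v) ≤ kg * b + mg)
    (hkh : ∀ b ∈ Icc cc (1 / 2), ∀ v ∈ Icc 0 p, h (b + v) ≤ kh * b + mh)
    {x : ℝ} (hx : x ∈ Icc 0 cc) :
    2 * sps x - 1 - ((kg + kh) * bf x + (mg + mh)) ≤ 1 + g (x + p) + h (x + p) := by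
  obtain ⟨v, hv, hvS, h1⟩ := H.LL x hx
  obtain ⟨w, hw, hwS, h2⟩ := H.UL x hx
  have hb := bf_mem hx
  have a1 := hkg _ hb v hv
  have a2 := hkh _ hb w hw
  have hs := sps_le hx
  have hp := H.hp
  rcases H.left (x := x + p) (by linarith [hx.1]) (by linarith [hx.2]) with h | h
  · have b1 := H.gS _ hvS
    have b2 := H.hS _ hwS
    linarith [h.1, h.2]
  · have c1 := (h (x + v) (by linarith [hx.1, hv.1]) (by linarith [hv.2])).2
    have c2 := (h (x + w) (by linarith [hx.1, hw.1]) (by linarith [hw.2])).1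
    linarith

lemma Pkg.iiV (H : Pkg p κ τ S0 S1 v0 y0 v6 y6 ts g h) {a b : ℝ} (ha : 0 ≤ a) (hab : a ≤ b)
    (hb : b ≤ 1 + p) : IntervalIntegrable (fun y => 1 + g y + h y) volume a b := by
  have h1 := conc_ii H.hg ha hab hb
  have h2 := conc_ii H.hh ha hab hb
  exact ((Continuous.intervalIntegrable continuous_const _ _).add h1).add h2

lemma Pkg.left_int (H : Pkg p κ τ S0 S1 v0 y0 v6 y6 ts g h) {kg mg kh mh : ℝ}
    (hkg : ∀ b ∈ Icc cc (1 / 2), ∀ v ∈ Icc 0 p, g (b + v) ≤ kg * b + mg)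
    (hkh : ∀ b ∈ Icc cc (1 / 2), ∀ v ∈ Icc 0 p, h (b + v) ≤ kh * b + mh) :
    C1 - ((kg * mb + mg * cc) + (kh * mb + mh * cc)) ≤ ∫ y in p..(cc + p), (1 + g y + h y) := by
  have hp := H.hp
  have hp1 := H.hp1
  have hc := cc_gt
  have hc2 := cc_lt
  have e1 : ∫ y in p..(cc + p), (1 + g y + h y) = ∫ x in (0:ℝ)..cc, (1 + g (x + p) + h (x + p)) := by
    have := intervalIntegral.integral_comp_add_right (a := 0) (b := cc) (fun y => 1 + g y + h y) p
    simp only [zero_add] at this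
    exact this.symm
  rw [e1]
  have e2 : C1 - ((kg * mb + mg * cc) + (kh * mb + mh * cc)) =
      ∫ x in (0:ℝ)..cc, (2 * sps x - 1 - ((kg + kh) * bf x + (mg + mh))) := by
    rw [int_corner]; ring
  rw [e2]
  apply intervalIntegral.integral_mono_on (by linarith)
  · apply Continuous.intervalIntegrable; have := sps_cont; have := bf_cont; fun_prop
  · have := H.iiV (a := p) (b := cc + p) hp (by linarith) (by linarith)
    have h2 := this.comp_add_right p
    simpa using h2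
  · intro x hx
    exact H.left_pt hkg hkh hx

lemma Pkg.right_int (H : Pkg p κ τ S0 S1 v0 y0 v6 y6 ts g h) {kg mg kh mh : ℝ}
    (hkg : ∀ b ∈ Icc cc (1 / 2), ∀ v ∈ Icc 0 p, g (1 - b + v) ≤ kg * b + mg)
    (hkh : ∀ b ∈ Icc cc (1 / 2), ∀ v ∈ Icc 0 p, h (1 - b + v) ≤ kh * b + mh) :
    C1 - ((kg * mb + mg * cc) + (kh * mb + mh * cc)) ≤ ∫ y in (1 - cc)..1, (1 + g y + h y) := by
  have h1 := H.flipH.left_int (kg := kg) (mg := mg) (kh := kh) (mh := mh)
    (by
      intro b hb v hv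
      have := hkg b hb (p - v) ⟨by linarith [hv.2], by linarith [hv.1]⟩
      rwa [show 1 - b + (p - v) = 1 + p - (b + v) by ring] at this)
    (by
      intro b hb v hv
      have := hkh b hb (p - v) ⟨by linarith [hv.2], by linarith [hv.1]⟩
      rwa [show 1 - b + (p - v) = 1 + p - (b + v) by ring] at this)
  have e := intervalIntegral.integral_comp_sub_left (a := p) (b := cc + p) (fun y => 1 + g y + h y) (1 + p)
  rw [show 1 + p - (cc + p) = 1 - cc by ring, show 1 + p - p = 1 by ring] at e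
  rw [← e]
  exact h1

lemma Pkg.mid_int (H : Pkg p κ τ S0 S1 v0 y0 v6 y6 ts g h) :
    ∫ y in (cc + p)..(1 - cc), (1 + g y + h y) =
      (1 - 2 * cc - p) + (∫ y in (cc + p)..(1 - cc), g y) + (∫ y in (cc + p)..(1 - cc), h y) := by
  have hp := H.hp
  have hp1 := H.hp1
  have hc := cc_gt
  have hc2 := cc_lt
  have h1 := conc_ii H.hg (a := cc + p) (b := 1 - cc) (by linarith) (by linarith) (by linarith)
  have h2 := conc_ii H.hh (a := cc + p) (b := 1 - cc) (by linarith) (by linarith) (by linarith)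
  rw [intervalIntegral.integral_add ((Continuous.intervalIntegrable continuous_const _ _).add h1) h2,
    intervalIntegral.integral_add (Continuous.intervalIntegrable continuous_const _ _) h1]
  simp
  ring

lemma Pkg.gpos (H : Pkg p κ τ S0 S1 v0 y0 v6 y6 ts g h) {x : ℝ} (h1 : cc + p ≤ x)
    (h2 : x ≤ 1 - cc) : 0 ≤ g x ∧ 0 ≤ h x :=
  ⟨H.gS x ⟨by linarith [H.hS0'], by linarith [H.hS1]⟩, H.hS x ⟨by linarith [H.hS0'], by linarith [H.hS1]⟩⟩

/-- inner estimate -/
lemma Pkg.inner (H : Pkg p κ τ S0 S1 v0 y0 v6 y6 ts g h) :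
    A0 - p + 0.16 * (g (1 / 2 + v0) + h (1 / 2 + v6)) ≤ ∫ y in p..1, (1 + g y + h y) := by
  have hp := H.hp
  have hp1 := H.hp1
  have hc := cc_gt
  have hc2 := cc_lt
  have ha := H.gpos (x := cc + p) le_rfl (by linarith)
  have hb := H.gpos (x := 1 - cc) (by linarith) le_rfl
  obtain ⟨kl, ml, kr, mr, b1, b2, b3, -⟩ := psi_full (x0 := 1 / 2 + v0) hp hp1 H.hg ha.1 hb.1
    (by linarith [H.hv0.1]) (by linarith [H.hv0.2])
  obtain ⟨kl', ml', kr', mr', b1', b2', b3', -⟩ := psi_full (x0 := 1 / 2 + v6) hp hp1 H.hh ha.2 hb.2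
    (by linarith [H.hv6.1]) (by linarith [H.hv6.2])
  have i1 := H.left_int b1 b1'
  have i2 := H.right_int b2 b2'
  have i3 := H.mid_int
  have j1 := intervalIntegral.integral_add_adjacent_intervals (μ := volume)
    (H.iiV (a := p) (b := cc + p) hp (by linarith) (by linarith))
    (H.iiV (a := cc + p) (b := 1 - cc) (by linarith) (by linarith) (by linarith))
  have j2 := intervalIntegral.integral_add_adjacent_intervals (μ := volume)
    (H.iiV (a := p) (b := 1 - cc) hp (by linarith) (by linarith))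
    (H.iiV (a := 1 - cc) (b := 1) (by linarith) (by linarith) (by linarith))
  have hA := A0_eq
  have hcs : cc = 1 - Real.sqrt 3 / 2 := rfl
  linarith

/-- inner estimate without the left corner -/
lemma Pkg.innerR (H : Pkg p κ τ S0 S1 v0 y0 v6 y6 ts g h) :
    C1 + (1 - 2 * cc - p) + 0.16 * (g (1 / 2 + v0) + h (1 / 2 + v6)) ≤
      ∫ y in (cc + p)..1, (1 + g y + h y) := by
  have hp := H.hp
  have hp1 := H.hp1
  have hc := cc_gt
  have hc2 := cc_lt
  have ha := H.gpos (x := cc + p) le_rfl (by linarith)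
  have hb := H.gpos (x := 1 - cc) (by linarith) le_rfl
  obtain ⟨kl, ml, kr, mr, b1, b2, -, b3⟩ := psi_full (x0 := 1 / 2 + v0) hp hp1 H.hg ha.1 hb.1
    (by linarith [H.hv0.1]) (by linarith [H.hv0.2])
  obtain ⟨kl', ml', kr', mr', b1', b2', -, b3'⟩ := psi_full (x0 := 1 / 2 + v6) hp hp1 H.hh ha.2 hb.2
    (by linarith [H.hv6.1]) (by linarith [H.hv6.2])
  have i2 := H.right_int b2 b2'
  have i3 := H.mid_int
  have j2 := intervalIntegral.integral_add_adjacent_intervals (μ := volume)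
    (H.iiV (a := cc + p) (b := 1 - cc) (by linarith) (by linarith) (by linarith))
    (H.iiV (a := 1 - cc) (b := 1) (by linarith) (by linarith) (by linarith))
  linarith

end Pool.Agent.H77.Cov
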