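import Mathlib
import Pool.Agent.H77.Cov.Inner

set_option autoImplicit false
open MeasureTheory Set

namespace Pool.Agent.H77.Cov

variable {p κ τ S0 S1 v0 y0 v6 y6 ts : ℝ} {g h : ℝ → ℝ}

lemma conc_affine (L m n : ℝ) : ConcaveOn ℝ (Icc 0 L) (fun y => m * y + n) := by
  refine ⟨convex_Icc _ _, fun x _ y _ a b _ _ hab => ?_⟩
  simp only [smul_eq_mul]
  apply le_of_eq
  linear_combination n * hab

lemma Pkg.hT (H : Pkg p κ τ S0 S1 v0 y0 v6 y6 ts g h) :
    ConcaveOn ℝ (Icc 0 (1 + p)) (fun y => 1 + (κ * y + τ) + g y) := by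
  have := (conc_affine (1 + p) κ (1 + τ)).add H.hg
  apply this.congr
  intro y _
  simp only [Pi.add_apply]
  ring

lemma Pkg.hB (H : Pkg p κ τ S0 S1 v0 y0 v6 y6 ts g h) :
    ConcaveOn ℝ (Icc 0 (1 + p)) (fun y => -((κ * y + τ) - h y)) := by
  have := (conc_affine (1 + p) (-κ) (-τ)).add H.hh
  apply this.congr
  intro y _
  simp only [Pi.add_apply]
  ring

lemma Pkg.hV (H : Pkg p κ τ S0 S1 v0 y0 v6 y6 ts g h) :
    ConcaveOn ℝ (Icc 0 (1 + p)) (fun y => 1 + g y + h y) := by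
  have := ((conc_affine (1 + p) 0 1).add H.hg).add H.hh
  apply this.congr
  intro y _
  simp only [Pi.add_apply]
  ring

lemma Pkg.int_TB (H : Pkg p κ τ S0 S1 v0 y0 v6 y6 ts g h) {a b : ℝ} (ha : 0 ≤ a) (hab : a ≤ b)
    (hb : b ≤ 1 + p) : ∫ y in a..b, (1 + g y + h y) =
      (∫ y in a..b, (1 + (κ * y + τ) + g y)) + ∫ y in a..b, -((κ * y + τ) - h y) := by
  rw [← intervalIntegral.integral_add (conc_ii H.hT ha hab hb) (conc_ii H.hB ha hab hb)]
  congr 1
  ext y
  ring

/-- two-node trapezoid -/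
lemma trap2 {f : ℝ → ℝ} {L : ℝ} (hf : ConcaveOn ℝ (Icc 0 L) f) {a b c u v w : ℝ} (ha : 0 ≤ a)
    (hab : a ≤ b) (hbc : b ≤ c) (hc : c ≤ L) (hu : u ≤ f a) (hv : v ≤ f b) (hw : w ≤ f c) :
    (b - a) * (u + v) / 2 + (c - b) * (v + w) / 2 ≤ ∫ x in a..c, f x := by
  have h1 := trap' hf ha hab (hbc.trans hc) hu hv
  have h2 := trap' hf (ha.trans hab) hbc hc hv hw
  rw [← intervalIntegral.integral_add_adjacent_intervals (conc_ii hf ha hab (hbc.trans hc))
    (conc_ii hf (ha.trans hab) hbc hc)]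
  linarith

/-- between two nodes -/
lemma conc_min {f : ℝ → ℝ} {L : ℝ} (hf : ConcaveOn ℝ (Icc 0 L) f) {a b x t : ℝ} (ha : 0 ≤ a)
    (hax : a ≤ x) (hxb : x ≤ b) (hb : b ≤ L) (h1 : t ≤ f a) (h2 : t ≤ f b) : t ≤ f x := by
  rcases eq_or_lt_of_le (hax.trans hxb) with h | h
  · have : x = a := by linarith
    rw [this]; exact h1
  · have h3 := conc3 hf ha hax hxb hb
    have h4 := mul_le_mul_of_nonneg_left h1 (sub_nonneg.2 hxb)
    have h5 := mul_le_mul_of_nonneg_left h2 (sub_nonneg.2 hax)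
    have h6 : (b - a) * t ≤ (b - a) * f x := by nlinarith
    exact le_of_mul_le_mul_left h6 (by linarith)

/-- general outer estimate -/
lemma Pkg.outer (H : Pkg p κ τ S0 S1 v0 y0 v6 y6 ts g h) :
    1.5 * p * (1 - 2 * cc + y6 - y0) ≤
      (∫ y in (0:ℝ)..p, (1 + g y + h y)) + ∫ y in (1:ℝ)..(1 + p), (1 + g y + h y) := by
  have hp := H.hp
  have hp1 := H.hp1
  obtain ⟨a1, a2⟩ := H.hv0
  obtain ⟨b1, b2⟩ := H.hv6
  rw [H.int_TB le_rfl hp (by linarith), H.int_TB (by norm_num) (by linarith) le_rfl]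
  have T1 := H.x6a
  have T2 := H.x6b
  have B1 := H.x0a
  have B2 := H.x0b
  have hTp := conc_min H.hT (t := 1 - cc + y6) (a := v6) (b := 1 + v6) (x := p) b1 b2 (by linarith) (by linarith) T1 T2
  have hT1 := conc_min H.hT (t := 1 - cc + y6) (a := v6) (b := 1 + v6) (x := 1) b1 (by linarith) (by linarith) (by linarith) T1 T2
  have hBp := conc_min H.hB (t := -(cc + y0)) (a := v0) (b := 1 + v0) (x := p) a1 a2 (by linarith) (by linarith) (by linarith) (by linarith)
  have hB1 := conc_min H.hB (t := -(cc + y0)) (a := v0) (b := 1 + v0) (x := 1) a1 (by linarith) (by linarith) (by linarith) (by linarith) (by linarith)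
  have i1 := trap2 H.hT (a := 0) (b := v6) (c := p) (u := ts) (v := 1 - cc + y6) (w := 1 - cc + y6)
    le_rfl b1 b2 (by linarith) (by have := H.tT0; simp only [mul_zero]; linarith) T1 hTp
  have i2 := trap2 H.hT (a := 1) (b := 1 + v6) (c := 1 + p) (u := 1 - cc + y6) (v := 1 - cc + y6) (w := ts)
    (by norm_num) (by linarith) (by linarith) le_rfl hT1 T2 H.tT1
  have i3 := trap2 H.hB (a := 0) (b := v0) (c := p) (u := -ts) (v := -(cc + y0)) (w := -(cc + y0))
    le_rfl a1 a2 (by linarith) (by have := H.tB0; simp only [mul_zero]; linarith) (by linarith) hBp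
  have i4 := trap2 H.hB (a := 1) (b := 1 + v0) (c := 1 + p) (u := -(cc + y0)) (v := -(cc + y0)) (w := -ts)
    (by norm_num) (by linarith) (by linarith) le_rfl hB1 (by linarith) (by have := H.tB1; linarith)
  linarith

/-- outer estimate in the normal case -/
lemma Pkg.outerN (H : Pkg p κ τ S0 S1 v0 y0 v6 y6 ts g h) (hκ : 0 ≤ κ) (hΔ : v6 ≤ v0)
    (hg6 : g v6 ≤ 0) (hh0 : h (1 + v0) ≤ 0) :
    1.5 * p * (1 - 2 * cc + y6 - y0) + κ * p * (v0 - v6) ≤
      (∫ y in (0:ℝ)..p, (1 + g y + h y)) + ∫ y in (1:ℝ)..(1 + p), (1 + g y + h y) := by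
  have hp := H.hp
  have hp1 := H.hp1
  have hc := cc_gt
  obtain ⟨a1, a2⟩ := H.hv0
  obtain ⟨b1, b2⟩ := H.hv6
  rw [H.int_TB le_rfl hp (by linarith), H.int_TB (by norm_num) (by linarith) le_rfl]
  have T1 := H.x6a
  have T2 := H.x6b
  have B1 := H.x0a
  have B2 := H.x0b
  have hgp : g v6 ≤ g p := by
    rcases H.left (x := p) hp (by linarith) with h | h
    · linarith [h.1]
    · exact (h v6 b1 b2).1
  have hh1 : h (1 + v0) ≤ h 1 := by
    rcases H.flipH.left (x := p) hp (by linarith) with h' | h'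
    · have := h'.2
      rw [show 1 + p - p = 1 by ring] at this
      linarith
    · have := (h' (p - v0) (by linarith) (by linarith)).2
      simp only [show 1 + p - (p - v0) = 1 + v0 by ring, show 1 + p - p = 1 by ring] at this
      exact this
  have hTp : 1 - cc + y6 + κ * (p - v6) ≤ 1 + (κ * p + τ) + g p := by linarith
  have hT1 := conc_min H.hT (t := 1 - cc + y6) (a := v6) (b := 1 + v6) (x := 1) b1 (by linarith) (by linarith) (by linarith) T1 T2
  have hBp := conc_min H.hB (t := -(cc + y0)) (a := v0) (b := 1 + v0) (x := p) a1 a2 (by linarith) (by linarith) (by linarith) (by linarith)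
  have hB1 : -(cc + y0) + κ * v0 ≤ -((κ * 1 + τ) - h 1) := by linarith
  have i1 := trap2 H.hT (a := 0) (b := v6) (c := p) (u := ts) (v := 1 - cc + y6) (w := 1 - cc + y6 + κ * (p - v6))
    le_rfl b1 b2 (by linarith) (by have := H.tT0; simp only [mul_zero]; linarith) T1 hTp
  have i2 := trap2 H.hT (a := 1) (b := 1 + v6) (c := 1 + p) (u := 1 - cc + y6) (v := 1 - cc + y6) (w := ts)
    (by norm_num) (by linarith) (by linarith) le_rfl hT1 T2 H.tT1
  have i3 := trap2 H.hB (a := 0) (b := v0) (c := p) (u := -ts) (v := -(cc + y0)) (w := -(cc + y0))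
    le_rfl a1 a2 (by linarith) (by have := H.tB0; simp only [mul_zero]; linarith) (by linarith) hBp
  have i4 := trap2 H.hB (a := 1) (b := 1 + v0) (c := 1 + p) (u := -(cc + y0) + κ * v0) (v := -(cc + y0)) (w := -ts)
    (by norm_num) (by linarith) (by linarith) le_rfl hB1 (by linarith) (by have := H.tB1; linarith)
  have key : κ * p * (v0 - v6) ≤ κ / 2 * ((p - v6) ^ 2 + v0 ^ 2) := by
    have : p * (v0 - v6) ≤ 1 / 2 * ((p - v6) ^ 2 + v0 ^ 2) := by
      nlinarith [sq_nonneg (p - (v0 - v6)), sq_nonneg ((p - v6) - v0)]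
    have := mul_le_mul_of_nonneg_left this hκ
    linarith
  nlinarith

/-- the tilt and the vertical offset -/
lemma Pkg.delta (H : Pkg p κ τ S0 S1 v0 y0 v6 y6 ts g h) :
    y0 - y6 ≤ κ * (v0 - v6) + (g (1 / 2 + v0) + h (1 / 2 + v6)) := by
  linarith [H.x0c, H.x6c]

lemma Pkg.kappaN (H : Pkg p κ τ S0 S1 v0 y0 v6 y6 ts g h)
    (hg6 : g v6 ≤ 0) (hh0 : h (1 + v0) ≤ 0) :
    κ ≤ 2 * cc + (g (1 / 2 + v0) + h (1 / 2 + v6)) := by
  linarith [H.x0c, H.x6c, H.x6a, H.x0b]

/-- quadrilateral bound -/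
lemma Pkg.quad (H : Pkg p κ τ S0 S1 v0 y0 v6 y6 ts g h) (hκ : 0 ≤ κ) :
    (1 + p) * (1 + κ * (1 - 2 * cc - p)) / 2 ≤ ∫ y in (0:ℝ)..(1 + p), (1 + g y + h y) := by
  have hp := H.hp
  have hp1 := H.hp1
  have hc := cc_gt
  have hc2 := cc_lt
  have s0 := H.hS0
  have s0' := H.hS0'
  have s1 := H.hS1
  have s1' := H.hS1'
  rw [H.int_TB le_rfl (by linarith) le_rfl]
  have g1 := H.gS S1 ⟨by linarith, le_rfl⟩
  have h0 := H.hS S0 ⟨le_rfl, by linarith⟩
  have i1 := trap2 H.hT (a := 0) (b := S1) (c := 1 + p) (u := ts) (v := 1 + (κ * S1 + τ)) (w := ts)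
    le_rfl (by linarith) s1' le_rfl (by have := H.tT0; simp only [mul_zero]; linarith) (by linarith) H.tT1
  have i2 := trap2 H.hB (a := 0) (b := S0) (c := 1 + p) (u := -ts) (v := -(κ * S0 + τ)) (w := -ts)
    le_rfl s0 (by linarith) le_rfl (by have := H.tB0; simp only [mul_zero]; linarith) (by linarith)
    (by have := H.tB1; linarith)
  have key : κ * (1 - 2 * cc - p) ≤ κ * (S1 - S0) := mul_le_mul_of_nonneg_left (by linarith) hκ
  have key2 := mul_le_mul_of_nonneg_left key (by linarith : 0 ≤ 1 + p)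
  nlinarith

lemma Pkg.split (H : Pkg p κ τ S0 S1 v0 y0 v6 y6 ts g h) :
    ∫ y in (0:ℝ)..(1 + p), (1 + g y + h y) = (∫ y in (0:ℝ)..p, (1 + g y + h y)) +
      (∫ y in p..1, (1 + g y + h y)) + ∫ y in (1:ℝ)..(1 + p), (1 + g y + h y) := by
  have hp := H.hp
  have hp1 := H.hp1
  rw [intervalIntegral.integral_add_adjacent_intervals (H.iiV le_rfl hp (by linarith))
    (H.iiV hp (by linarith) (by linarith)),
    intervalIntegral.integral_add_adjacent_intervals (H.iiV le_rfl (by linarith) (by linarith))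
    (H.iiV (by linarith) (by linarith) le_rfl)]

lemma Pkg.split' (H : Pkg p κ τ S0 S1 v0 y0 v6 y6 ts g h) :
    ∫ y in (0:ℝ)..(1 + p), (1 + g y + h y) = (∫ y in (0:ℝ)..(cc + p), (1 + g y + h y)) +
      (∫ y in (cc + p)..1, (1 + g y + h y)) + ∫ y in (1:ℝ)..(1 + p), (1 + g y + h y) := by
  have hp := H.hp
  have hp1 := H.hp1
  have hc := cc_gt
  have hc2 := cc_lt
  rw [intervalIntegral.integral_add_adjacent_intervals (H.iiV le_rfl (by linarith) (by linarith))
    (H.iiV (by linarith) (by linarith) (by linarith)),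
    intervalIntegral.integral_add_adjacent_intervals (H.iiV le_rfl (by linarith) (by linarith))
    (H.iiV (by linarith) (by linarith) le_rfl)]

lemma Pkg.g0pos (H : Pkg p κ τ S0 S1 v0 y0 v6 y6 ts g h) :
    0 ≤ g (1 / 2 + v0) + h (1 / 2 + v6) := by
  have hp := H.hp
  have hp1 := H.hp1
  have hc := cc_gt
  have hc2 := cc_lt
  have h1 := H.gpos (x := 1 / 2 + v0) (by linarith [H.hv0.1]) (by linarith [H.hv0.2])
  have h2 := H.gpos (x := 1 / 2 + v6) (by linarith [H.hv6.1]) (by linarith [H.hv6.2])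
  linarith [h1.1, h2.2]

/-- abnormal case -/
lemma Pkg.abn (H : Pkg p κ τ S0 S1 v0 y0 v6 y6 ts g h) (hκ : 0 ≤ κ) (hΔ : v6 ≤ v0)
    (hg6 : 0 < g v6) : A0 ≤ ∫ y in (0:ℝ)..(1 + p), (1 + g y + h y) := by
  by_contra hcon
  push Not at hcon
  have hp := H.hp
  have hp1 := H.hp1
  have hc := cc_gt
  have hc2 := cc_lt
  have hA := A0_lt
  obtain ⟨a1, a2⟩ := H.hv0
  obtain ⟨b1, b2⟩ := H.hv6
  have s0 := H.hS0
  have s0' := H.hS0'
  have s1 := H.hS1
  have s1' := H.hS1'
  have hS6 : S0 ≤ v6 := by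
    by_contra hc
    push Not at hc
    rcases H.eS0 with e | e
    · linarith
    · have h01 : S0 < S1 := by linarith
      have := mono_left H.hg h01 H.hS1' e.1 (H.gS _ ⟨h01.le, le_rfl⟩) b1 hc.le le_rfl
      rw [e.1] at this
      linarith
  -- kappa bound
  have hquad := H.quad hκ
  have hκ2 : κ ≤ 1.65 := by
    have h1 : (1 + p) * (1 + κ * (1 - 2 * cc - p)) < 2 * A0 := by linarith
    have h2 : 0 ≤ κ * (1 - 2 * cc - p) := mul_nonneg hκ (by linarith)
    have h3 : 1 + κ * (1 - 2 * cc - p) ≤ (1 + p) * (1 + κ * (1 - 2 * cc - p)) := by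
      nlinarith [mul_nonneg hp (by linarith : 0 ≤ 1 + κ * (1 - 2 * cc - p))]
    by_contra hc
    push Not at hc
    have h4 : 1.65 * 0.5915 ≤ κ * (1 - 2 * cc - p) := by
      apply mul_le_mul hc.le (by linarith) (by norm_num) hκ
    linarith
  -- left part
  have hV6 : 1 ≤ 1 + g v6 + h v6 := by
    have := H.hS v6 ⟨hS6, by linarith⟩; linarith
  have hVc : 1 ≤ 1 + g (cc + p) + h (cc + p) := by
    have := H.gpos (x := cc + p) le_rfl (by linarith); linarith [this.1, this.2]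
  have L := trap2 H.hV (a := 0) (b := v6) (c := cc + p) (u := 0) (v := 1) (w := 1) le_rfl b1
    (by linarith) (by linarith) H.hV0 hV6 hVc
  have M := H.innerR
  -- right part
  have T1 := H.x6a
  have T2 := H.x6b
  have B1 := H.x0a
  have B2 := H.x0b
  have hT1 := conc_min H.hT (t := 1 - cc + y6) (a := v6) (b := 1 + v6) (x := 1) b1 (by linarith) (by linarith) (by linarith) T1 T2
  have i2 := trap2 H.hT (a := 1) (b := 1 + v6) (c := 1 + p) (u := 1 - cc + y6) (v := 1 - cc + y6) (w := ts)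
    (by norm_num) (by linarith) (by linarith) le_rfl hT1 T2 H.tT1
  have R : (1 - 2 * cc + y6 - y0) * (p + v6) / 2 ≤ ∫ y in (1:ℝ)..(1 + p), (1 + g y + h y) := by
    rw [H.int_TB (by norm_num) (by linarith) le_rfl]
    rcases le_total (cc + y0) ts with ht | ht
    · have hB1 := conc_min H.hB (t := -(cc + y0)) (a := v0) (b := 1 + v0) (x := 1) a1 (by linarith) (by linarith) (by linarith) (by linarith) (by linarith)
      have i4 := trap2 H.hB (a := 1) (b := 1 + v0) (c := 1 + p) (u := -(cc + y0)) (v := -(cc + y0)) (w := -ts)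
        (by norm_num) (by linarith) (by linarith) le_rfl hB1 (by linarith) (by have := H.tB1; linarith)
      nlinarith [mul_nonneg (sub_nonneg.2 ht) (sub_nonneg.2 hΔ)]
    · have hB1 := conc_min H.hB (t := -ts) (a := 0) (b := 1 + p) (x := 1) le_rfl (by linarith) (by linarith) (by linarith) (by have := H.tB0; simp only [mul_zero]; linarith) (by have := H.tB1; linarith)
      have i4 := trap' H.hB (a := 1) (b := 1 + p) (u := -ts) (v := -ts)
        (by norm_num) (by linarith) le_rfl hB1 (by have := H.tB1; linarith)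
      nlinarith [mul_nonneg (sub_nonneg.2 ht) (by linarith : 0 ≤ p + v6)]
  have hsp := H.split'
  have hd := H.delta
  have hg0 := H.g0pos
  set G := g (1 / 2 + v0) + h (1 / 2 + v6) with hG
  have hAe := A0_eq
  have hC1 := C1_lt
  have hccs : cc = 1 - Real.sqrt 3 / 2 := rfl
  have hd2 : y0 - y6 ≤ 1.65 * p + G := by
    have h1 : κ * (v0 - v6) ≤ 1.65 * p := by
      apply mul_le_mul hκ2 (by linarith) (by linarith) (by norm_num)
    linarith
  -- final
  have hfin : (y0 - y6) * (p + v6) / 2 ≤ (1.65 * p + G) * p := by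
    have h1 : (y0 - y6) * (p + v6) ≤ (1.65 * p + G) * (p + v6) :=
      mul_le_mul_of_nonneg_right hd2 (by linarith)
    have h2 : (1.65 * p + G) * (p + v6) ≤ (1.65 * p + G) * (2 * p) :=
      mul_le_mul_of_nonneg_left (by linarith) (by linarith)
    linarith
  have hq : 0 ≤ 0.00614 + 0.232 * p - 1.65 * p ^ 2 := by nlinarith
  have hq2 : 0 ≤ (0.16 - p) * G := mul_nonneg (by linarith) hg0
  have hq3 : 0 ≤ (1 - (1 - 2 * cc)) * (p - v6) := mul_nonneg (by linarith) (by linarith)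
  nlinarith

end Pool.Agent.H77.Cov
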