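import Mathlib
import Pool.Agent.H77.Cov.Outer

set_option autoImplicit false
open MeasureTheory Set

namespace Pool.Agent.H77.Cov

variable {p κ τ S0 S1 v0 y0 v6 y6 ts : ℝ} {g h : ℝ → ℝ}

lemma num_normal {d G : ℝ} (hp : 0 ≤ p) (hp1 : p ≤ 0.1405) (hG : 0 ≤ G)
    (h1 : d ≤ 2 * cc * p + (1 + p) * G)
    (hδ : 0.1 ≤ p → (1 + p) * (0.9 - 0.4 * cc + 0.1 * d) ≤ A0) :
    0 ≤ 0.098 * p - 0.5 * p * d + (0.16 - p) * G := by
  have hc := cc_gt
  have hc2 := cc_lt
  have hA := A0_lt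
  rcases le_total p 0.1 with hp2 | hp2
  · have h2 := mul_le_mul_of_nonneg_left h1 hp
    have h3 : 0 ≤ 0.16 - 1.5 * p - 0.5 * p ^ 2 := by nlinarith
    have h4 := mul_nonneg h3 hG
    have h5 : cc * p ^ 2 ≤ 0.014 * p := by nlinarith
    nlinarith
  · have hδ' := hδ hp2
    rcases le_total d (2 * cc * p) with hd | hd
    · have h2 := mul_le_mul_of_nonneg_left hd hp
      have h3 : 0 ≤ (0.16 - p) * G := mul_nonneg (by linarith) hG
      have h5 : cc * p ^ 2 ≤ 0.02 * p := by nlinarith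
      nlinarith
    · have hu : 0 < 1 + p := by linarith
      have h6 : (1 + p) * d ≤ 1.412908 - 8.464101 * p := by nlinarith
      -- multiply by (1+p)
      have h7 : (0.16 - p) * (d - 2 * cc * p) ≤ (0.16 - p) * ((1 + p) * G) :=
        mul_le_mul_of_nonneg_left (by linarith) (by linarith)
      have h8 : 0 ≤ 0.098 * p * (1 + p) - 0.5 * p * (1 + p) * d + (0.16 - p) * (d - 2 * cc * p) := by
        rcases le_total 0 (0.16 - 1.5 * p - 0.5 * p ^ 2) with hs | hs
        · have h9 : (0.16 - 1.5 * p - 0.5 * p ^ 2) * (2 * cc * p) ≤ (0.16 - 1.5 * p - 0.5 * p ^ 2) * d :=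
            mul_le_mul_of_nonneg_left hd hs
          have h10 : 0 ≤ p * (1 + p) * (0.098 - cc * p) := by
            apply mul_nonneg (by positivity); nlinarith
          nlinarith
        · have h9 : (0.16 - 1.5 * p - 0.5 * p ^ 2) * (1.412908 - 8.464101 * p) ≤
              (0.16 - 1.5 * p - 0.5 * p ^ 2) * ((1 + p) * d) :=
            mul_le_mul_of_nonpos_left h6 hs
          have h10 : (0.16 - p) * (2 * cc * p) * (1 + p) ≤ (0.16 - p) * (0.2679492 * p) * (1 + p) := by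
            apply mul_le_mul_of_nonneg_right _ hu.le
            apply mul_le_mul_of_nonneg_left _ (by linarith)
            nlinarith
          have h11 : 0 ≤ 0.098 * p * (1 + p) ^ 2 + (0.16 - 1.5 * p - 0.5 * p ^ 2) * (1.412908 - 8.464101 * p)
              - (0.16 - p) * (0.2679492 * p) * (1 + p) := by
            nlinarith [mul_nonneg hp (sq_nonneg (p - 0.1285)), sq_nonneg (p - 0.1285)]
          have h12 : 0 ≤ (1 + p) * (0.098 * p * (1 + p) - 0.5 * p * (1 + p) * d + (0.16 - p) * (d - 2 * cc * p)) := by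
            nlinarith
          exact nonneg_of_mul_nonneg_right h12 hu
      have h13 : 0 ≤ (1 + p) * (0.098 * p - 0.5 * p * d + (0.16 - p) * G) := by nlinarith
      exact nonneg_of_mul_nonneg_right h13 hu

lemma num_simple {d G : ℝ} (hp : 0 ≤ p) (hp1 : p ≤ 0.1405) (hG : 0 ≤ G)
    (h1 : d ≤ G)
    (hδ : 0.1 ≤ p → (1 + p) * (0.9 - 0.4 * cc + 0.1 * d) ≤ A0) :
    0 ≤ 0.098 * p - 1.5 * p * d + 0.16 * G := by
  have hc := cc_gt
  have hc2 := cc_lt
  have hA := A0_lt
  rcases le_total p 0.1 with hp2 | hp2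
  · have h2 := mul_le_mul_of_nonneg_left h1 hp
    nlinarith
  · have hδ' := hδ hp2
    have hu : 0 < 1 + p := by linarith
    have h6 : (1 + p) * d ≤ 1.412908 - 8.464101 * p := by nlinarith
    rcases le_total d 0 with hd | hd
    · nlinarith
    · have h13 : 0 ≤ (1 + p) * (0.098 * p - 1.5 * p * d + 0.16 * d) := by
        rcases le_total (1.5 * p) 0.16 with hs | hs
        · have : 0 ≤ (0.16 - 1.5 * p) * d := mul_nonneg (by linarith) hd
          nlinarith
        · have h9 : (1.5 * p - 0.16) * ((1 + p) * d) ≤ (1.5 * p - 0.16) * (1.412908 - 8.464101 * p) :=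
            mul_le_mul_of_nonneg_left h6 (by linarith)
          nlinarith
      have := nonneg_of_mul_nonneg_right h13 hu
      linarith

lemma Pkg.normal (H : Pkg p κ τ S0 S1 v0 y0 v6 y6 ts g h) (hκ : 0 ≤ κ) (hΔ : v6 ≤ v0)
    (hg6 : g v6 ≤ 0) (hh0 : h (1 + v0) ≤ 0)
    (hδ : 0.1 ≤ p → (1 + p) * (0.9 - 0.4 * cc + 0.1 * (y0 - y6)) ≤ A0) :
    A0 ≤ ∫ y in (0:ℝ)..(1 + p), (1 + g y + h y) := by
  have hp := H.hp
  have hp1 := H.hp1
  have hc := cc_gt
  have hc2 := cc_lt
  obtain ⟨a1, a2⟩ := H.hv0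
  obtain ⟨b1, b2⟩ := H.hv6
  have hG := H.g0pos
  have hd := H.delta
  have hk := H.kappaN hg6 hh0
  have ho := H.outerN hκ hΔ hg6 hh0
  have hi := H.inner
  rw [H.split]
  set G := g (1 / 2 + v0) + h (1 / 2 + v6) with hGd
  have h1 : κ * (v0 - v6) ≤ (2 * cc + G) * p := by
    apply mul_le_mul hk (by linarith) (by linarith) (by linarith)
  have h2 := num_normal (p := p) (d := y0 - y6) (G := G) hp hp1 hG (by linarith) hδ
  have h3 : p * (y0 - y6 - G) ≤ p * (κ * (v0 - v6)) := mul_le_mul_of_nonneg_left (by linarith) hp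
  have h4 : p * 1.0980 ≤ p * (1.5 * (1 - 2 * cc)) := mul_le_mul_of_nonneg_left (by linarith) hp
  linarith

lemma Pkg.simple (H : Pkg p κ τ S0 S1 v0 y0 v6 y6 ts g h) (hκ : κ * (v0 - v6) ≤ 0)
    (hδ : 0.1 ≤ p → (1 + p) * (0.9 - 0.4 * cc + 0.1 * (y0 - y6)) ≤ A0) :
    A0 ≤ ∫ y in (0:ℝ)..(1 + p), (1 + g y + h y) := by
  have hp := H.hp
  have hp1 := H.hp1
  have hc := cc_gt
  have hc2 := cc_lt
  have hG := H.g0pos
  have hd := H.delta
  have ho := H.outer
  have hi := H.inner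
  rw [H.split]
  set G := g (1 / 2 + v0) + h (1 / 2 + v6) with hGd
  have h2 := num_simple (p := p) (d := y0 - y6) (G := G) hp hp1 hG (by linarith) hδ
  have h4 : p * 1.0980 ≤ p * (1.5 * (1 - 2 * cc)) := mul_le_mul_of_nonneg_left (by linarith) hp
  linarith

lemma Pkg.pos (H : Pkg p κ τ S0 S1 v0 y0 v6 y6 ts g h) (hκ : 0 ≤ κ) (hΔ : v6 ≤ v0)
    (hδ : 0.1 ≤ p → (1 + p) * (0.9 - 0.4 * cc + 0.1 * (y0 - y6)) ≤ A0) :
    A0 ≤ ∫ y in (0:ℝ)..(1 + p), (1 + g y + h y) := by
  rcases lt_or_ge 0 (g v6) with h1 | h1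
  · exact H.abn hκ hΔ h1
  rcases lt_or_ge 0 (h (1 + v0)) with h2 | h2
  · have := H.flipV.flipH.abn (by linarith) (by linarith)
      (by simp only [show 1 + p - (p - v0) = 1 + v0 by ring]; exact h2)
    have e := intervalIntegral.integral_comp_sub_left (a := 0) (b := 1 + p) (fun y => 1 + h y + g y) (1 + p)
    simp only [sub_self, sub_zero] at e
    rw [e] at this
    have e2 : (fun y => 1 + h y + g y) = fun y => 1 + g y + h y := by ext y; ring
    rw [e2] at this
    exact this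
  · exact H.normal hκ hΔ h1 h2 hδ

/-- The main analytic inequality. -/
lemma Pkg.main (H : Pkg p κ τ S0 S1 v0 y0 v6 y6 ts g h)
    (hδ : 0.1 ≤ p → (1 + p) * (0.9 - 0.4 * cc + 0.1 * (y0 - y6)) ≤ A0) :
    A0 ≤ ∫ y in (0:ℝ)..(1 + p), (1 + g y + h y) := by
  rcases le_total 0 κ with hκ | hκ
  · rcases le_total v6 v0 with hv | hv
    · exact H.pos hκ hv hδ
    · exact H.simple (mul_nonpos_of_nonneg_of_nonpos hκ (by linarith)) hδ
  · rcases le_total v0 v6 with hv | hv
    · have := H.flipH.pos (by linarith) (by linarith) hδ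
      have e := intervalIntegral.integral_comp_sub_left (a := 0) (b := 1 + p) (fun y => 1 + g y + h y) (1 + p)
      simp only [sub_self, sub_zero] at e
      rw [e] at this
      exact this
    · exact H.simple (mul_nonpos_of_nonpos_of_nonneg hκ (by linarith)) hδ

end Pool.Agent.H77.Cov
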