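import Mathlib
import Pool.Agent.H77.Cov.Final

set_option autoImplicit false
open MeasureTheory Set

namespace Pool.Agent.H77.Cov

/-- squared distance -/
def sd (x1 y1 x2 y2 : ℝ) : ℝ := (x1 - x2) ^ 2 + (y1 - y2) ^ 2

/-- `K` contains a translate of every 5-point set of diameter one -/
def Cov5 (K : Set (ℝ × ℝ)) : Prop := ∀ x1 y1 x2 y2 x3 y3 x4 y4 x5 y5 : ℝ,
  sd x1 y1 x2 y2 = 1 → sd x1 y1 x3 y3 ≤ 1 → sd x1 y1 x4 y4 ≤ 1 → sd x1 y1 x5 y5 ≤ 1 →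
  sd x2 y2 x3 y3 ≤ 1 → sd x2 y2 x4 y4 ≤ 1 → sd x2 y2 x5 y5 ≤ 1 →
  sd x3 y3 x4 y4 ≤ 1 → sd x3 y3 x5 y5 ≤ 1 → sd x4 y4 x5 y5 ≤ 1 →
  ∃ v t : ℝ, (x1 + v, y1 + t) ∈ K ∧ (x2 + v, y2 + t) ∈ K ∧ (x3 + v, y3 + t) ∈ K ∧
    (x4 + v, y4 + t) ∈ K ∧ (x5 + v, y5 + t) ∈ K

lemma cfg {K : Set (ℝ × ℝ)} (hK : Cov5 K) {x : ℝ} (hx : x ∈ Icc 0 cc) (fx fy : ℝ → ℝ)
    (hfx : ∀ u w, (fx u - fx w) ^ 2 = (u - w) ^ 2) (hfy : ∀ u w, (fy u - fy w) ^ 2 = (u - w) ^ 2) :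
    ∃ v t : ℝ, (fx 0 + v, fy (af x) + t) ∈ K ∧ (fx 1 + v, fy (af x) + t) ∈ K ∧
      (fx (bf x) + v, fy 0 + t) ∈ K ∧ (fx (bf x) + v, fy 1 + t) ∈ K ∧
      (fx x + v, fy (1 - sps x) + t) ∈ K := by
  have hs2 := sf_sq hx
  have hs0 := sf_nonneg x
  have hs1 := sf_le hx
  have hk := one_sub_ge hx
  have hb := bf_mem hx
  have hr := s3_sq
  have hr1 := s3_gt
  have hr2 := s3_lt
  have e1 : (1 - bf x) ^ 2 + (1 - af x) ^ 2 = 1 := by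
    unfold bf af
    linear_combination hs2 + (sf x ^ 2 / 4 + (1 - x) ^ 2 / 4) * hr
  have e2 : cps x ^ 2 + sps x ^ 2 = 1 := by
    unfold cps sps
    linear_combination hs2 + (sf x ^ 2 / 4 + (1 - x) ^ 2 / 4) * hr
  have ha : 1 / 2 ≤ 1 - af x := by
    unfold af; nlinarith
  have hps : 1 / 2 ≤ sps x := by
    unfold sps; nlinarith
  have hae : af x - (1 - sps x) = sf x := by unfold af sps; ring
  have hab : 1 ≤ (1 - bf x) + (1 - af x) := by linarith [hb.2]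
  apply hK <;> unfold sd <;> rw [hfx, hfy]
  · ring
  · nlinarith
  · nlinarith [hb.2]
  · rw [hae]; nlinarith
  · nlinarith
  · nlinarith
  · rw [hae]; nlinarith
  · norm_num
  · rw [bf_sub]; nlinarith
  · rw [bf_sub]; nlinarith

lemma sf_zero : sf 0 = 0 := by unfold sf; simp
lemma af_zero : af 0 = cc := by unfold af cc; rw [sf_zero]; ring
lemma bf_zero : bf 0 = 1 / 2 := by unfold bf; rw [sf_zero]; ring
lemma sps_zero : sps 0 = 1 - cc := by unfold sps cc; rw [sf_zero]; ring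

end Pool.Agent.H77.Cov
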