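import Mathlib
import Pool.Agent.H77.Cov.Cfg

set_option autoImplicit false
open MeasureTheory Set

namespace Pool.Agent.H77.Cov

/-- upper boundary -/
noncomputable def Tf (K : Set (ℝ × ℝ)) (x : ℝ) : ℝ := sSup (Prod.mk x ⁻¹' K)
/-- lower boundary -/
noncomputable def Bf (K : Set (ℝ × ℝ)) (x : ℝ) : ℝ := sInf (Prod.mk x ⁻¹' K)

variable {K : Set (ℝ × ℝ)} {L ts : ℝ}

lemma slice_compact (hK : IsCompact K) (x : ℝ) : IsCompact (Prod.mk x ⁻¹' K) :=
  (hK.image continuous_snd).of_isClosed_subset (hK.isClosed.preimage (by fun_prop))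
    (fun y hy => ⟨(x, y), hy, rfl⟩)

lemma le_Tf (hK : IsCompact K) {x y : ℝ} (h : (x, y) ∈ K) : y ≤ Tf K x :=
  le_csSup (slice_compact hK x).bddAbove h

lemma Bf_le (hK : IsCompact K) {x y : ℝ} (h : (x, y) ∈ K) : Bf K x ≤ y :=
  csInf_le (slice_compact hK x).bddBelow h

lemma Tf_mem (hK : IsCompact K) {x y : ℝ} (h : (x, y) ∈ K) : (x, Tf K x) ∈ K :=
  (slice_compact hK x).sSup_mem ⟨y, h⟩

lemma Bf_mem (hK : IsCompact K) {x y : ℝ} (h : (x, y) ∈ K) : (x, Bf K x) ∈ K :=
  (slice_compact hK x).sInf_mem ⟨y, h⟩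

/-- A compact convex set in a vertical strip containing a horizontal chord across it -/
structure Strip (K : Set (ℝ × ℝ)) (L ts : ℝ) : Prop where
  hL : 0 ≤ L
  comp : IsCompact K
  conv : Convex ℝ K
  strip : ∀ z ∈ K, 0 ≤ z.1 ∧ z.1 ≤ L
  left : ((0 : ℝ), ts) ∈ K
  right : (L, ts) ∈ K

lemma conv_comb (hK : Convex ℝ K) {x1 y1 x2 y2 a b : ℝ} (h1 : (x1, y1) ∈ K) (h2 : (x2, y2) ∈ K)
    (ha : 0 ≤ a) (hb : 0 ≤ b) (hab : a + b = 1) : (a * x1 + b * x2, a * y1 + b * y2) ∈ K := by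
  have := hK h1 h2 ha hb hab
  simpa using this

lemma Strip.mid (H : Strip K L ts) {x : ℝ} (hx : x ∈ Icc 0 L) : (x, ts) ∈ K := by
  rcases eq_or_lt_of_le H.hL with h | h
  · have : x = 0 := by linarith [hx.1, hx.2]
    rw [this]; exact H.left
  · have := conv_comb H.conv H.left H.right (a := 1 - x / L) (b := x / L)
      (by rw [sub_nonneg, div_le_one h]; exact hx.2) (div_nonneg hx.1 h.le) (by ring)
    have e : ((1 - x / L) * 0 + x / L * L, (1 - x / L) * ts + x / L * ts) = (x, ts) := by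
      ext
      · simp; field_simp
      · simp; ring
    rwa [e] at this

lemma Strip.tmem (H : Strip K L ts) {x : ℝ} (hx : x ∈ Icc 0 L) : (x, Tf K x) ∈ K :=
  Tf_mem H.comp (H.mid hx)
lemma Strip.bmem (H : Strip K L ts) {x : ℝ} (hx : x ∈ Icc 0 L) : (x, Bf K x) ∈ K :=
  Bf_mem H.comp (H.mid hx)

lemma Strip.concT (H : Strip K L ts) : ConcaveOn ℝ (Icc 0 L) (Tf K) := by
  refine ⟨convex_Icc _ _, fun x hx y hy a b ha hb hab => ?_⟩
  simp only [smul_eq_mul]
  exact le_Tf H.comp (conv_comb H.conv (H.tmem hx) (H.tmem hy) ha hb hab)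

lemma Strip.convB (H : Strip K L ts) : ConvexOn ℝ (Icc 0 L) (Bf K) := by
  refine ⟨convex_Icc _ _, fun x hx y hy a b ha hb hab => ?_⟩
  simp only [smul_eq_mul]
  exact Bf_le H.comp (conv_comb H.conv (H.bmem hx) (H.bmem hy) ha hb hab)

lemma Strip.B_le_T (H : Strip K L ts) {x : ℝ} (hx : x ∈ Icc 0 L) : Bf K x ≤ Tf K x :=
  (Bf_le H.comp (H.mid hx)).trans (le_Tf H.comp (H.mid hx))

/-- the vertical slice -/
lemma slice_mem (hc : IsCompact K) (hv : Convex ℝ K) {x y0 y : ℝ} (h0 : (x, y0) ∈ K)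
    (h1 : Bf K x ≤ y) (h2 : y ≤ Tf K x) : (x, y) ∈ K := by
  have hB := Bf_mem hc h0
  have hT := Tf_mem hc h0
  rcases eq_or_lt_of_le (h1.trans h2) with h | h
  · have : y = Bf K x := by linarith
    rw [this]; exact hB
  · have hd : 0 < Tf K x - Bf K x := by linarith
    have := conv_comb hv hB hT (a := (Tf K x - y) / (Tf K x - Bf K x))
      (b := (y - Bf K x) / (Tf K x - Bf K x)) (by apply div_nonneg <;> linarith)
      (by apply div_nonneg <;> linarith) (by field_simp; ring)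
    have e : ((Tf K x - y) / (Tf K x - Bf K x) * x + (y - Bf K x) / (Tf K x - Bf K x) * x,
        (Tf K x - y) / (Tf K x - Bf K x) * Bf K x + (y - Bf K x) / (Tf K x - Bf K x) * Tf K x) = (x, y) := by
      ext
      · simp; field_simp; ring
      · simp; field_simp; ring
    rwa [e] at this

lemma slice_eq (hc : IsCompact K) (hv : Convex ℝ K) {x y0 : ℝ} (h0 : (x, y0) ∈ K) :
    Prod.mk x ⁻¹' K = Icc (Bf K x) (Tf K x) := by
  ext y
  constructor
  · intro h; exact ⟨Bf_le hc h, le_Tf hc h⟩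
  · intro h; exact slice_mem hc hv h0 h.1 h.2

lemma Strip.vol (H : Strip K L ts) :
    volume K = ENNReal.ofReal (∫ x in (0:ℝ)..L, (Tf K x - Bf K x)) := by
  have hm : MeasurableSet K := H.comp.measurableSet
  rw [Measure.volume_eq_prod, Measure.prod_apply hm]
  have h1 : ∫⁻ x, volume (Prod.mk x ⁻¹' K) = ∫⁻ x in Icc 0 L, ENNReal.ofReal (Tf K x - Bf K x) := by
    rw [← lintegral_indicator measurableSet_Icc]
    congr 1
    ext x
    by_cases hx : x ∈ Icc 0 L
    · rw [indicator_of_mem hx, slice_eq H.comp H.conv (H.mid hx), Real.volume_Icc]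
    · rw [indicator_of_notMem hx]
      have : Prod.mk x ⁻¹' K = ∅ := by
        ext y
        simp only [mem_preimage, mem_empty_iff_false, iff_false]
        intro h
        exact hx (H.strip _ h)
      rw [this]; simp
  rw [h1, intervalIntegral.integral_of_le H.hL, ← integral_Icc_eq_integral_Ioc,
    ofReal_integral_eq_lintegral_ofReal]
  · have i1 := conc_intOn H.concT
    have i2 := conc_intOn H.convB.neg
    have := i1.add i2
    refine this.congr ?_
    filter_upwards with x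
    simp only [Pi.add_apply, Pi.neg_apply]
    ring
  · filter_upwards [ae_restrict_mem measurableSet_Icc] with x hx
    simp only [Pi.zero_apply]
    linarith [H.B_le_T hx]

end Pool.Agent.H77.Cov
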