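import Mathlib
import Pool.Agent.H77.Cov.Slice

set_option autoImplicit false
open MeasureTheory Set
open scoped RealInnerProductSpace Pointwise

namespace Pool.Agent.H77.Cov

/-- the Euclidean plane -/
abbrev E2 : Type := EuclideanSpace ℝ (Fin 2)

lemma exists_basis (i : Fin 2) (u : E2) (hu : ‖u‖ = 1) :
    ∃ b : OrthonormalBasis (Fin 2) ℝ E2, b i = u := by
  have hv : Orthonormal ℝ (({i} : Set (Fin 2)).domRestrict (fun _ => u)) := by
    refine ⟨fun j => by simpa using hu, fun j k hjk => ?_⟩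
    exact absurd (Subsingleton.elim j k) hjk
  obtain ⟨b, hb⟩ := hv.exists_orthonormalBasis_extension_of_card_eq (by simp)
  exact ⟨b, hb i rfl⟩

/-- coordinates to plane -/
noncomputable def phi (b : OrthonormalBasis (Fin 2) ℝ E2) (P : E2) (z : ℝ × ℝ) : E2 :=
  P + (z.1 • b 0 + z.2 • b 1)
/-- plane to coordinates -/
noncomputable def psi (b : OrthonormalBasis (Fin 2) ℝ E2) (P : E2) (x : E2) : ℝ × ℝ :=
  (⟪b 0, x - P⟫, ⟪b 1, x - P⟫)

variable (b : OrthonormalBasis (Fin 2) ℝ E2) (P : E2)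

lemma phi_psi (x : E2) : phi b P (psi b P x) = x := by
  unfold phi psi
  have := b.sum_repr' (x - P)
  rw [Fin.sum_univ_two] at this
  simp only [this]
  abel

lemma psi_phi (z : ℝ × ℝ) : psi b P (phi b P z) = z := by
  unfold phi psi
  have h := b.orthonormal
  rw [orthonormal_iff_ite] at h
  simp [inner_add_right, inner_smul_right, h]

lemma phi_cont : Continuous (phi b P) := by unfold phi; fun_prop
lemma psi_cont : Continuous (psi b P) := by unfold psi; fun_prop

lemma phi_mp : MeasurePreserving (phi b P) volume volume := by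
  have h1 : MeasurePreserving (fun z : ℝ × ℝ => MeasurableEquiv.finTwoArrow.symm z)
      (volume : Measure (ℝ × ℝ)) (volume : Measure (Fin 2 → ℝ)) :=
    (volume_preserving_finTwoArrow ℝ).symm
  have h2 := PiLp.volume_preserving_toLp (Fin 2)
  have h3 := b.measurePreserving_repr_symm
  have h4 := measurePreserving_add_left (volume : Measure E2) P
  have h5 := h4.comp (h3.comp (h2.comp h1))
  convert h5 using 1
  ext1 z
  unfold phi
  simp only [Function.comp]
  congr 1
  rw [← b.sum_repr_symm, Fin.sum_univ_two]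
  simp

lemma phi_vol {K : Set E2} (hK : MeasurableSet K) : volume (phi b P ⁻¹' K) = volume K :=
  (phi_mp b P).measure_preimage hK.nullMeasurableSet

lemma phi_pre (K : Set E2) : phi b P ⁻¹' K = psi b P '' K := by
  ext z
  constructor
  · intro h; exact ⟨phi b P z, h, psi_phi b P z⟩
  · rintro ⟨x, hx, rfl⟩; rw [mem_preimage, phi_psi]; exact hx

lemma pre_compact {K : Set E2} (hK : IsCompact K) : IsCompact (phi b P ⁻¹' K) := by
  rw [phi_pre]; exact hK.image (psi_cont b P)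

lemma pre_convex {K : Set E2} (hK : Convex ℝ K) : Convex ℝ (phi b P ⁻¹' K) := by
  intro x hx y hy s t hs ht hst
  have := hK hx hy hs ht hst
  rw [mem_preimage]
  convert this using 1
  unfold phi
  simp only [Prod.fst_add, Prod.smul_fst, Prod.snd_add, Prod.smul_snd, smul_eq_mul]
  have : P = (s + t) • P := by rw [hst, one_smul]
  nth_rewrite 1 [this]
  module

lemma phi_dist (z w : ℝ × ℝ) : ‖phi b P z - phi b P w‖ ^ 2 = (z.1 - w.1) ^ 2 + (z.2 - w.2) ^ 2 := by
  unfold phi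
  have e : P + (z.1 • b 0 + z.2 • b 1) - (P + (w.1 • b 0 + w.2 • b 1)) =
    (z.1 - w.1) • b 0 + (z.2 - w.2) • b 1 := by module
  have h := b.orthonormal
  rw [orthonormal_iff_ite] at h
  rw [e, ← real_inner_self_eq_norm_sq]
  simp only [inner_add_right, inner_add_left, inner_smul_right, inner_smul_left, h,
    conj_trivial]
  norm_num
  ring

/-- vertical extension in coordinates -/
def vext (K : Set (ℝ × ℝ)) (σ : ℝ) : Set (ℝ × ℝ) :=
  (fun q : (ℝ × ℝ) × ℝ => (q.1.1, q.1.2 + q.2 * σ)) '' (K ×ˢ Icc 0 1)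

lemma vext_vol {K : Set (ℝ × ℝ)} (hc : IsCompact K) (hv : Convex ℝ K) {σ ω : ℝ} (hσ : 0 < σ)
    {z w : ℝ × ℝ} (hz : z ∈ K) (hw : w ∈ K) (hzw : ω ≤ w.1 - z.1) (hω : 0 ≤ ω) :
    volume K + ENNReal.ofReal (ω * σ) ≤ volume (vext K σ) := by
  have hc' : IsCompact (vext K σ) := (hc.prod isCompact_Icc).image (by fun_prop)
  rw [Measure.volume_eq_prod, Measure.prod_apply hc.measurableSet, Measure.prod_apply hc'.measurableSet]
  have hle : z.1 ≤ w.1 := by linarith
  have h1 : ∀ x, volume (Prod.mk x ⁻¹' K) + (Icc z.1 w.1).indicator (fun _ => ENNReal.ofReal σ) x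
      ≤ volume (Prod.mk x ⁻¹' (vext K σ)) := by
    intro x
    by_cases hx : x ∈ Icc z.1 w.1
    · rw [indicator_of_mem hx]
      have hne : ∃ y, (x, y) ∈ K := by
        rcases eq_or_lt_of_le hle with h | h
        · refine ⟨z.2, ?_⟩
          have : x = z.1 := by linarith [hx.1, hx.2]
          rw [this]; exact hz
        · have hd : 0 < w.1 - z.1 := by linarith
          have := conv_comb hv (x1 := z.1) (y1 := z.2) (x2 := w.1) (y2 := w.2) hz hw
            (a := (w.1 - x) / (w.1 - z.1)) (b := (x - z.1) / (w.1 - z.1))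
            (by apply div_nonneg <;> linarith [hx.2]) (by apply div_nonneg <;> linarith [hx.1])
            (by field_simp; ring)
          have e : (w.1 - x) / (w.1 - z.1) * z.1 + (x - z.1) / (w.1 - z.1) * w.1 = x := by
            field_simp; ring
          rw [e] at this
          exact ⟨_, this⟩
      obtain ⟨y0, hy0⟩ := hne
      rw [slice_eq hc hv hy0, Real.volume_Icc, ← ENNReal.ofReal_add _ hσ.le]
      · have hsub : Icc (Bf K x) (Tf K x + σ) ⊆ Prod.mk x ⁻¹' (vext K σ) := by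
          intro y hy
          rcases le_total y (Tf K x) with h | h
          · refine ⟨((x, y), 0), ⟨slice_mem hc hv hy0 hy.1 h, by simp⟩, by simp⟩
          · refine ⟨((x, Tf K x), (y - Tf K x) / σ), ⟨Tf_mem hc hy0, ?_⟩, ?_⟩
            · constructor
              · exact div_nonneg (by linarith) hσ.le
              · rw [div_le_one hσ]; linarith [hy.2]
            · simp only [Prod.mk.injEq, true_and]
              field_simp
              ring
        refine le_trans (le_of_eq ?_) (measure_mono hsub)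
        rw [Real.volume_Icc]
        congr 1; ring
      · linarith [Bf_le hc hy0, le_Tf hc hy0]
    · rw [indicator_of_notMem hx, add_zero]
      apply measure_mono
      intro y hy
      exact ⟨((x, y), 0), ⟨hy, by simp⟩, by simp⟩
  have h2 := lintegral_mono (μ := (volume : Measure ℝ)) h1
  rw [lintegral_add_right _ (by measurability), lintegral_indicator measurableSet_Icc,
    lintegral_const, Measure.restrict_apply MeasurableSet.univ, univ_inter, Real.volume_Icc] at h2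
  refine le_trans ?_ h2
  gcongr
  rw [← ENNReal.ofReal_mul hσ.le]
  apply ENNReal.ofReal_le_ofReal
  nlinarith

/-- Minkowski sum with a segment -/
def sm (K : Set E2) (s : E2) : Set E2 := (fun q : E2 × ℝ => q.1 + q.2 • s) '' (K ×ˢ Icc 0 1)

/-- all widths at least `ω` -/
def Wid (K : Set E2) (ω : ℝ) : Prop := ∀ u : E2, ‖u‖ = 1 → ∃ x ∈ K, ∃ y ∈ K, ω ≤ ⟪u, x - y⟫

lemma sub_sm (K : Set E2) (s : E2) : K ⊆ sm K s := fun x hx => ⟨(x, 0), ⟨hx, by simp⟩, by simp⟩

lemma sm_compact {K : Set E2} (hK : IsCompact K) (s : E2) : IsCompact (sm K s) :=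
  (hK.prod isCompact_Icc).image (by fun_prop)

lemma sm_convex {K : Set E2} (hK : Convex ℝ K) (s : E2) : Convex ℝ (sm K s) := by
  rintro _ ⟨⟨x, t⟩, ⟨hx, ht⟩, rfl⟩ _ ⟨⟨y, r⟩, ⟨hy, hr⟩, rfl⟩ α β hα hβ hαβ
  refine ⟨(α • x + β • y, α * t + β * r), ⟨hK hx hy hα hβ hαβ, ?_⟩, ?_⟩
  · exact (convex_Icc (0:ℝ) 1) ht hr hα hβ hαβ
  · simp only
    module

lemma Wid.mono {K L : Set E2} {ω : ℝ} (h : Wid K ω) (hKL : K ⊆ L) : Wid L ω := by
  intro u hu
  obtain ⟨x, hx, y, hy, hxy⟩ := h u hu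
  exact ⟨x, hKL hx, y, hKL hy, hxy⟩

lemma sm_vol {K : Set E2} (hc : IsCompact K) (hv : Convex ℝ K) {ω : ℝ} (hω : 0 ≤ ω)
    (hW : Wid K ω) (s : E2) : volume K + ENNReal.ofReal (ω * ‖s‖) ≤ volume (sm K s) := by
  rcases eq_or_ne s 0 with rfl | hs
  · simp only [norm_zero, mul_zero, ENNReal.ofReal_zero, add_zero]
    exact measure_mono (sub_sm K 0)
  · have hn : 0 < ‖s‖ := norm_pos_iff.2 hs
    obtain ⟨b, hb⟩ := exists_basis 1 (‖s‖⁻¹ • s) (by rw [norm_smul, norm_inv, norm_norm]; field_simp)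
    have hs' : ‖s‖ • b 1 = s := by rw [hb, smul_smul, mul_inv_cancel₀ hn.ne', one_smul]
    obtain ⟨x, hx, y, hy, hxy⟩ := hW (b 0) (b.orthonormal.1 0)
    rw [← phi_vol b 0 hc.measurableSet, ← phi_vol b 0 (sm_compact hc s).measurableSet]
    have hx' : psi b 0 x ∈ phi b 0 ⁻¹' K := by rw [phi_pre]; exact ⟨x, hx, rfl⟩
    have hy' : psi b 0 y ∈ phi b 0 ⁻¹' K := by rw [phi_pre]; exact ⟨y, hy, rfl⟩
    have h := vext_vol (pre_compact b 0 hc) (pre_convex b 0 hv) hn hy' hx' (ω := ω)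
      (by unfold psi; simp only [sub_zero]; rw [← inner_sub_right]; exact hxy) hω
    refine le_trans h (measure_mono ?_)
    rintro _ ⟨⟨z, t⟩, ⟨hz, ht⟩, rfl⟩
    refine ⟨(phi b 0 z, t), ⟨hz, ht⟩, ?_⟩
    simp only
    unfold phi
    have e : t • s = (t * ‖s‖) • b 1 := by rw [mul_smul, hs']
    rw [e]
    simp only
    module

/-- mixed area inequality for zonotopes -/
theorem mixed {K : Set E2} (hc : IsCompact K) (hv : Convex ℝ K) {ω : ℝ} (hω : 0 ≤ ω)
    (hW : Wid K ω) (o s1 s2 s3 : E2) (h000 : o ∈ K) (h100 : o + s1 ∈ K) (h010 : o + s2 ∈ K)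
    (h001 : o + s3 ∈ K) (h110 : o + s1 + s2 ∈ K) (h101 : o + s1 + s3 ∈ K) (h011 : o + s2 + s3 ∈ K)
    (h111 : o + s1 + s2 + s3 ∈ K) :
    ω * (‖s1‖ + ‖s2‖ + ‖s3‖) ≤ 2 * (volume K).toReal := by
  have hfin : volume K ≠ ⊤ := hc.measure_lt_top.ne
  -- trilinear interpolation
  have lin : ∀ (q s : E2) (t : ℝ), q ∈ K → q + s ∈ K → 0 ≤ t → t ≤ 1 → q + t • s ∈ K := by
    intro q s t h0 h1 ht0 ht1
    have := hv h0 h1 (sub_nonneg.2 ht1) ht0 (by ring)
    convert this using 1
    module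
  have tri : ∀ t1 t2 t3 : ℝ, 0 ≤ t1 → t1 ≤ 1 → 0 ≤ t2 → t2 ≤ 1 → 0 ≤ t3 → t3 ≤ 1 →
      o + t1 • s1 + t2 • s2 + t3 • s3 ∈ K := by
    intro t1 t2 t3 a1 b1 a2 b2 a3 b3
    have c00 := lin o s1 t1 h000 h100 a1 b1
    have c10 := lin (o + s2) s1 t1 h010 (by convert h110 using 1; abel) a1 b1
    have c01 := lin (o + s3) s1 t1 h001 (by convert h101 using 1; abel) a1 b1
    have c11 := lin (o + s2 + s3) s1 t1 h011 (by convert h111 using 1; abel) a1 b1
    have d0 := lin (o + t1 • s1) s2 t2 c00 (by convert c10 using 1; abel) a2 b2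
    have d1 := lin (o + t1 • s1 + s3) s2 t2 (by convert c01 using 1; abel)
      (by convert c11 using 1; abel) a2 b2
    exact lin _ s3 t3 d0 (by convert d1 using 1; abel) a3 b3
  set A := (volume K).toReal with hA
  have hA0 : 0 ≤ A := ENNReal.toReal_nonneg
  have main : ∀ ε : ℝ, 0 < ε → ω * (‖s1‖ + ‖s2‖ + ‖s3‖) ≤ (2 + ε) * A := by
    intro ε hε
    set K1 := sm K (ε • s1) with hK1
    set K2 := sm K1 (ε • s2) with hK2
    set K3 := sm K2 (ε • s3) with hK3
    have c1 := sm_compact hc (ε • s1)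
    have c2 := sm_compact c1 (ε • s2)
    have v1 := sm_convex hv (ε • s1)
    have v2 := sm_convex v1 (ε • s2)
    have w1 := hW.mono (sub_sm K (ε • s1))
    have w2 := w1.mono (sub_sm K1 (ε • s2))
    have i1 := sm_vol hc hv hω hW (ε • s1)
    have i2 := sm_vol c1 v1 hω w1 (ε • s2)
    have i3 := sm_vol c2 v2 hω w2 (ε • s3)
    have hsub : K3 ⊆ (fun x => -(ε • o) + x) '' ((1 + ε) • K) := by
      rintro _ ⟨⟨q2, t3⟩, ⟨⟨⟨q1, t2⟩, ⟨⟨⟨q0, t1⟩, ⟨hq0, ht1⟩, rfl⟩, ht2⟩, rfl⟩, ht3⟩, rfl⟩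
      simp only
      have hm := tri t1 t2 t3 ht1.1 ht1.2 ht2.1 ht2.2 ht3.1 ht3.2
      have hq : (1 + ε)⁻¹ • q0 + ((1 + ε)⁻¹ * ε) • (o + t1 • s1 + t2 • s2 + t3 • s3) ∈ K := by
        apply hv hq0 hm
        · positivity
        · positivity
        · field_simp
      refine ⟨(1 + ε) • ((1 + ε)⁻¹ • q0 + ((1 + ε)⁻¹ * ε) • (o + t1 • s1 + t2 • s2 + t3 • s3)),
        smul_mem_smul_set hq, ?_⟩
      simp only [smul_add, smul_smul]
      have e1 : (1 + ε) * (1 + ε)⁻¹ = 1 := mul_inv_cancel₀ (by positivity)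
      have e2 : (1 + ε) * ((1 + ε)⁻¹ * ε) = ε := by rw [← mul_assoc, e1, one_mul]
      simp only [e1, ← mul_assoc, one_mul, one_smul]
      module
    have hvol3 : volume K3 ≤ ENNReal.ofReal ((1 + ε) ^ 2) * volume K := by
      refine (measure_mono hsub).trans ?_
      rw [image_add_left, measure_preimage_add, Measure.addHaar_smul]
      apply le_of_eq
      congr 2
      rw [show Module.finrank ℝ E2 = 2 by simp]
      exact abs_of_nonneg (by positivity)
    have htot : volume K + ENNReal.ofReal (ω * ‖ε • s1‖) + ENNReal.ofReal (ω * ‖ε • s2‖) +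
        ENNReal.ofReal (ω * ‖ε • s3‖) ≤ ENNReal.ofReal ((1 + ε) ^ 2) * volume K := by
      calc _ ≤ volume K1 + ENNReal.ofReal (ω * ‖ε • s2‖) + ENNReal.ofReal (ω * ‖ε • s3‖) := by gcongr
        _ ≤ volume K2 + ENNReal.ofReal (ω * ‖ε • s3‖) := by gcongr
        _ ≤ volume K3 := i3
        _ ≤ _ := hvol3
    have e0 : volume K = ENNReal.ofReal A := (ENNReal.ofReal_toReal hfin).symm
    rw [e0, ← ENNReal.ofReal_mul (by positivity), ← ENNReal.ofReal_add hA0 (by positivity),
      ← ENNReal.ofReal_add (by positivity) (by positivity),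
      ← ENNReal.ofReal_add (by positivity) (by positivity)] at htot
    rw [ENNReal.ofReal_le_ofReal_iff (by positivity)] at htot
    simp only [norm_smul, Real.norm_eq_abs, abs_of_pos hε] at htot
    have h5 : ε * (ω * (‖s1‖ + ‖s2‖ + ‖s3‖)) ≤ ε * ((2 + ε) * A) := by nlinarith
    exact le_of_mul_le_mul_left h5 hε
  -- let ε → 0
  by_contra hcon
  push Not at hcon
  set D := ω * (‖s1‖ + ‖s2‖ + ‖s3‖) - 2 * A with hD
  have hDpos : 0 < D := by rw [hD]; linarith
  have := main (D / (2 * (A + 1))) (by positivity)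
  have h6 : D / (2 * (A + 1)) * A ≤ D / 2 := by
    rw [div_mul_eq_mul_div, div_le_div_iff₀ (by positivity) (by norm_num)]
    nlinarith
  nlinarith

end Pool.Agent.H77.Cov
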