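import Mathlib
import Pool.Agent.H77.Cov.Mixed

set_option autoImplicit false
open MeasureTheory Set
open scoped RealInnerProductSpace Pointwise

namespace Pool.Agent.H77.Cov

/-- corner function -/
noncomputable def Fc (x y : ℝ) : ℝ :=
  (max 0 (1 - x - Real.sqrt (2 * y - y ^ 2))) ^ 2 + (max 0 (1 - y - Real.sqrt (2 * x - x ^ 2))) ^ 2

/-- the truncated unit square -/
def Q : Set (ℝ × ℝ) := {z | z.1 ∈ Icc (0:ℝ) 1 ∧ z.2 ∈ Icc (0:ℝ) 1 ∧ Fc z.1 z.2 ≤ 1 ∧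
  Fc (1 - z.1) z.2 ≤ 1 ∧ Fc z.1 (1 - z.2) ≤ 1 ∧ Fc (1 - z.1) (1 - z.2) ≤ 1}

lemma sqrt_conc {y1 y2 α β : ℝ} (h1 : y1 ∈ Icc (0:ℝ) 1) (h2 : y2 ∈ Icc (0:ℝ) 1) (hα : 0 ≤ α)
    (hβ : 0 ≤ β) (hαβ : α + β = 1) :
    α * Real.sqrt (2 * y1 - y1 ^ 2) + β * Real.sqrt (2 * y2 - y2 ^ 2) ≤
      Real.sqrt (2 * (α * y1 + β * y2) - (α * y1 + β * y2) ^ 2) := by
  have e1 : Real.sqrt (2 * y1 - y1 ^ 2) ^ 2 = 2 * y1 - y1 ^ 2 :=
    Real.sq_sqrt (by nlinarith [h1.1, h1.2])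
  have e2 : Real.sqrt (2 * y2 - y2 ^ 2) ^ 2 = 2 * y2 - y2 ^ 2 :=
    Real.sq_sqrt (by nlinarith [h2.1, h2.2])
  have n1 := Real.sqrt_nonneg (2 * y1 - y1 ^ 2)
  have n2 := Real.sqrt_nonneg (2 * y2 - y2 ^ 2)
  set r1 := Real.sqrt (2 * y1 - y1 ^ 2)
  set r2 := Real.sqrt (2 * y2 - y2 ^ 2)
  apply Real.le_sqrt_of_sq_le
  have hβ' : β = 1 - α := by linarith
  subst hβ'
  have key : r1 * r2 + (1 - y1) * (1 - y2) ≤ 1 := by
    nlinarith [sq_nonneg (r1 - r2), sq_nonneg ((1 - y1) - (1 - y2))]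
  nlinarith [mul_nonneg hα hβ, mul_nonneg (mul_nonneg hα hβ) (sub_nonneg.2 key)]

lemma max_conv {a b c α β : ℝ} (hα : 0 ≤ α) (hβ : 0 ≤ β) (h : c ≤ α * a + β * b) :
    max 0 c ≤ α * max 0 a + β * max 0 b := by
  apply max_le
  · have := le_max_left 0 a; have := le_max_left 0 b; positivity
  · have h1 := mul_le_mul_of_nonneg_left (le_max_right 0 a) hα
    have h2 := mul_le_mul_of_nonneg_left (le_max_right 0 b) hβ
    linarith

lemma Fc_conv {x1 y1 x2 y2 α β : ℝ} (hx1 : x1 ∈ Icc (0:ℝ) 1) (hy1 : y1 ∈ Icc (0:ℝ) 1)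
    (hx2 : x2 ∈ Icc (0:ℝ) 1) (hy2 : y2 ∈ Icc (0:ℝ) 1) (hα : 0 ≤ α) (hβ : 0 ≤ β) (hαβ : α + β = 1)
    (h1 : Fc x1 y1 ≤ 1) (h2 : Fc x2 y2 ≤ 1) : Fc (α * x1 + β * x2) (α * y1 + β * y2) ≤ 1 := by
  unfold Fc at *
  have c1 := sqrt_conc hy1 hy2 hα hβ hαβ
  have c2 := sqrt_conc hx1 hx2 hα hβ hαβ
  have m1 := max_conv (a := 1 - x1 - Real.sqrt (2 * y1 - y1 ^ 2)) (b := 1 - x2 - Real.sqrt (2 * y2 - y2 ^ 2))
    (c := 1 - (α * x1 + β * x2) - Real.sqrt (2 * (α * y1 + β * y2) - (α * y1 + β * y2) ^ 2)) hα hβ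
    (by linarith)
  have m2 := max_conv (a := 1 - y1 - Real.sqrt (2 * x1 - x1 ^ 2)) (b := 1 - y2 - Real.sqrt (2 * x2 - x2 ^ 2))
    (c := 1 - (α * y1 + β * y2) - Real.sqrt (2 * (α * x1 + β * x2) - (α * x1 + β * x2) ^ 2)) hα hβ
    (by linarith)
  set A := max 0 (1 - (α * x1 + β * x2) - Real.sqrt (2 * (α * y1 + β * y2) - (α * y1 + β * y2) ^ 2)) with hA
  set B := max 0 (1 - (α * y1 + β * y2) - Real.sqrt (2 * (α * x1 + β * x2) - (α * x1 + β * x2) ^ 2)) with hB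
  set a1 := max 0 (1 - x1 - Real.sqrt (2 * y1 - y1 ^ 2)) with ha1
  set a2 := max 0 (1 - x2 - Real.sqrt (2 * y2 - y2 ^ 2)) with ha2
  set b1 := max 0 (1 - y1 - Real.sqrt (2 * x1 - x1 ^ 2)) with hb1
  set b2 := max 0 (1 - y2 - Real.sqrt (2 * x2 - x2 ^ 2)) with hb2
  have pA : 0 ≤ A := le_max_left _ _
  have pB : 0 ≤ B := le_max_left _ _
  have s1 : A ^ 2 ≤ (α * a1 + β * a2) ^ 2 := pow_le_pow_left₀ pA m1 2
  have s2 : B ^ 2 ≤ (α * b1 + β * b2) ^ 2 := pow_le_pow_left₀ pB m2 2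
  have hβ' : β = 1 - α := by linarith
  subst hβ'
  have k1 : (α * a1 + (1 - α) * a2) ^ 2 ≤ α * a1 ^ 2 + (1 - α) * a2 ^ 2 := by
    nlinarith [mul_nonneg (mul_nonneg hα hβ) (sq_nonneg (a1 - a2))]
  have k2 : (α * b1 + (1 - α) * b2) ^ 2 ≤ α * b1 ^ 2 + (1 - α) * b2 ^ 2 := by
    nlinarith [mul_nonneg (mul_nonneg hα hβ) (sq_nonneg (b1 - b2))]
  nlinarith [mul_le_mul_of_nonneg_left h1 hα, mul_le_mul_of_nonneg_left h2 hβ]

lemma Q_convex : Convex ℝ Q := by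
  rintro ⟨x1, y1⟩ ⟨a1, a2, a3, a4, a5, a6⟩ ⟨x2, y2⟩ ⟨b1, b2, b3, b4, b5, b6⟩ α β hα hβ hαβ
  simp only at a1 a2 a3 a4 a5 a6 b1 b2 b3 b4 b5 b6
  have a1' : 1 - x1 ∈ Icc (0:ℝ) 1 := ⟨by linarith [a1.2], by linarith [a1.1]⟩
  have a2' : 1 - y1 ∈ Icc (0:ℝ) 1 := ⟨by linarith [a2.2], by linarith [a2.1]⟩
  have b1' : 1 - x2 ∈ Icc (0:ℝ) 1 := ⟨by linarith [b1.2], by linarith [b1.1]⟩
  have b2' : 1 - y2 ∈ Icc (0:ℝ) 1 := ⟨by linarith [b2.2], by linarith [b2.1]⟩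
  have e1 : 1 - (α * x1 + β * x2) = α * (1 - x1) + β * (1 - x2) := by linear_combination (-1:ℝ) * hαβ
  have e2 : 1 - (α * y1 + β * y2) = α * (1 - y1) + β * (1 - y2) := by linear_combination (-1:ℝ) * hαβ
  refine ⟨?_, ?_, ?_, ?_, ?_, ?_⟩ <;>
    simp only [Prod.smul_mk, Prod.mk_add_mk, smul_eq_mul]
  · exact (convex_Icc (0:ℝ) 1) a1 b1 hα hβ hαβ
  · exact (convex_Icc (0:ℝ) 1) a2 b2 hα hβ hαβ
  · exact Fc_conv a1 a2 b1 b2 hα hβ hαβ a3 b3
  · rw [e1]; exact Fc_conv a1' a2 b1' b2 hα hβ hαβ a4 b4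
  · rw [e2]; exact Fc_conv a1 a2' b1 b2' hα hβ hαβ a5 b5
  · rw [e1, e2]; exact Fc_conv a1' a2' b1' b2' hα hβ hαβ a6 b6

lemma Fc_cont : Continuous (fun z : ℝ × ℝ => Fc z.1 z.2) := by unfold Fc; fun_prop

lemma Q_closed : IsClosed Q := by
  have c1 := Fc_cont
  have c2 : Continuous (fun z : ℝ × ℝ => Fc (1 - z.1) z.2) := by unfold Fc; fun_prop
  have c3 : Continuous (fun z : ℝ × ℝ => Fc z.1 (1 - z.2)) := by unfold Fc; fun_prop
  have c4 : Continuous (fun z : ℝ × ℝ => Fc (1 - z.1) (1 - z.2)) := by unfold Fc; fun_prop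
  have : Q = (Prod.fst ⁻¹' Icc (0:ℝ) 1) ∩ ((Prod.snd ⁻¹' Icc (0:ℝ) 1) ∩
      ({z | Fc z.1 z.2 ≤ 1} ∩ ({z | Fc (1 - z.1) z.2 ≤ 1} ∩ ({z | Fc z.1 (1 - z.2) ≤ 1} ∩
      {z | Fc (1 - z.1) (1 - z.2) ≤ 1})))) := rfl
  rw [this]
  refine (isClosed_Icc.preimage continuous_fst).inter ((isClosed_Icc.preimage continuous_snd).inter
    ((isClosed_le c1 continuous_const).inter ((isClosed_le c2 continuous_const).inter
    ((isClosed_le c3 continuous_const).inter (isClosed_le c4 continuous_const)))))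

lemma Q_compact : IsCompact Q := by
  apply (isCompact_Icc.prod isCompact_Icc : IsCompact (Icc (0:ℝ) 1 ×ˢ Icc (0:ℝ) 1)).of_isClosed_subset Q_closed
  intro z hz
  exact ⟨hz.1, hz.2.1⟩

lemma Fc_big {x y : ℝ} (hx : x ∈ Icc cc 1) (hy : y ∈ Icc (0:ℝ) 1) : Fc x y ≤ 1 := by
  unfold Fc
  have hk : 1 - x ≤ Real.sqrt 3 / 2 := by have := hx.1; unfold cc at this; linarith
  have hk0 : 0 ≤ 1 - x := by linarith [hx.2]
  have h3 := s3_sq
  have hs : 1 / 2 ≤ Real.sqrt (2 * x - x ^ 2) := by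
    apply Real.le_sqrt_of_sq_le
    nlinarith [Real.sqrt_nonneg 3]
  have n1 := Real.sqrt_nonneg (2 * y - y ^ 2)
  have m1 : max 0 (1 - x - Real.sqrt (2 * y - y ^ 2)) ≤ Real.sqrt 3 / 2 :=
    max_le (by positivity) (by linarith)
  have m2 : max 0 (1 - y - Real.sqrt (2 * x - x ^ 2)) ≤ 1 / 2 :=
    max_le (by norm_num) (by linarith [hy.1])
  have s1 := pow_le_pow_left₀ (le_max_left 0 (1 - x - Real.sqrt (2 * y - y ^ 2))) m1 2
  have s2 := pow_le_pow_left₀ (le_max_left 0 (1 - y - Real.sqrt (2 * x - x ^ 2))) m2 2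
  nlinarith

lemma quad_mono {u v : ℝ} (h : u ≤ v) (hv : v ≤ 1) : 2 * u - u ^ 2 ≤ 2 * v - v ^ 2 := by
  nlinarith [mul_nonneg (sub_nonneg.2 h) (by linarith : 0 ≤ 2 - u - v)]

lemma Fc_iff {x y : ℝ} (hx : x ∈ Icc 0 cc) (hy : y ∈ Icc (0:ℝ) 1) : Fc x y ≤ 1 ↔ 1 - sps x ≤ y := by
  have hs2 := sf_sq hx
  have hs0 := sf_nonneg x
  have hs1 := sf_le hx
  have hk := one_sub_ge hx
  have hr := s3_sq
  have hr0 := Real.sqrt_nonneg 3
  have hr1 := s3_gt
  have hr2 := s3_lt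
  have hsf : Real.sqrt (2 * x - x ^ 2) = sf x := rfl
  have hps := sps_le hx
  have q1 : Real.sqrt 3 * sf x ≤ Real.sqrt 3 * (1 / 2) := mul_le_mul_of_nonneg_left hs1 hr0
  have q2 : Real.sqrt 3 * (Real.sqrt 3 / 2) ≤ Real.sqrt 3 * (1 - x) := mul_le_mul_of_nonneg_left hk hr0
  have q3 : Real.sqrt 3 * (Real.sqrt 3 / 2) = 3 / 2 := by linear_combination hr / 2
  have q4 : 0 ≤ Real.sqrt 3 * sf x := mul_nonneg hr0 hs0
  have hcps : 0 ≤ cps x := by unfold cps; linarith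
  have e2 : cps x ^ 2 + sps x ^ 2 = 1 := by
    unfold cps sps
    linear_combination hs2 + (sf x ^ 2 / 4 + (1 - x) ^ 2 / 4) * hr
  have e3 : (1 - x - cps x) ^ 2 + (sps x - sf x) ^ 2 = 1 := by
    unfold cps sps
    linear_combination hs2 + (sf x ^ 2 / 4 + (1 - x) ^ 2 / 4) * hr
  have p1 : 0 < 1 - x - cps x := by unfold cps; linarith
  have p2 : 0 < sps x - sf x := by unfold sps; linarith
  -- sqrt at the boundary
  have hsq : Real.sqrt (2 * (1 - sps x) - (1 - sps x) ^ 2) = cps x := by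
    rw [show 2 * (1 - sps x) - (1 - sps x) ^ 2 = cps x ^ 2 by linear_combination (-1:ℝ) * e2]
    exact Real.sqrt_sq hcps
  have hsp0 : 0 ≤ sps x := by unfold sps; linarith
  unfold Fc
  rw [hsf]
  constructor
  · intro h
    by_contra hc
    push Not at hc
    have h1 : Real.sqrt (2 * y - y ^ 2) ≤ cps x := by
      rw [← hsq]
      apply Real.sqrt_le_sqrt
      exact quad_mono hc.le (by linarith)
    have m1 : 1 - x - cps x ≤ max 0 (1 - x - Real.sqrt (2 * y - y ^ 2)) := le_trans (by linarith) (le_max_right _ _)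
    have m2 : sps x - sf x < max 0 (1 - y - sf x) := lt_of_lt_of_le (by linarith) (le_max_right _ _)
    have s1 := pow_le_pow_left₀ p1.le m1 2
    have s2 := pow_lt_pow_left₀ m2 p2.le two_ne_zero
    linarith
  · intro h
    have h1 : cps x ≤ Real.sqrt (2 * y - y ^ 2) := by
      rw [← hsq]
      apply Real.sqrt_le_sqrt
      exact quad_mono h hy.2
    have m1 : max 0 (1 - x - Real.sqrt (2 * y - y ^ 2)) ≤ 1 - x - cps x := max_le p1.le (by linarith)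
    have m2 : max 0 (1 - y - sf x) ≤ sps x - sf x := max_le p2.le (by linarith)
    have s1 := pow_le_pow_left₀ (le_max_left _ _) m1 2
    have s2 := pow_le_pow_left₀ (le_max_left _ _) m2 2
    linarith

/-- half-height of the slice -/
noncomputable def hq (x : ℝ) : ℝ := sps (min (min x (1 - x)) cc)

lemma sps_cc : sps cc = 1 := by
  unfold sps
  have : sf cc = 1 / 2 := by
    unfold sf cc
    rw [show 2 * (1 - Real.sqrt 3 / 2) - (1 - Real.sqrt 3 / 2) ^ 2 = (1 / 2) ^ 2 by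
      have := s3_sq; linear_combination (-(1:ℝ) / 4) * this]
    exact Real.sqrt_sq (by norm_num)
  rw [this]; unfold cc
  have := s3_sq
  linear_combination (1 / 4 : ℝ) * this

lemma sps_ge {x : ℝ} (hx : x ∈ Icc 0 cc) : 3 / 4 ≤ sps x := by
  have hk := one_sub_ge hx
  have hs0 := sf_nonneg x
  have hr := s3_sq
  have hr1 := s3_gt
  unfold sps; nlinarith

lemma Q_slice {x y : ℝ} (hx : x ∈ Icc (0:ℝ) 1) : (x, y) ∈ Q ↔ y ∈ Icc (1 - hq x) (hq x) := by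
  have hc1 := cc_gt
  have hc2 := cc_lt
  have hm : min (min x (1 - x)) cc ∈ Icc 0 cc :=
    ⟨le_min (le_min hx.1 (by linarith [hx.2])) (by linarith), min_le_right _ _⟩
  have hle := sps_le hm
  have hge := sps_ge hm
  have hy01 : y ∈ Icc (1 - hq x) (hq x) → y ∈ Icc (0:ℝ) 1 := by
    intro h
    unfold hq at h
    exact ⟨by linarith [h.1], by linarith [h.2]⟩
  have hyc : y ∈ Icc (0:ℝ) 1 → 1 - y ∈ Icc (0:ℝ) 1 := fun h => ⟨by linarith [h.2], by linarith [h.1]⟩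
  rcases le_total x cc with h1 | h1
  · have e : min (min x (1 - x)) cc = x := by
      rw [min_eq_left (by linarith : x ≤ 1 - x), min_eq_left h1]
    have hq' : hq x = sps x := by unfold hq; rw [e]
    rw [hq'] at hy01 ⊢
    have hx' : x ∈ Icc 0 cc := ⟨hx.1, h1⟩
    have hxc : 1 - x ∈ Icc cc 1 := ⟨by linarith, by linarith [hx.1]⟩
    constructor
    · rintro ⟨-, a2, a3, -, a5, -⟩
      simp only at a2 a3 a5
      rw [Fc_iff hx' a2] at a3
      rw [Fc_iff hx' (hyc a2)] at a5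
      exact ⟨a3, by linarith⟩
    · intro h
      have a2 := hy01 h
      refine ⟨hx, a2, ?_, Fc_big hxc a2, ?_, Fc_big hxc (hyc a2)⟩
      · rw [Fc_iff hx' a2]; exact h.1
      · simp only; rw [Fc_iff hx' (hyc a2)]; linarith [h.2]
  · rcases le_total (1 - x) cc with h2 | h2
    · have e : min (min x (1 - x)) cc = 1 - x := by
        rw [min_eq_right (by linarith : 1 - x ≤ x), min_eq_left h2]
      have hq' : hq x = sps (1 - x) := by unfold hq; rw [e]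
      rw [hq'] at hy01 ⊢
      have hx' : 1 - x ∈ Icc 0 cc := ⟨by linarith [hx.2], h2⟩
      have hxc : x ∈ Icc cc 1 := ⟨h1, hx.2⟩
      constructor
      · rintro ⟨-, a2, -, a4, -, a6⟩
        simp only at a2 a4 a6
        rw [Fc_iff hx' a2] at a4
        rw [Fc_iff hx' (hyc a2)] at a6
        exact ⟨a4, by linarith⟩
      · intro h
        have a2 := hy01 h
        refine ⟨hx, a2, Fc_big hxc a2, ?_, Fc_big hxc (hyc a2), ?_⟩
        · simp only; rw [Fc_iff hx' a2]; exact h.1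
        · simp only; rw [Fc_iff hx' (hyc a2)]; linarith [h.2]
    · have e : min (min x (1 - x)) cc = cc := by
        rw [min_eq_right (le_min h1 h2)]
      have hq' : hq x = 1 := by unfold hq; rw [e, sps_cc]
      rw [hq'] at hy01 ⊢
      have hxc : x ∈ Icc cc 1 := ⟨h1, hx.2⟩
      have hxc' : 1 - x ∈ Icc cc 1 := ⟨h2, by linarith [hx.1]⟩
      constructor
      · rintro ⟨-, a2, -⟩
        simpa using a2
      · intro h
        have a2 := hy01 h
        exact ⟨hx, a2, Fc_big hxc a2, Fc_big hxc' a2, Fc_big hxc (hyc a2), Fc_big hxc' (hyc a2)⟩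

lemma hq_cont : Continuous hq := by
  unfold hq; have := sps_cont; fun_prop

lemma Q_area : volume Q = ENNReal.ofReal A0 := by
  have hc1 := cc_gt
  have hc2 := cc_lt
  rw [Measure.volume_eq_prod, Measure.prod_apply Q_closed.measurableSet]
  have h1 : ∫⁻ x, volume (Prod.mk x ⁻¹' Q) = ∫⁻ x in Icc (0:ℝ) 1, ENNReal.ofReal (2 * hq x - 1) := by
    rw [← lintegral_indicator measurableSet_Icc]
    congr 1
    ext x
    by_cases hx : x ∈ Icc (0:ℝ) 1
    · rw [indicator_of_mem hx]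
      have : Prod.mk x ⁻¹' Q = Icc (1 - hq x) (hq x) := by
        ext y; exact Q_slice hx
      rw [this, Real.volume_Icc]
      congr 1; ring
    · rw [indicator_of_notMem hx]
      have : Prod.mk x ⁻¹' Q = ∅ := by
        ext y
        simp only [mem_preimage, mem_empty_iff_false, iff_false]
        intro h
        exact hx h.1
      rw [this]; simp
  have hcontV : Continuous (fun x => 2 * hq x - 1) := by have := hq_cont; fun_prop
  rw [h1, ← ofReal_integral_eq_lintegral_ofReal]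
  · congr 1
    rw [integral_Icc_eq_integral_Ioc, ← intervalIntegral.integral_of_le (by norm_num)]
    have hii : ∀ a b : ℝ, IntervalIntegrable (fun x => 2 * hq x - 1) volume a b :=
      fun a b => hcontV.intervalIntegrable a b
    rw [← intervalIntegral.integral_add_adjacent_intervals (hii 0 cc) (hii cc 1),
      ← intervalIntegral.integral_add_adjacent_intervals (hii cc (1 - cc)) (hii (1 - cc) 1)]
    have i1 : ∫ x in (0:ℝ)..cc, (2 * hq x - 1) = C1 := by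
      have := int_corner 0 0
      simp only [zero_mul, add_zero, sub_zero] at this
      rw [← this]
      apply intervalIntegral.integral_congr
      intro x hx
      rw [uIcc_of_le (by linarith)] at hx
      have e : min (min x (1 - x)) cc = x := by
        rw [min_eq_left (by linarith [hx.2] : x ≤ 1 - x), min_eq_left hx.2]
      simp only [hq, e]
    have i2 : ∫ x in cc..(1 - cc), (2 * hq x - 1) = 1 - 2 * cc := by
      have : ∫ x in cc..(1 - cc), (2 * hq x - 1) = ∫ x in cc..(1 - cc), (1 : ℝ) := by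
        apply intervalIntegral.integral_congr
        intro x hx
        rw [uIcc_of_le (by linarith)] at hx
        have e : min (min x (1 - x)) cc = cc := by
          rw [min_eq_right (le_min hx.1 (by linarith [hx.2]))]
        simp only [hq, e, sps_cc]
        norm_num
      rw [this]
      simp
      ring
    have i3 : ∫ x in (1 - cc)..1, (2 * hq x - 1) = C1 := by
      have h := intervalIntegral.integral_comp_sub_left (a := 0) (b := cc) (fun x => 2 * hq x - 1) 1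
      simp only [sub_zero] at h
      rw [← h, ← i1]
      apply intervalIntegral.integral_congr
      intro x _
      have e : min (1 - x) (1 - (1 - x)) = min x (1 - x) := by
        rw [min_comm]; congr 1; ring
      simp only [hq, e]
    rw [i1, i2, i3, A0_eq]
    unfold cc
    ring
  · exact (hcontV.integrableOn_Icc)
  · filter_upwards [ae_restrict_mem measurableSet_Icc] with x hx
    have hm : min (min x (1 - x)) cc ∈ Icc 0 cc :=
      ⟨le_min (le_min hx.1 (by linarith [hx.2])) (by linarith), min_le_right _ _⟩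
    have hge := sps_ge hm
    simp only [Pi.zero_apply, hq]
    linarith

/-- key lemma: contact points force membership in `Q` -/
lemma Q_of_contact {a b x y : ℝ} (ha : a ∈ Icc (0:ℝ) 1) (hb : b ∈ Icc (0:ℝ) 1)
    (hx0 : 0 ≤ x) (hx1 : x ≤ 1) (hy0 : 0 ≤ y) (hy1 : y ≤ 1)
    (c1 : (1 - b) ^ 2 + (1 - a) ^ 2 ≤ 1) (c2 : b ^ 2 + (1 - a) ^ 2 ≤ 1)
    (c3 : (1 - b) ^ 2 + a ^ 2 ≤ 1) (c4 : b ^ 2 + a ^ 2 ≤ 1)
    (d1 : (1 - x) ^ 2 + (y - a) ^ 2 ≤ 1) (d2 : x ^ 2 + (y - a) ^ 2 ≤ 1)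
    (d3 : (x - b) ^ 2 + (1 - y) ^ 2 ≤ 1) (d4 : (x - b) ^ 2 + y ^ 2 ≤ 1) : (x, y) ∈ Q := by
  have key : ∀ {a b x y : ℝ}, a ∈ Icc (0:ℝ) 1 → b ∈ Icc (0:ℝ) 1 →
      (1 - b) ^ 2 + (1 - a) ^ 2 ≤ 1 → (1 - x) ^ 2 + (y - a) ^ 2 ≤ 1 →
      (x - b) ^ 2 + (1 - y) ^ 2 ≤ 1 → Fc x y ≤ 1 := by
    intro a b x y ha hb c1 d1 d3
    unfold Fc
    have h1 : a - y ≤ Real.sqrt (2 * x - x ^ 2) := by
      apply Real.le_sqrt_of_sq_le; nlinarith
    have h2 : b - x ≤ Real.sqrt (2 * y - y ^ 2) := by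
      apply Real.le_sqrt_of_sq_le; nlinarith
    have m1 : max 0 (1 - x - Real.sqrt (2 * y - y ^ 2)) ≤ 1 - b := max_le (by linarith [hb.2]) (by linarith)
    have m2 : max 0 (1 - y - Real.sqrt (2 * x - x ^ 2)) ≤ 1 - a := max_le (by linarith [ha.2]) (by linarith)
    have s1 := pow_le_pow_left₀ (le_max_left _ _) m1 2
    have s2 := pow_le_pow_left₀ (le_max_left _ _) m2 2
    linarith
  have ha' : 1 - a ∈ Icc (0:ℝ) 1 := ⟨by linarith [ha.2], by linarith [ha.1]⟩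
  have hb' : 1 - b ∈ Icc (0:ℝ) 1 := ⟨by linarith [hb.2], by linarith [hb.1]⟩
  refine ⟨⟨hx0, hx1⟩, ⟨hy0, hy1⟩, key ha hb c1 d1 d3, key ha hb' ?_ ?_ ?_, key ha' hb ?_ ?_ ?_,
    key ha' hb' ?_ ?_ ?_⟩ <;> (try simp only) <;> linarith

end Pool.Agent.H77.Cov
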