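import Mathlib
import Pool.Agent.H77.Cov.Q
import Pool.Agent.H77.Cov.Cfg

set_option autoImplicit false
set_option maxHeartbeats 200000
open MeasureTheory Set

namespace Pool.Agent.H77.Cov

/-- squared norm in the oblique coordinates of the equilateral triangle -/
def qf (a b : ℝ) : ℝ := a ^ 2 + a * b + b ^ 2

/-- boundary of the Reuleaux triangle in oblique coordinates -/
def ArcP (a b : ℝ) : Prop :=
  (qf a b = 1 ∧ 0 ≤ a ∧ 0 ≤ b) ∨ (qf (a - 1) b = 1 ∧ 0 ≤ b ∧ 0 ≤ 1 - a - b) ∨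
    (qf a (b - 1) = 1 ∧ 0 ≤ a ∧ 0 ≤ 1 - a - b)

lemma qf_sum_ge {a b : ℝ} (h : qf a b = 1) (ha : 0 ≤ a) (hb : 0 ≤ b) : 1 ≤ a + b := by
  unfold qf at h
  nlinarith [mul_nonneg ha hb]

/-- same centre -/
lemma arc_same {a b c d : ℝ} (h : qf a b = 1) (ha : 0 ≤ a) (hb : 0 ≤ b) (h' : qf c d = 1)
    (hc : 0 ≤ c) (hd : 0 ≤ d) : qf (a - c) (b - d) ≤ 1 := by
  have h1 := qf_sum_ge h ha hb
  have h2 := qf_sum_ge h' hc hd
  have h3 : 1 ≤ (a + b) * (c + d) := by nlinarith
  unfold qf at *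
  nlinarith [mul_nonneg ha hc, mul_nonneg hb hd]

/-- different centres: `Z = a e + b f`, `Z' = V2 + c (-e) + d (f - e)` -/
lemma arc_diff {a b c d : ℝ} (h : qf a b = 1) (ha : 0 ≤ a) (hb : 0 ≤ b) (h' : qf c d = 1)
    (hc : 0 ≤ c) (hd : 0 ≤ d) : qf (a - 1 + c + d) (b - d) ≤ 1 := by
  unfold qf at *
  have hb1 : b ≤ 1 := by nlinarith [mul_nonneg ha hb]
  have hd1 : d ≤ 1 := by nlinarith [mul_nonneg hc hd]
  set X := a + b / 2 with hX
  set Y := c + d / 2 with hY
  have eX : X ^ 2 = 1 - 3 / 4 * b ^ 2 := by rw [hX]; nlinarith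
  have eY : Y ^ 2 = 1 - 3 / 4 * d ^ 2 := by rw [hY]; nlinarith
  have X0 : 0 ≤ X := by positivity
  have Y0 : 0 ≤ Y := by positivity
  have X1 : X ≤ 1 := by nlinarith
  have Y1 : Y ≤ 1 := by nlinarith
  have kX : (1 - X) ^ 2 ≤ 3 / 4 * b ^ 2 := by nlinarith
  have kY : (1 - Y) ^ 2 ≤ 3 / 4 * d ^ 2 := by nlinarith
  have key : (1 - X) * (1 - Y) ≤ 3 / 4 * (b * d) := by
    have h1 : ((1 - X) * (1 - Y)) ^ 2 ≤ (3 / 4 * (b * d)) ^ 2 := by
      calc ((1 - X) * (1 - Y)) ^ 2 = (1 - X) ^ 2 * (1 - Y) ^ 2 := by ring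
        _ ≤ (3 / 4 * b ^ 2) * (3 / 4 * d ^ 2) := mul_le_mul kX kY (sq_nonneg _) (by positivity)
        _ = _ := by ring
    exact (pow_le_pow_iff_left₀ (mul_nonneg (by linarith) (by linarith)) (by positivity) two_ne_zero).1 h1
  rw [hX, hY] at key
  nlinarith

lemma qf_symm1 (a b : ℝ) : qf b a = qf a b := by unfold qf; ring
lemma qf_neg (a b : ℝ) : qf (-a) (-b) = qf a b := by unfold qf; ring
lemma qf_rot (a b : ℝ) : qf (-(a + b)) a = qf a b := by unfold qf; ring
lemma qf_rot2 (a b : ℝ) : qf b (-(a + b)) = qf a b := by unfold qf; ring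

lemma arc_pair {a b c d : ℝ} (h : ArcP a b) (h' : ArcP c d) : qf (a - c) (b - d) ≤ 1 := by
  rcases h with ⟨h1, h2, h3⟩ | ⟨h1, h2, h3⟩ | ⟨h1, h2, h3⟩ <;>
    rcases h' with ⟨k1, k2, k3⟩ | ⟨k1, k2, k3⟩ | ⟨k1, k2, k3⟩
  · exact arc_same h1 h2 h3 k1 k2 k3
  · -- 1,2
    have := arc_diff h1 h2 h3 (c := 1 - c - d) (d := d)
      (by unfold qf at k1 ⊢; linear_combination k1) k3 k2
    exact le_trans (le_of_eq (by unfold qf; ring)) this
  · -- 1,3 : swap coordinates
    have := arc_diff (a := b) (b := a) (by rw [qf_symm1]; exact h1) h3 h2 (c := 1 - c - d) (d := c)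
      (by unfold qf at k1 ⊢; linear_combination k1) k3 k2
    exact le_trans (le_of_eq (by unfold qf; ring)) this
  · have := arc_diff k1 k2 k3 (c := 1 - a - b) (d := b)
      (by unfold qf at h1 ⊢; linear_combination h1) h3 h2
    exact le_trans (le_of_eq (by unfold qf; ring)) this
  · -- 2,2
    have := arc_same (a := 1 - a - b) (b := b) (c := 1 - c - d) (d := d)
      (by unfold qf at h1 ⊢; linear_combination h1) h3 h2
      (by unfold qf at k1 ⊢; linear_combination k1) k3 k2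
    exact le_trans (le_of_eq (by unfold qf; ring)) this
  · -- 2,3
    have := arc_diff (a := b) (b := 1 - a - b) (c := c) (d := 1 - c - d)
      (by unfold qf at h1 ⊢; linear_combination h1) h2 h3
      (by unfold qf at k1 ⊢; linear_combination k1) k2 k3
    exact le_trans (le_of_eq (by unfold qf; ring)) this
  · have := arc_diff (a := d) (b := c) (by rw [qf_symm1]; exact k1) k3 k2 (c := 1 - a - b) (d := a)
      (by unfold qf at h1 ⊢; linear_combination h1) h3 h2
    exact le_trans (le_of_eq (by unfold qf; ring)) this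
  · -- 3,2
    have := arc_diff (a := d) (b := 1 - c - d) (c := a) (d := 1 - a - b)
      (by unfold qf at k1 ⊢; linear_combination k1) k2 k3
      (by unfold qf at h1 ⊢; linear_combination h1) h2 h3
    exact le_trans (le_of_eq (by unfold qf; ring)) this
  · have := arc_same (a := a) (b := 1 - a - b) (c := c) (d := 1 - c - d)
      (by unfold qf at h1 ⊢; linear_combination h1) h2 h3
      (by unfold qf at k1 ⊢; linear_combination k1) k2 k3
    exact le_trans (le_of_eq (by unfold qf; ring)) this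

lemma arc00 : ArcP 0 0 := Or.inr (Or.inl ⟨by unfold qf; norm_num, le_rfl, by norm_num⟩)
lemma arc10 : ArcP 1 0 := Or.inl ⟨by unfold qf; norm_num, by norm_num, le_rfl⟩
lemma arc01 : ArcP 0 1 := Or.inl ⟨by unfold qf; norm_num, le_rfl, by norm_num⟩

/-- unit chord in every direction -/
lemma arc_chord {x y : ℝ} (h : qf x y = 1) : ∃ a b, ArcP a b ∧ ArcP (a + x) (b + y) := by
  rcases le_total 0 x with hx | hx <;> rcases le_total 0 y with hy | hy
  · exact ⟨0, 0, arc00, Or.inl ⟨by simpa using h, by simpa using hx, by simpa using hy⟩⟩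
  · rcases le_total 0 (x + y) with hs | hs
    · refine ⟨1 - x, -y, Or.inr (Or.inl ⟨?_, by linarith, by linarith⟩), ?_⟩
      · unfold qf at h ⊢; linear_combination h
      · rw [show 1 - x + x = 1 by ring, show -y + y = 0 by ring]; exact arc10
    · refine ⟨0, 1, arc01, Or.inr (Or.inr ⟨?_, by linarith, by linarith⟩)⟩
      unfold qf at h ⊢; linear_combination h
  · rcases le_total 0 (x + y) with hs | hs
    · refine ⟨-x, 1 - y, Or.inr (Or.inr ⟨?_, by linarith, by linarith⟩), ?_⟩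
      · unfold qf at h ⊢; linear_combination h
      · rw [show -x + x = 0 by ring, show 1 - y + y = 1 by ring]; exact arc01
    · refine ⟨1, 0, arc10, Or.inr (Or.inl ⟨?_, by linarith, by linarith⟩)⟩
      unfold qf at h ⊢; linear_combination h
  · refine ⟨-x, -y, Or.inl ⟨by unfold qf at h ⊢; linear_combination h, by linarith, by linarith⟩, ?_⟩
    rw [show -x + x = 0 by ring, show -y + y = 0 by ring]; exact arc00

/-- abstract placement -/
lemma place {h k m n z1 z2 : ℝ}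
    (c1 : sd (h + 1) k m (n + 1) ≤ 1) (c2 : sd h k m (n + 1) ≤ 1) (c3 : sd (h + 1) k m n ≤ 1)
    (c4 : sd h k m n ≤ 1) (d1 : sd z1 z2 (h + 1) k ≤ 1) (d2 : sd z1 z2 h k ≤ 1)
    (d3 : sd z1 z2 m (n + 1) ≤ 1) (d4 : sd z1 z2 m n ≤ 1) : (z1 - h, z2 - n) ∈ Q := by
  unfold sd at *
  apply Q_of_contact (a := k - n) (b := m - h)
  · constructor <;> nlinarith [sq_nonneg (h - m), sq_nonneg (h + 1 - m)]
  · constructor <;> nlinarith [sq_nonneg (k - n), sq_nonneg (k - (n + 1))]
  · nlinarith [sq_nonneg (z2 - k)]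
  · nlinarith [sq_nonneg (z2 - k)]
  · nlinarith [sq_nonneg (z1 - m)]
  · nlinarith [sq_nonneg (z1 - m)]
  · linarith
  · linarith
  · linarith
  · linarith
  · linarith
  · linarith
  · linarith
  · linarith

end Pool.Agent.H77.Cov
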