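import Mathlib
import Pool.Agent.H77.Cov.Cover

set_option autoImplicit false
set_option maxHeartbeats 400000
open MeasureTheory Set

namespace Pool.Agent.H77.Cov

/-- oblique to rectangular coordinates -/
noncomputable def ox (e1 e2 a b : ℝ) : ℝ := a * e1 + b * (e1 / 2 - Real.sqrt 3 / 2 * e2)
/-- oblique to rectangular coordinates -/
noncomputable def oy (e1 e2 a b : ℝ) : ℝ := a * e2 + b * (e2 / 2 + Real.sqrt 3 / 2 * e1)

lemma o_norm {e1 e2 : ℝ} (he : e1 ^ 2 + e2 ^ 2 = 1) (a b : ℝ) :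
    ox e1 e2 a b ^ 2 + oy e1 e2 a b ^ 2 = qf a b := by
  unfold ox oy qf
  linear_combination (a ^ 2 + a * b + b ^ 2) * he + (b ^ 2 / 4 * (e1 ^ 2 + e2 ^ 2)) * s3_sq

lemma o_sd {e1 e2 : ℝ} (he : e1 ^ 2 + e2 ^ 2 = 1) (a b c d : ℝ) :
    sd (ox e1 e2 a b) (oy e1 e2 a b) (ox e1 e2 c d) (oy e1 e2 c d) = qf (a - c) (b - d) := by
  rw [← o_norm he]
  unfold sd ox oy; ring

lemma ox_add (e1 e2 a b x y : ℝ) : ox e1 e2 (a + x) (b + y) = ox e1 e2 a b + ox e1 e2 x y := by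
  unfold ox; ring
lemma oy_add (e1 e2 a b x y : ℝ) : oy e1 e2 (a + x) (b + y) = oy e1 e2 a b + oy e1 e2 x y := by
  unfold oy; ring

lemma o_surj {e1 e2 : ℝ} (he : e1 ^ 2 + e2 ^ 2 = 1) (n1 n2 : ℝ) :
    ∃ a b, ox e1 e2 a b = n1 ∧ oy e1 e2 a b = n2 ∧ b = 2 / Real.sqrt 3 * (e1 * n2 - e2 * n1) ∧
      a = e1 * n1 + e2 * n2 - b / 2 := by
  have hr : Real.sqrt 3 ≠ 0 := by positivity
  refine ⟨e1 * n1 + e2 * n2 - (2 / Real.sqrt 3 * (e1 * n2 - e2 * n1)) / 2,
    2 / Real.sqrt 3 * (e1 * n2 - e2 * n1), ?_, ?_, rfl, rfl⟩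
  · unfold ox
    field_simp
    linear_combination (n1 * Real.sqrt 3) * he
  · unfold oy
    field_simp
    linear_combination (n2 * Real.sqrt 3) * he

lemma three_arc {e1 e2 u1 u2 : ℝ} (he : e1 ^ 2 + e2 ^ 2 = 1) (hu : u1 ^ 2 + u2 ^ 2 = 1)
    (hdot : 1 / 2 ≤ e1 * u1 + e2 * u2) (hcr : 0 ≤ e1 * u2 - e2 * u1) :
    ∃ w1 w2 : ℝ, (w1, w2) ∈ Q ∧ (e1 + w1, e2 + w2) ∈ Q ∧ (u1 + w1, u2 + w2) ∈ Q := by
  obtain ⟨xh, yh, h1, h2, -, -⟩ := o_surj he 1 0
  obtain ⟨xv, yv, v1, v2, -, -⟩ := o_surj he 0 1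
  have qh : qf xh yh = 1 := by rw [← o_norm he, h1, h2]; norm_num
  have qv : qf xv yv = 1 := by rw [← o_norm he, v1, v2]; norm_num
  obtain ⟨a, b, A1, A2⟩ := arc_chord qh
  obtain ⟨c, d, B1, B2⟩ := arc_chord qv
  obtain ⟨s, t, s1, s2, ht, hs⟩ := o_surj he u1 u2
  have qu : qf s t = 1 := by rw [← o_norm he, s1, s2]; exact hu
  have hr0 : 0 < Real.sqrt 3 := by positivity
  have ht0 : 0 ≤ t := by rw [ht]; positivity
  have hs0 : 0 ≤ s := by
    -- t/2 ≤ 1/2 ≤ dot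
    have e : s + t / 2 = e1 * u1 + e2 * u2 := by rw [hs]; ring
    unfold qf at qu
    have e2 : (s + t / 2) ^ 2 + 3 / 4 * t ^ 2 = 1 := by linear_combination qu
    rw [e] at e2
    have : t ≤ 1 := by nlinarith
    linarith
  have Au : ArcP s t := Or.inl ⟨qu, hs0, ht0⟩
  set h := ox e1 e2 a b
  set k := oy e1 e2 a b
  set m := ox e1 e2 c d
  set n := oy e1 e2 c d
  have eh : ox e1 e2 (a + xh) (b + yh) = h + 1 := by rw [ox_add, h1]
  have ek : oy e1 e2 (a + xh) (b + yh) = k := by rw [oy_add, h2, add_zero]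
  have em : ox e1 e2 (c + xv) (d + yv) = m := by rw [ox_add, v1, add_zero]
  have en : oy e1 e2 (c + xv) (d + yv) = n + 1 := by rw [oy_add, v2]
  have key : ∀ x y, ArcP x y → (ox e1 e2 x y - h, oy e1 e2 x y - n) ∈ Q := by
    intro x y hxy
    apply place (k := k) (m := m)
    · have := arc_pair A2 B2; rw [← o_sd he, eh, ek, em, en] at this; exact this
    · have := arc_pair A1 B2; rw [← o_sd he, em, en] at this; exact this
    · have := arc_pair A2 B1; rw [← o_sd he, eh, ek] at this; exact this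
    · have := arc_pair A1 B1; rw [← o_sd he] at this; exact this
    · have := arc_pair hxy A2; rw [← o_sd he, eh, ek] at this; exact this
    · have := arc_pair hxy A1; rw [← o_sd he] at this; exact this
    · have := arc_pair hxy B2; rw [← o_sd he, em, en] at this; exact this
    · have := arc_pair hxy B1; rw [← o_sd he] at this; exact this
  refine ⟨-h, -n, ?_, ?_, ?_⟩
  · have := key 0 0 arc00
    have e : (ox e1 e2 0 0 - h, oy e1 e2 0 0 - n) = (-h, -n) := by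
      unfold ox oy; simp
    rwa [e] at this
  · have := key 1 0 arc10
    have e : (ox e1 e2 1 0 - h, oy e1 e2 1 0 - n) = (e1 + -h, e2 + -n) := by
      unfold ox oy; ext <;> simp <;> ring
    rwa [e] at this
  · have := key s t Au
    rw [s1, s2] at this
    exact this

lemma Q_refl {x y : ℝ} (h : (x, y) ∈ Q) : (x, 1 - y) ∈ Q := by
  obtain ⟨h1, h2, h3, h4, h5, h6⟩ := h
  simp only at h1 h2 h3 h4 h5 h6
  refine ⟨h1, ⟨by linarith [h2.2], by linarith [h2.1]⟩, h5, h6, ?_, ?_⟩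
  · simp only [sub_sub_cancel]; exact h3
  · simp only [sub_sub_cancel]; exact h4

lemma three_arc' {e1 e2 u1 u2 : ℝ} (he : e1 ^ 2 + e2 ^ 2 = 1) (hu : u1 ^ 2 + u2 ^ 2 = 1)
    (hdot : 1 / 2 ≤ e1 * u1 + e2 * u2) :
    ∃ w1 w2 : ℝ, (w1, w2) ∈ Q ∧ (e1 + w1, e2 + w2) ∈ Q ∧ (u1 + w1, u2 + w2) ∈ Q := by
  rcases le_total 0 (e1 * u2 - e2 * u1) with h | h
  · exact three_arc he hu hdot h
  · obtain ⟨w1, w2, a1, a2, a3⟩ := three_arc (e1 := e1) (e2 := -e2) (u1 := u1) (u2 := -u2)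
      (by linarith) (by linarith) (by linarith) (by linarith)
    refine ⟨w1, 1 - w2, Q_refl a1, ?_, ?_⟩
    · have := Q_refl a2
      rwa [show 1 - (-e2 + w2) = e2 + (1 - w2) by ring] at this
    · have := Q_refl a3
      rwa [show 1 - (-u2 + w2) = u2 + (1 - w2) by ring] at this

/-- scaling towards the vertex -/
lemma Q_seg {w1 w2 d1 d2 r : ℝ} (h0 : (w1, w2) ∈ Q) (h1 : (d1 + w1, d2 + w2) ∈ Q) (hr0 : 0 ≤ r)
    (hr1 : r ≤ 1) : (r * d1 + w1, r * d2 + w2) ∈ Q := by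
  have := conv_comb Q_convex h0 h1 (a := 1 - r) (b := r) (by linarith) hr0 (by ring)
  convert this using 1
  ext <;> simp <;> ring

/-- three points, the side opposite to the first one being the shortest -/
lemma three_aux {p1 p2 q1 q2 s1 s2 : ℝ} (hpq : sd p1 p2 q1 q2 ≤ 1) (hps : sd p1 p2 s1 s2 ≤ 1)
    (h1 : sd q1 q2 s1 s2 ≤ sd p1 p2 q1 q2) (h2 : sd q1 q2 s1 s2 ≤ sd p1 p2 s1 s2) :
    ∃ w1 w2 : ℝ, (p1 + w1, p2 + w2) ∈ Q ∧ (q1 + w1, q2 + w2) ∈ Q ∧ (s1 + w1, s2 + w2) ∈ Q := by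
  set a := Real.sqrt (sd p1 p2 q1 q2) with ha
  set b := Real.sqrt (sd p1 p2 s1 s2) with hb
  have sdn : ∀ x y z w : ℝ, 0 ≤ sd x y z w := fun x y z w => by unfold sd; positivity
  have ha2 : a ^ 2 = sd p1 p2 q1 q2 := Real.sq_sqrt (sdn _ _ _ _)
  have hb2 : b ^ 2 = sd p1 p2 s1 s2 := Real.sq_sqrt (sdn _ _ _ _)
  have ha0 : 0 ≤ a := Real.sqrt_nonneg _
  have hb0 : 0 ≤ b := Real.sqrt_nonneg _
  have ha1 : a ≤ 1 := by rw [ha]; exact Real.sqrt_le_one.2 hpq
  have hb1 : b ≤ 1 := by rw [hb]; exact Real.sqrt_le_one.2 hps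
  rcases eq_or_lt_of_le ha0 with h | hapos
  · -- p = q, then s = p
    have e1 : sd p1 p2 q1 q2 = 0 := by rw [← ha2, ← h]; norm_num
    have e2 : sd q1 q2 s1 s2 = 0 := le_antisymm (by linarith) (sdn _ _ _ _)
    unfold sd at e1 e2
    have f1 : p1 = q1 := by nlinarith [sq_nonneg (p1 - q1), sq_nonneg (p2 - q2)]
    have f2 : p2 = q2 := by nlinarith [sq_nonneg (p1 - q1), sq_nonneg (p2 - q2)]
    have f3 : q1 = s1 := by nlinarith [sq_nonneg (q1 - s1), sq_nonneg (q2 - s2)]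
    have f4 : q2 = s2 := by nlinarith [sq_nonneg (q1 - s1), sq_nonneg (q2 - s2)]
    obtain ⟨w1, w2, hw, -⟩ := three_arc' (e1 := 1) (e2 := 0) (u1 := 1) (u2 := 0) (by norm_num)
      (by norm_num) (by norm_num)
    refine ⟨w1 - p1, w2 - p2, ?_, ?_, ?_⟩
    · simpa using hw
    · rw [← f1, ← f2]; simpa using hw
    · rw [← f3, ← f4, ← f1, ← f2]; simpa using hw
  rcases eq_or_lt_of_le hb0 with h | hbpos
  · exfalso
    have e1 : sd p1 p2 s1 s2 = 0 := by rw [← hb2, ← h]; norm_num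
    have e2 : sd q1 q2 s1 s2 = 0 := le_antisymm (by linarith) (sdn _ _ _ _)
    have e3 : 0 < sd p1 p2 q1 q2 := by rw [← ha2]; positivity
    unfold sd at e1 e2 e3
    have f1 : p1 = s1 := by nlinarith [sq_nonneg (p1 - s1), sq_nonneg (p2 - s2)]
    have f2 : p2 = s2 := by nlinarith [sq_nonneg (p1 - s1), sq_nonneg (p2 - s2)]
    rw [f1, f2] at e3
    nlinarith
  · obtain ⟨w1, w2, c1, c2, c3⟩ := three_arc' (e1 := (q1 - p1) / a) (e2 := (q2 - p2) / a)
      (u1 := (s1 - p1) / b) (u2 := (s2 - p2) / b)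
      (by
        rw [div_pow, div_pow, ← add_div, div_eq_one_iff_eq (by positivity), ha2]; unfold sd; ring)
      (by
        rw [div_pow, div_pow, ← add_div, div_eq_one_iff_eq (by positivity), hb2]; unfold sd; ring)
      (by
        have e : (q1 - p1) / a * ((s1 - p1) / b) + (q2 - p2) / a * ((s2 - p2) / b)
          = ((q1 - p1) * (s1 - p1) + (q2 - p2) * (s2 - p2)) / (a * b) := by field_simp
        rw [e, le_div_iff₀ (by positivity)]
        have e2 : sd q1 q2 s1 s2 = a ^ 2 + b ^ 2 - 2 * ((q1 - p1) * (s1 - p1) + (q2 - p2) * (s2 - p2)) := by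
          rw [ha2, hb2]; unfold sd; ring
        rw [← ha2] at h1
        rw [← hb2] at h2
        rcases le_total a b with hab | hab
        · nlinarith
        · nlinarith)
    refine ⟨w1 - p1, w2 - p2, by simpa using c1, ?_, ?_⟩
    · have := Q_seg c1 c2 ha0 ha1
      have e1 : a * ((q1 - p1) / a) + w1 = q1 + (w1 - p1) := by field_simp; ring
      have e2 : a * ((q2 - p2) / a) + w2 = q2 + (w2 - p2) := by field_simp; ring
      rwa [e1, e2] at this
    · have := Q_seg c1 c3 hb0 hb1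
      have e1 : b * ((s1 - p1) / b) + w1 = s1 + (w1 - p1) := by field_simp; ring
      have e2 : b * ((s2 - p2) / b) + w2 = s2 + (w2 - p2) := by field_simp; ring
      rwa [e1, e2] at this

lemma sd_comm' (x1 y1 x2 y2 : ℝ) : sd x1 y1 x2 y2 = sd x2 y2 x1 y1 := by unfold sd; ring

lemma three (p q s : ℝ × ℝ) (hpq : sd p.1 p.2 q.1 q.2 ≤ 1) (hps : sd p.1 p.2 s.1 s.2 ≤ 1)
    (hqs : sd q.1 q.2 s.1 s.2 ≤ 1) : ∃ w : ℝ × ℝ, p + w ∈ Q ∧ q + w ∈ Q ∧ s + w ∈ Q := by
  rcases le_total (sd q.1 q.2 s.1 s.2) (sd p.1 p.2 q.1 q.2) with h1 | h1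
  · rcases le_total (sd q.1 q.2 s.1 s.2) (sd p.1 p.2 s.1 s.2) with h2 | h2
    · obtain ⟨w1, w2, a, b, c⟩ := three_aux hpq hps h1 h2
      exact ⟨(w1, w2), a, b, c⟩
    · -- ps smallest, q opposite
      obtain ⟨w1, w2, a, b, c⟩ := three_aux (p1 := q.1) (p2 := q.2) (q1 := p.1) (q2 := p.2)
        (s1 := s.1) (s2 := s.2) (by rw [sd_comm']; exact hpq) hqs
        (by rw [sd_comm' q.1]; linarith) h2
      exact ⟨(w1, w2), b, a, c⟩
  · rcases le_total (sd p.1 p.2 q.1 q.2) (sd p.1 p.2 s.1 s.2) with h2 | h2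
    · -- pq smallest, s opposite
      obtain ⟨w1, w2, a, b, c⟩ := three_aux (p1 := s.1) (p2 := s.2) (q1 := p.1) (q2 := p.2)
        (s1 := q.1) (s2 := q.2) (by rw [sd_comm']; exact hps) (by rw [sd_comm']; exact hqs)
        (by rw [sd_comm' s.1]; exact h2) (by rw [sd_comm' s.1]; exact h1)
      exact ⟨(w1, w2), b, c, a⟩
    · -- ps smallest
      obtain ⟨w1, w2, a, b, c⟩ := three_aux (p1 := q.1) (p2 := q.2) (q1 := p.1) (q2 := p.2)
        (s1 := s.1) (s2 := s.2) (by rw [sd_comm']; exact hpq) hqs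
        (by rw [sd_comm' q.1]; exact h2) (by linarith)
      exact ⟨(w1, w2), b, a, c⟩

/-- Helly -/
lemma cover_set (S : Set (ℝ × ℝ)) (hS : ∀ p ∈ S, ∀ q ∈ S, sd p.1 p.2 q.1 q.2 ≤ 1) :
    ∃ w : ℝ × ℝ, ∀ p ∈ S, p + w ∈ Q := by
  classical
  have hne : (⋂ p : S, (fun w : ℝ × ℝ => (p : ℝ × ℝ) + w) ⁻¹' Q).Nonempty := by
    apply Convex.helly_theorem_compact' (𝕜 := ℝ)
    · intro p
      exact Q_convex.translate_preimage_right _
    · intro p
      have e : (fun w : ℝ × ℝ => (p : ℝ × ℝ) + w) ⁻¹' Q = (Homeomorph.addLeft (p : ℝ × ℝ)) ⁻¹' Q := rfl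
      rw [e]
      exact (Homeomorph.isCompact_preimage _).2 Q_compact
    · intro I hI
      have hfr : Module.finrank ℝ (ℝ × ℝ) = 2 := by simp
      rw [hfr] at hI
      -- cases on the cardinality
      have hcases : I.card = 0 ∨ I.card = 1 ∨ I.card = 2 ∨ I.card = 3 := by omega
      rcases hcases with h | h | h | h
      · rw [Finset.card_eq_zero] at h
        subst h
        exact ⟨0, by simp⟩
      · rw [Finset.card_eq_one] at h
        obtain ⟨a, rfl⟩ := h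
        obtain ⟨w, h1, -, -⟩ := three a a a (by unfold sd; norm_num) (by unfold sd; norm_num) (by unfold sd; norm_num)
        refine ⟨w, ?_⟩
        simpa using h1
      · rw [Finset.card_eq_two] at h
        obtain ⟨a, b, -, rfl⟩ := h
        obtain ⟨w, h1, h2, -⟩ := three a b b (hS _ a.2 _ b.2) (hS _ a.2 _ b.2) (by unfold sd; norm_num)
        refine ⟨w, ?_⟩
        simp only [Finset.mem_insert, Finset.mem_singleton, iInter_iInter_eq_or_left, iInter_iInter_eq_left]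
        exact ⟨h1, h2⟩
      · rw [Finset.card_eq_three] at h
        obtain ⟨a, b, c, -, -, -, rfl⟩ := h
        obtain ⟨w, h1, h2, h3⟩ := three a b c (hS _ a.2 _ b.2) (hS _ a.2 _ c.2) (hS _ b.2 _ c.2)
        refine ⟨w, ?_⟩
        simp only [Finset.mem_insert, Finset.mem_singleton, iInter_iInter_eq_or_left, iInter_iInter_eq_left]
        exact ⟨h1, h2, h3⟩
  obtain ⟨w, hw⟩ := hne
  refine ⟨w, fun p hp => ?_⟩
  rw [mem_iInter] at hw
  exact hw ⟨p, hp⟩

lemma psi_add (b : OrthonormalBasis (Fin 2) ℝ E2) (x y : E2) :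
    psi b 0 (x + y) = psi b 0 x + psi b 0 y := by
  unfold psi
  simp only [sub_zero, inner_add_right, Prod.mk_add_mk]

/-- existence of the optimal cover -/
theorem cov_upper : ∃ K : Set E2, Convex ℝ K ∧
    (∀ S : Set E2, EMetric.diam S = 1 → ∃ v : E2, (fun x => x + v) '' S ⊆ K) ∧
    volume K = ENNReal.ofReal A0 := by
  set b := EuclideanSpace.basisFun (Fin 2) ℝ with hb
  have hpre : psi b 0 ⁻¹' Q = phi b 0 '' Q := by
    ext x
    constructor
    · intro h; exact ⟨psi b 0 x, h, phi_psi b 0 x⟩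
    · rintro ⟨z, hz, rfl⟩; rw [mem_preimage, psi_phi]; exact hz
  have hcl : IsClosed (psi b 0 ⁻¹' Q) := Q_closed.preimage (psi_cont b 0)
  refine ⟨psi b 0 ⁻¹' Q, ?_, ?_, ?_⟩
  · intro x hx y hy s t hs ht hst
    have := Q_convex hx hy hs ht hst
    rw [mem_preimage]
    convert this using 1
    unfold psi
    simp only [sub_zero, inner_add_right, inner_smul_right, Prod.smul_mk, Prod.mk_add_mk, smul_eq_mul]
  · intro S hS
    obtain ⟨w, hw⟩ := cover_set (psi b 0 '' S) (by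
      rintro _ ⟨x, hx, rfl⟩ _ ⟨y, hy, rfl⟩
      have h1 : edist x y ≤ EMetric.diam S := EMetric.edist_le_diam_of_mem hx hy
      rw [hS, edist_dist, dist_eq_norm, show (1 : ENNReal) = ENNReal.ofReal 1 by simp,
        ENNReal.ofReal_le_ofReal_iff (by norm_num)] at h1
      have h2 := phi_dist b 0 (psi b 0 x) (psi b 0 y)
      rw [phi_psi, phi_psi] at h2
      unfold sd
      rw [← h2]
      exact pow_le_one₀ (norm_nonneg _) h1)
    refine ⟨phi b 0 w, ?_⟩
    rintro _ ⟨x, hx, rfl⟩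
    have := hw _ ⟨x, hx, rfl⟩
    simp only [mem_preimage]
    have e : psi b 0 (x + phi b 0 w) = psi b 0 x + w := by
      rw [psi_add, psi_phi]
    rw [e]; exact this
  · rw [← phi_vol b 0 hcl.measurableSet, ← preimage_comp]
    have : psi b 0 ∘ phi b 0 = id := by ext1 z; exact psi_phi b 0 z
    rw [this, preimage_id]
    exact Q_area

end Pool.Agent.H77.Cov
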