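import Mathlib
import Pool.Agent.H77.Cov.Slice

set_option autoImplicit false
open MeasureTheory Set

namespace Pool.Agent.H77.Cov

variable {K : Set (ℝ × ℝ)} {p ts : ℝ}

lemma LLf (H : Strip K (1 + p) ts) (hC : Cov5 K) {x : ℝ} (hx : x ∈ Icc 0 cc) :
    ∃ v ∈ Icc 0 p, ∃ t, (v, af x + t) ∈ K ∧ (1 + v, af x + t) ∈ K ∧ (bf x + v, t) ∈ K ∧
      (bf x + v, t + 1) ∈ K ∧ (x + v, 1 - sps x + t) ∈ K := by
  obtain ⟨v, t, h1, h2, h3, h4, h5⟩ := cfg hC hx (fun u => u) (fun u => u) (fun u w => rfl) (fun u w => rfl)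
  have s1 := H.strip _ h1
  have s2 := H.strip _ h2
  simp only at s1 s2
  refine ⟨v, ⟨by linarith, by linarith⟩, t, by simpa using h1, h2, by simpa using h3, ?_, h5⟩
  rwa [add_comm t 1]

lemma ULf (H : Strip K (1 + p) ts) (hC : Cov5 K) {x : ℝ} (hx : x ∈ Icc 0 cc) :
    ∃ v ∈ Icc 0 p, ∃ t, (v, 1 - af x + t) ∈ K ∧ (1 + v, 1 - af x + t) ∈ K ∧ (bf x + v, t) ∈ K ∧
      (bf x + v, t + 1) ∈ K ∧ (x + v, sps x + t) ∈ K := by
  obtain ⟨v, t, h1, h2, h3, h4, h5⟩ := cfg hC hx (fun u => u) (fun u => 1 - u) (fun u w => rfl)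
    (fun u w => by ring)
  have s1 := H.strip _ h1
  have s2 := H.strip _ h2
  simp only at s1 s2 h3 h4 h5
  refine ⟨v, ⟨by linarith, by linarith⟩, t, by simpa using h1, h2, by simpa using h4, ?_, ?_⟩
  · rw [add_comm t 1]; simpa using h3
  · simpa using h5

lemma LRf (H : Strip K (1 + p) ts) (hC : Cov5 K) {x : ℝ} (hx : x ∈ Icc 0 cc) :
    ∃ v ∈ Icc 0 p, ∃ t, (1 - bf x + v, t) ∈ K ∧
      (1 - bf x + v, t + 1) ∈ K ∧ (1 - x + v, 1 - sps x + t) ∈ K := by
  obtain ⟨v, t, h1, h2, h3, h4, h5⟩ := cfg hC hx (fun u => 1 - u) (fun u => u) (fun u w => by ring)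
    (fun u w => rfl)
  have s1 := H.strip _ h1
  have s2 := H.strip _ h2
  simp only at s1 s2 h3 h4 h5
  refine ⟨v, ⟨by linarith, by linarith⟩, t, by simpa using h3, ?_, h5⟩
  rwa [add_comm t 1]

lemma URf (H : Strip K (1 + p) ts) (hC : Cov5 K) {x : ℝ} (hx : x ∈ Icc 0 cc) :
    ∃ v ∈ Icc 0 p, ∃ t, (1 - bf x + v, t) ∈ K ∧
      (1 - bf x + v, t + 1) ∈ K ∧ (1 - x + v, sps x + t) ∈ K := by
  obtain ⟨v, t, h1, h2, h3, h4, h5⟩ := cfg hC hx (fun u => 1 - u) (fun u => 1 - u) (fun u w => by ring)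
    (fun u w => by ring)
  have s1 := H.strip _ h1
  have s2 := H.strip _ h2
  simp only at s1 s2 h3 h4 h5
  refine ⟨v, ⟨by linarith, by linarith⟩, t, by simpa using h4, ?_, ?_⟩
  · rw [add_comm t 1]; simpa using h3
  · simpa using h5

lemma cc_mem0 : (0 : ℝ) ∈ Icc 0 cc := ⟨le_rfl, by linarith [cc_gt]⟩
lemma cc_mem1 : cc ∈ Icc 0 cc := ⟨by linarith [cc_gt], le_rfl⟩

lemma sf_cc : sf cc = 1 / 2 := by
  unfold sf cc
  rw [show 2 * (1 - Real.sqrt 3 / 2) - (1 - Real.sqrt 3 / 2) ^ 2 = (1 / 2) ^ 2 by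
    have := s3_sq; linear_combination (-(1:ℝ) / 4) * this]
  exact Real.sqrt_sq (by norm_num)
lemma bf_cc : bf cc = cc := by
  unfold bf; rw [sf_cc]; unfold cc; ring

/-- the set where the vertical chord has length at least one -/
def Sset (K : Set (ℝ × ℝ)) : Set ℝ := {x | ∃ y, (x, y) ∈ K ∧ (x, y + 1) ∈ K}

lemma Sset_compact (hK : IsCompact K) : IsCompact (Sset K) := by
  have h1 : IsCompact (K ∩ (fun z : ℝ × ℝ => (z.1, z.2 + 1)) ⁻¹' K) :=
    hK.inter_right (hK.isClosed.preimage (by fun_prop))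
  have h2 := h1.image continuous_fst
  convert h2 using 1
  ext x
  constructor
  · rintro ⟨y, h⟩; exact ⟨(x, y), h, rfl⟩
  · rintro ⟨⟨x', y⟩, h, rfl⟩; exact ⟨y, h⟩

lemma Sset_of (H : Strip K (1 + p) ts) {x : ℝ} (hx : x ∈ Icc 0 (1 + p)) (hV : 1 ≤ Tf K x - Bf K x) :
    x ∈ Sset K :=
  ⟨Bf K x, H.bmem hx, slice_mem H.comp H.conv (H.mid hx) (by linarith) (by linarith)⟩

lemma Sset_V (H : Strip K (1 + p) ts) {x : ℝ} (hx : x ∈ Sset K) :
    x ∈ Icc 0 (1 + p) ∧ 1 ≤ Tf K x - Bf K x := by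
  obtain ⟨y, h1, h2⟩ := hx
  refine ⟨⟨(H.strip _ h1).1, (H.strip _ h1).2⟩, ?_⟩
  have a1 := Bf_le H.comp h1
  have a2 := le_Tf H.comp h2
  linarith

theorem frame_pkg (hp : 0 ≤ p) (hp1 : p ≤ 0.1405) (H : Strip K (1 + p) ts)
    (hC : Cov5 K) {v0 y0 v6 y6 : ℝ} (hv0 : v0 ∈ Icc 0 p) (hv6 : v6 ∈ Icc 0 p)
    (h0a : (v0, cc + y0) ∈ K) (h0b : (1 + v0, cc + y0) ∈ K) (h0c : (1 / 2 + v0, 1 + y0) ∈ K)
    (h6a : (v6, 1 - cc + y6) ∈ K) (h6b : (1 + v6, 1 - cc + y6) ∈ K) (h6c : (1 / 2 + v6, y6) ∈ K) :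
    ∃ κ τ S0 S1, Pkg p κ τ S0 S1 v0 y0 v6 y6 ts (fun x => Tf K x - 1 - (κ * x + τ))
      (fun x => (κ * x + τ) - Bf K x) := by
  have hc1 := cc_gt
  have hc2 := cc_lt
  -- the set S
  obtain ⟨w1, hw1, t1, -, -, hl1, hl2, -⟩ := LLf H hC cc_mem1
  obtain ⟨w2, hw2, t2, hr1, hr2, -⟩ := LRf H hC cc_mem1
  rw [bf_cc] at hl1 hl2 hr1 hr2
  have hm1 : cc + w1 ∈ Sset K := ⟨t1, hl1, hl2⟩
  have hm2 : 1 - cc + w2 ∈ Sset K := ⟨t2, hr1, hr2⟩
  obtain ⟨S0, hS0⟩ := (Sset_compact H.comp).exists_isLeast ⟨_, hm1⟩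
  obtain ⟨S1, hS1⟩ := (Sset_compact H.comp).exists_isGreatest ⟨_, hm1⟩
  have b0 : S0 ≤ cc + p := by linarith [hS0.2 hm1, hw1.2]
  have b1 : 1 - cc ≤ S1 := by linarith [hS1.2 hm2, hw2.1]
  have h01 : S0 < S1 := by linarith
  obtain ⟨i0, V0⟩ := Sset_V H hS0.1
  obtain ⟨i1, V1⟩ := Sset_V H hS1.1
  have hT := H.concT
  have hB := H.convB.neg
  -- affine function
  set κ := (Bf K S1 - Bf K S0) / (S1 - S0) with hκ
  set τ := Bf K S0 - κ * S0 with hτ
  have hd : 0 < S1 - S0 := by linarith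
  have hA0 : κ * S0 + τ = Bf K S0 := by rw [hτ]; ring
  have hA1 : κ * S1 + τ = Bf K S1 := by
    rw [hτ, hκ]; field_simp; ring
  refine ⟨κ, τ, S0, S1, ?_⟩
  have hg : ConcaveOn ℝ (Icc 0 (1 + p)) (fun x => Tf K x - 1 - (κ * x + τ)) := by
    have := hT.add (conc_affine (1 + p) (-κ) (-1 - τ))
    apply this.congr
    intro y _
    simp only [Pi.add_apply]
    ring
  have hh : ConcaveOn ℝ (Icc 0 (1 + p)) (fun x => (κ * x + τ) - Bf K x) := by
    have := hB.add (conc_affine (1 + p) κ τ)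
    apply this.congr
    intro y _
    simp only [Pi.add_apply, Pi.neg_apply]
    ring
  have hgS : ∀ x ∈ Icc S0 S1, 0 ≤ Tf K x - 1 - (κ * x + τ) := by
    intro x hx
    exact conc_min hg (a := S0) (b := S1) i0.1 hx.1 hx.2 i1.2 (by rw [hA0]; linarith)
      (by rw [hA1]; linarith)
  have hhS : ∀ x ∈ Icc S0 S1, 0 ≤ (κ * x + τ) - Bf K x := by
    intro x hx
    exact conc_min hh (a := S0) (b := S1) i0.1 hx.1 hx.2 i1.2 (by rw [hA0]; linarith)
      (by rw [hA1]; linarith)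
  have hS : ∀ {x : ℝ}, x ∈ Sset K → x ∈ Icc S0 S1 := fun hx => ⟨hS0.2 hx, hS1.2 hx⟩
  have m0 : (0:ℝ) ∈ Icc 0 (1 + p) := ⟨le_rfl, by linarith⟩
  have m1 : 1 + p ∈ Icc 0 (1 + p) := ⟨by linarith, le_rfl⟩
  refine
    { hp := hp, hp1 := hp1, hg := hg, hh := hh, hS0 := i0.1, hS0' := b0, hS1 := b1, hS1' := i1.2,
      gS := hgS, hS := hhS, hv0 := hv0, hv6 := hv6, eS0 := ?_, eS1 := ?_, hV0 := ?_, hV1 := ?_,
      LL := ?_, UL := ?_, LR := ?_, UR := ?_, tT0 := ?_, tT1 := ?_, tB0 := ?_, tB1 := ?_,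
      x0a := ?_, x0b := ?_, x0c := ?_, x6a := ?_, x6b := ?_, x6c := ?_ }
  · rcases eq_or_lt_of_le i0.1 with h | h
    · left; exact h.symm
    · right
      have hV : Tf K S0 - Bf K S0 = 1 := by
        by_contra hne
        have hgt : 1 < Tf K S0 - Bf K S0 := lt_of_le_of_ne V0 (Ne.symm hne)
        set V := Tf K S0 - Bf K S0 with hVd
        have hx : S0 / V ∈ Icc 0 (1 + p) := ⟨by positivity, by
          have : S0 / V ≤ S0 := div_le_self h.le hgt.le
          linarith [i0.2]⟩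
        have c1 := conc3 hT (x := 0) (y := S0 / V) (z := S0) le_rfl hx.1 (div_le_self h.le hgt.le) i0.2
        have c2 := conc3 hB (x := 0) (y := S0 / V) (z := S0) le_rfl hx.1 (div_le_self h.le hgt.le) i0.2
        simp only [Pi.neg_apply, sub_zero] at c1 c2
        have n0 := H.B_le_T m0
        have hle : S0 / V < S0 := div_lt_self h hgt
        have c3 : S0 ≤ S0 * (Tf K (S0 / V) - Bf K (S0 / V)) := by
          have e : S0 / V * V = S0 := by field_simp
          have c4 : 0 ≤ (S0 - S0 / V) * (Tf K 0 - Bf K 0) := mul_nonneg (by linarith) (by linarith)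
          have c5 : S0 / V * (Tf K S0 - Bf K S0) = S0 := by rw [← hVd]; exact e
          nlinarith
        have c6 : 1 ≤ Tf K (S0 / V) - Bf K (S0 / V) := by
          by_contra hc
          push Not at hc
          nlinarith
        have := hS0.2 (Sset_of H hx c6)
        linarith
      constructor
      · rw [hA0]; linarith
      · rw [hA0]; ring
  · rcases eq_or_lt_of_le i1.2 with h | h
    · left; exact h
    · right
      have hV : Tf K S1 - Bf K S1 = 1 := by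
        by_contra hne
        have hgt : 1 < Tf K S1 - Bf K S1 := lt_of_le_of_ne V1 (Ne.symm hne)
        set V := Tf K S1 - Bf K S1 with hVd
        set M := 1 + p - S1 with hM
        have hMpos : 0 < M := by rw [hM]; linarith
        have hMV : M / V < M := div_lt_self hMpos hgt
        have hMV0 : 0 < M / V := by positivity
        have hx : 1 + p - M / V ∈ Icc 0 (1 + p) := ⟨by rw [hM] at hMV ⊢; linarith [i1.1], by linarith⟩
        have hx1 : S1 ≤ 1 + p - M / V := by linarith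
        have c1 := conc3 hT (x := S1) (y := 1 + p - M / V) (z := 1 + p) i1.1 hx1 hx.2 le_rfl
        have c2 := conc3 hB (x := S1) (y := 1 + p - M / V) (z := 1 + p) i1.1 hx1 hx.2 le_rfl
        simp only [Pi.neg_apply] at c1 c2
        have n0 := H.B_le_T m1
        have c3 : M ≤ M * (Tf K (1 + p - M / V) - Bf K (1 + p - M / V)) := by
          have e : M / V * V = M := by field_simp
          have c4 : 0 ≤ (1 + p - M / V - S1) * (Tf K (1 + p) - Bf K (1 + p)) :=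
            mul_nonneg (by linarith) (by linarith)
          have c5 : (1 + p - (1 + p - M / V)) * (Tf K S1 - Bf K S1) = M := by
            rw [← hVd]; linarith
          rw [show 1 + p - S1 = M from rfl] at c1 c2
          nlinarith
        have c6 : 1 ≤ Tf K (1 + p - M / V) - Bf K (1 + p - M / V) := by
          by_contra hc
          push Not at hc
          nlinarith
        have := hS1.2 (Sset_of H hx c6)
        linarith
      constructor
      · rw [hA1]; linarith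
      · rw [hA1]; ring
  · have := H.B_le_T m0; linarith
  · have := H.B_le_T m1; linarith
  · intro x hx
    obtain ⟨v, hv, t, -, -, k1, k2, k3⟩ := LLf H hC hx
    refine ⟨v, hv, hS ⟨t, k1, k2⟩, ?_⟩
    have l2 := le_Tf H.comp k2
    have l3 := Bf_le H.comp k3
    have e := bf_sub x
    have : κ * cps x = κ * bf x - κ * x := by rw [← e]; ring
    linarith
  · intro x hx
    obtain ⟨v, hv, t, -, -, k1, k2, k3⟩ := ULf H hC hx
    refine ⟨v, hv, hS ⟨t, k1, k2⟩, ?_⟩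
    have l2 := Bf_le H.comp k1
    have l3 := le_Tf H.comp k3
    have e := bf_sub x
    have : κ * cps x = κ * bf x - κ * x := by rw [← e]; ring
    linarith
  · intro x hx
    obtain ⟨v, hv, t, k1, k2, k3⟩ := LRf H hC hx
    refine ⟨v, hv, hS ⟨t, k1, k2⟩, ?_⟩
    have l2 := le_Tf H.comp k2
    have l3 := Bf_le H.comp k3
    have e := bf_sub x
    have : κ * cps x = κ * bf x - κ * x := by rw [← e]; ring
    linarith
  · intro x hx
    obtain ⟨v, hv, t, k1, k2, k3⟩ := URf H hC hx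
    refine ⟨v, hv, hS ⟨t, k1, k2⟩, ?_⟩
    have l2 := Bf_le H.comp k1
    have l3 := le_Tf H.comp k3
    have e := bf_sub x
    have : κ * cps x = κ * bf x - κ * x := by rw [← e]; ring
    linarith
  · have := le_Tf H.comp H.left; linarith
  · have := le_Tf H.comp H.right; linarith
  · have := Bf_le H.comp H.left; linarith
  · have := Bf_le H.comp H.right; linarith
  · have := Bf_le H.comp h0a; linarith
  · have := Bf_le H.comp h0b; linarith
  · have := le_Tf H.comp h0c; linarith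
  · have := le_Tf H.comp h6a; linarith
  · have := le_Tf H.comp h6b; linarith
  · have := Bf_le H.comp h6c; linarith

end Pool.Agent.H77.Cov
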