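import Mathlib
import Pool.Agent.H77.Cov.Frame

set_option autoImplicit false
open MeasureTheory Set

namespace Pool.Agent.H77.Cov

/-- Euclidean norm on `ℝ × ℝ` -/
noncomputable def N2 (s : ℝ × ℝ) : ℝ := Real.sqrt (s.1 ^ 2 + s.2 ^ 2)

lemma N2_ge (s : ℝ × ℝ) {a b : ℝ} (h : a ^ 2 + b ^ 2 = 1) : a * s.1 + b * s.2 ≤ N2 s := by
  unfold N2
  have : (a * s.1 + b * s.2) ^ 2 ≤ s.1 ^ 2 + s.2 ^ 2 := by
    have : (a * s.1 + b * s.2) ^ 2 + (a * s.2 - b * s.1) ^ 2 = (a ^ 2 + b ^ 2) * (s.1 ^ 2 + s.2 ^ 2) := by ring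
    rw [h] at this
    nlinarith [sq_nonneg (a * s.2 - b * s.1)]
  exact (le_abs_self _).trans (Real.abs_le_sqrt this)

/-- mixed area inequality for zonotopes in `K` -/
def MixHyp (K : Set (ℝ × ℝ)) (p A : ℝ) : Prop := ∀ o s1 s2 s3 : ℝ × ℝ,
  o ∈ K → o + s1 ∈ K → o + s2 ∈ K → o + s3 ∈ K → o + s1 + s2 ∈ K → o + s1 + s3 ∈ K →
  o + s2 + s3 ∈ K → o + s1 + s2 + s3 ∈ K → (1 + p) * (N2 s1 + N2 s2 + N2 s3) ≤ 2 * A

lemma MixHyp.par {K : Set (ℝ × ℝ)} {p A : ℝ} (hM : MixHyp K p A) {o s1 s2 : ℝ × ℝ}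
    (h0 : o ∈ K) (h1 : o + s1 ∈ K) (h2 : o + s2 ∈ K) (h3 : o + s1 + s2 ∈ K) :
    (1 + p) * (N2 s1 + N2 s2) ≤ 2 * A := by
  have := hM o s1 s2 0 h0 h1 h2 (by simpa using h0) h3 (by simpa using h1) (by simpa using h2)
    (by simpa using h3)
  have e : N2 (0 : ℝ × ℝ) = 0 := by unfold N2; simp
  rwa [e, add_zero] at this

lemma comb3 {K : Set (ℝ × ℝ)} (hK : Convex ℝ K) {x y z : ℝ × ℝ} {α β : ℝ} (hx : x ∈ K) (hy : y ∈ K)
    (hz : z ∈ K) (hα : 0 ≤ α) (hβ : 0 ≤ β) :
    (1 + α + β)⁻¹ • (x + α • y + β • z) ∈ K := by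
  have hpos : 0 < 1 + α + β := by linarith
  have h1 : ((1 + α)⁻¹ • x + ((1 + α)⁻¹ * α) • y) ∈ K := by
    apply hK hx hy
    · positivity
    · positivity
    · field_simp
  have h2 : ((1 + α + β)⁻¹ * (1 + α)) • ((1 + α)⁻¹ • x + ((1 + α)⁻¹ * α) • y) +
      ((1 + α + β)⁻¹ * β) • z ∈ K := by
    apply hK h1 hz
    · positivity
    · positivity
    · field_simp
  have e : (1 + α + β)⁻¹ • (x + α • y + β • z) =
      ((1 + α + β)⁻¹ * (1 + α)) • ((1 + α)⁻¹ • x + ((1 + α)⁻¹ * α) • y) +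
      ((1 + α + β)⁻¹ * β) • z := by
    have h1a : (1 + α) ≠ 0 := by positivity
    simp only [smul_add, smul_smul]
    congr 1
    · congr 1
      · congr 1; field_simp
      · congr 1; field_simp
  rw [e]; exact h2

theorem frame_main {K : Set (ℝ × ℝ)} {p ts A : ℝ} (hp : 0 ≤ p) (H : Strip K (1 + p) ts)
    (hC : Cov5 K) (hA : A = ∫ x in (0:ℝ)..(1 + p), (Tf K x - Bf K x)) (hM : MixHyp K p A) :
    A0 ≤ A := by
  by_contra hcon
  push Not at hcon
  have hc1 := cc_gt
  have hc2 := cc_lt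
  have hr := s3_sq
  have hr1 := s3_gt
  have hr2 := s3_lt
  have hA0 := A0_lt
  have hccs : cc = 1 - Real.sqrt 3 / 2 := rfl
  obtain ⟨v0, hv0, y0, h0a, h0b, -, h0c, -⟩ := LLf H hC cc_mem0
  obtain ⟨v6, hv6, y6, h6a, h6b, h6c, -, -⟩ := ULf H hC cc_mem0
  rw [af_zero] at h0a h0b h6a h6b
  rw [bf_zero] at h0c h6c
  rw [add_comm y0 1] at h0c
  -- p and offset bounds
  have key : p ≤ 0.1405 ∧ (0.1 ≤ p → (1 + p) * (0.9 - 0.4 * cc + 0.1 * (y0 - y6)) ≤ A0) := by
    rcases le_total y0 y6 with hd | hd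
    · -- d ≤ 0
      have h := hM.par (o := (v0, cc + y0)) (s1 := (1, 0)) (s2 := (v6 - v0, 1 - 2 * cc + y6 - y0))
        h0a (by simpa [add_comm] using h0b)
        (by
          have e : ((v0, cc + y0) : ℝ × ℝ) + (v6 - v0, 1 - 2 * cc + y6 - y0) = (v6, 1 - cc + y6) := by
            ext <;> simp <;> ring
          rw [e]; exact h6a)
        (by
          have e : ((v0, cc + y0) : ℝ × ℝ) + (1, 0) + (v6 - v0, 1 - 2 * cc + y6 - y0) = (1 + v6, 1 - cc + y6) := by
            ext <;> simp <;> ring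
          rw [e]; exact h6b)
      have n1 := N2_ge ((1, 0) : ℝ × ℝ) (a := 1) (b := 0) (by norm_num)
      have n2 := N2_ge ((v6 - v0, 1 - 2 * cc + y6 - y0) : ℝ × ℝ) (a := 0) (b := 1) (by norm_num)
      simp only at n1 n2
      have n3 : (1 + p) * (2 - 2 * cc + (y6 - y0)) ≤ 2 * A := by
        refine le_trans (mul_le_mul_of_nonneg_left ?_ (by linarith)) h
        linarith
      have n4 : 0 ≤ (1 + p) * (y6 - y0) := mul_nonneg (by linarith) (by linarith)
      constructor
      · by_contra hc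
        push Not at hc
        nlinarith
      · intro _
        nlinarith
    · -- d ≥ 0
      rcases lt_or_ge ((1 - 2 * cc - (y0 - y6)) / 2 + Real.sqrt 3 / 2 * (v0 - v6)) 0 with hB | hB
      · have h := hM.par (o := (1 / 2 + v6, y6)) (s1 := (v0 - v6 - 1 / 2, cc + (y0 - y6)))
          (s2 := (1 / 2, Real.sqrt 3 / 2)) h6c
          (by
            have e : ((1 / 2 + v6, y6) : ℝ × ℝ) + (v0 - v6 - 1 / 2, cc + (y0 - y6)) = (v0, cc + y0) := by
              ext <;> simp <;> ring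
            rw [e]; exact h0a)
          (by
            have e : ((1 / 2 + v6, y6) : ℝ × ℝ) + (1 / 2, Real.sqrt 3 / 2) = (1 + v6, 1 - cc + y6) := by
              rw [hccs]; ext <;> simp <;> ring
            rw [e]; exact h6b)
          (by
            have e : ((1 / 2 + v6, y6) : ℝ × ℝ) + (v0 - v6 - 1 / 2, cc + (y0 - y6)) + (1 / 2, Real.sqrt 3 / 2)
                = (1 / 2 + v0, 1 + y0) := by
              rw [hccs]; ext <;> simp <;> ring
            rw [e]; exact h0c)
        have n1 := N2_ge ((v0 - v6 - 1 / 2, cc + (y0 - y6)) : ℝ × ℝ) (a := -(Real.sqrt 3 / 2)) (b := 1 / 2)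
          (by linear_combination hr / 4)
        have n2 := N2_ge ((1 / 2, Real.sqrt 3 / 2) : ℝ × ℝ) (a := 1 / 2) (b := Real.sqrt 3 / 2)
          (by linear_combination hr / 4)
        simp only at n1 n2
        have n3 : (1 + p) * (1 + 0.866) ≤ 2 * A := by
          refine le_trans (mul_le_mul_of_nonneg_left ?_ (by linarith)) h
          nlinarith
        constructor
        · by_contra hc
          push Not at hc
          nlinarith
        · intro hp1
          nlinarith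
      rcases lt_or_ge ((1 - 2 * cc - (y0 - y6)) / 2 - Real.sqrt 3 / 2 * (v0 - v6)) 0 with hB' | hB'
      · have h := hM.par (o := (1 / 2 + v6, y6)) (s1 := (v0 - v6 + 1 / 2, cc + (y0 - y6)))
          (s2 := (-(1 / 2), Real.sqrt 3 / 2)) h6c
          (by
            have e : ((1 / 2 + v6, y6) : ℝ × ℝ) + (v0 - v6 + 1 / 2, cc + (y0 - y6)) = (1 + v0, cc + y0) := by
              ext <;> simp <;> ring
            rw [e]; exact h0b)
          (by
            have e : ((1 / 2 + v6, y6) : ℝ × ℝ) + (-(1 / 2), Real.sqrt 3 / 2) = (v6, 1 - cc + y6) := by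
              rw [hccs]; ext <;> simp <;> ring
            rw [e]; exact h6a)
          (by
            have e : ((1 / 2 + v6, y6) : ℝ × ℝ) + (v0 - v6 + 1 / 2, cc + (y0 - y6)) + (-(1 / 2), Real.sqrt 3 / 2)
                = (1 / 2 + v0, 1 + y0) := by
              rw [hccs]; ext <;> simp <;> ring
            rw [e]; exact h0c)
        have n1 := N2_ge ((v0 - v6 + 1 / 2, cc + (y0 - y6)) : ℝ × ℝ) (a := (Real.sqrt 3 / 2)) (b := 1 / 2)
          (by linear_combination hr / 4)
        have n2 := N2_ge ((-(1 / 2), Real.sqrt 3 / 2) : ℝ × ℝ) (a := -(1 / 2)) (b := Real.sqrt 3 / 2)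
          (by linear_combination hr / 4)
        simp only at n1 n2
        have n3 : (1 + p) * (1 + 0.866) ≤ 2 * A := by
          refine le_trans (mul_le_mul_of_nonneg_left ?_ (by linarith)) h
          nlinarith
        constructor
        · by_contra hc
          push Not at hc
          nlinarith
        · intro hp1
          nlinarith
      -- hexagon
      set Δ := v0 - v6 with hΔ
      set d := y0 - y6 with hd'
      have hcd : 0 < cc + d := by linarith
      set α := ((1 - 2 * cc - d) / 2 - Real.sqrt 3 / 2 * Δ) / (cc + d) with hα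
      set β := ((1 - 2 * cc - d) / 2 + Real.sqrt 3 / 2 * Δ) / (cc + d) with hβ
      have hα0 : 0 ≤ α := div_nonneg hB' hcd.le
      have hβ0 : 0 ≤ β := div_nonneg hB hcd.le
      have hα1 : α * (cc + d) = (1 - 2 * cc - d) / 2 - Real.sqrt 3 / 2 * Δ := by
        rw [hα]; field_simp
      have hβ1 : β * (cc + d) = (1 - 2 * cc - d) / 2 + Real.sqrt 3 / 2 * Δ := by
        rw [hβ]; field_simp
      have E1 : α * (1 / 2 + Δ) + β * (Δ - 1 / 2) = -Δ := by
        have : (α * (1 / 2 + Δ) + β * (Δ - 1 / 2)) * (cc + d) = -Δ * (cc + d) := by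
          have : (α * (1 / 2 + Δ) + β * (Δ - 1 / 2)) * (cc + d)
            = (α * (cc + d)) * (1 / 2 + Δ) + (β * (cc + d)) * (Δ - 1 / 2) := by ring
          rw [this, hα1, hβ1, hccs]; ring
        exact mul_right_cancel₀ hcd.ne' this
      have E2 : α * (cc + d) + β * (cc + d) = 1 - 2 * cc - d := by rw [hα1, hβ1]; ring
      have hs0 : (1 + α + β) ≠ 0 := by positivity
      have q1 : ((1 / 2 + v6, y6) : ℝ × ℝ) + (-Δ, 1 - 2 * cc - d) ∈ K := by
        have := comb3 H.conv h6c h6b h6a hα0 hβ0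
        have e : ((1 / 2 + v6, y6) : ℝ × ℝ) + (-Δ, 1 - 2 * cc - d) =
          (1 + α + β)⁻¹ • (((1 / 2 + v6, y6) : ℝ × ℝ) + α • (1 + v6, 1 - cc + y6) + β • (v6, 1 - cc + y6)) := by
          rw [eq_inv_smul_iff₀ hs0]
          ext
          · simp only [Prod.smul_fst, Prod.fst_add, smul_eq_mul]
            linear_combination (-1:ℝ) * E1
          · simp only [Prod.smul_snd, Prod.snd_add, smul_eq_mul]
            linear_combination (-1:ℝ) * E2
        rw [e]; exact this
      have q2 : ((1 / 2 + v6, y6) : ℝ × ℝ) + (1 / 2 + Δ, cc + d) + (Δ - 1 / 2, cc + d) ∈ K := by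
        have := comb3 H.conv h0c h0a h0b hα0 hβ0
        have e : ((1 / 2 + v6, y6) : ℝ × ℝ) + (1 / 2 + Δ, cc + d) + (Δ - 1 / 2, cc + d) =
          (1 + α + β)⁻¹ • (((1 / 2 + v0, 1 + y0) : ℝ × ℝ) + α • (v0, cc + y0) + β • (1 + v0, cc + y0)) := by
          rw [eq_inv_smul_iff₀ hs0]
          have hv : v0 = v6 + Δ := by rw [hΔ]; ring
          have hy : y0 = y6 + d := by rw [hd']; ring
          rw [hv, hy]
          ext
          · simp only [Prod.smul_fst, Prod.fst_add, smul_eq_mul]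
            linear_combination E1
          · simp only [Prod.smul_snd, Prod.snd_add, smul_eq_mul]
            linear_combination E2
        rw [e]; exact this
      have h := hM (1 / 2 + v6, y6) (1 / 2 + Δ, cc + d) (-Δ, 1 - 2 * cc - d) (Δ - 1 / 2, cc + d)
        h6c
        (by
          have e : ((1 / 2 + v6, y6) : ℝ × ℝ) + (1 / 2 + Δ, cc + d) = (1 + v0, cc + y0) := by
            rw [hΔ, hd']; ext <;> simp <;> ring
          rw [e]; exact h0b)
        q1
        (by
          have e : ((1 / 2 + v6, y6) : ℝ × ℝ) + (Δ - 1 / 2, cc + d) = (v0, cc + y0) := by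
            rw [hΔ, hd']; ext <;> simp <;> ring
          rw [e]; exact h0a)
        (by
          have e : ((1 / 2 + v6, y6) : ℝ × ℝ) + (1 / 2 + Δ, cc + d) + (-Δ, 1 - 2 * cc - d) = (1 + v6, 1 - cc + y6) := by
            rw [hΔ, hd']; ext <;> simp <;> ring
          rw [e]; exact h6b)
        q2
        (by
          have e : ((1 / 2 + v6, y6) : ℝ × ℝ) + (-Δ, 1 - 2 * cc - d) + (Δ - 1 / 2, cc + d) = (v6, 1 - cc + y6) := by
            rw [hΔ, hd']; ext <;> simp <;> ring
          rw [e]; exact h6a)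
        (by
          have e : ((1 / 2 + v6, y6) : ℝ × ℝ) + (1 / 2 + Δ, cc + d) + (-Δ, 1 - 2 * cc - d) + (Δ - 1 / 2, cc + d)
              = (1 / 2 + v0, 1 + y0) := by
            rw [hΔ, hd']; ext <;> simp <;> ring
          rw [e]; exact h0c)
      constructor
      · have n1 := N2_ge ((1 / 2 + Δ, cc + d) : ℝ × ℝ) (a := Real.sqrt 3 / 2) (b := 1 / 2)
          (by linear_combination hr / 4)
        have n2 := N2_ge ((-Δ, 1 - 2 * cc - d) : ℝ × ℝ) (a := 0) (b := 1) (by norm_num)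
        have n3 := N2_ge ((Δ - 1 / 2, cc + d) : ℝ × ℝ) (a := -(Real.sqrt 3 / 2)) (b := 1 / 2)
          (by linear_combination hr / 4)
        simp only at n1 n2 n3
        have n4 : (1 + p) * Real.sqrt 3 ≤ 2 * A := by
          refine le_trans (mul_le_mul_of_nonneg_left ?_ (by linarith)) h
          linarith
        by_contra hc
        push Not at hc
        nlinarith
      · intro _
        have n1 := N2_ge ((1 / 2 + Δ, cc + d) : ℝ × ℝ) (a := 4 / 5) (b := 3 / 5) (by norm_num)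
        have n2 := N2_ge ((-Δ, 1 - 2 * cc - d) : ℝ × ℝ) (a := 0) (b := 1) (by norm_num)
        have n3 := N2_ge ((Δ - 1 / 2, cc + d) : ℝ × ℝ) (a := -(4 / 5)) (b := 3 / 5) (by norm_num)
        simp only at n1 n2 n3
        have n4 : (1 + p) * (2 * (0.9 - 0.4 * cc + 0.1 * d)) ≤ 2 * A := by
          refine le_trans (mul_le_mul_of_nonneg_left ?_ (by linarith)) h
          linarith
        linarith
  obtain ⟨hp1, hδ⟩ := key
  obtain ⟨κ, τ, S0, S1, P⟩ := frame_pkg hp hp1 H hC hv0 hv6 h0a h0b h0c h6a h6b h6c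
  have hmain := P.main hδ
  have e : ∫ y in (0:ℝ)..(1 + p), (1 + (Tf K y - 1 - (κ * y + τ)) + (κ * y + τ - Bf K y))
      = ∫ x in (0:ℝ)..(1 + p), (Tf K x - Bf K x) := by
    congr 1; ext y; ring
  rw [e, ← hA] at hmain
  linarith

end Pool.Agent.H77.Cov
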