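import Mathlib
import Pool.Agent.H77.Cov.Mixed

set_option autoImplicit false
open MeasureTheory Set
open scoped RealInnerProductSpace Pointwise

namespace Pool.Agent.H77.Cov

/-- a direction of minimal width: there is a chord in that direction whose length is the minimal
width -/
theorem min_width {K : Set E2} (hc : IsCompact K) (hv : Convex ℝ K) (hne : K.Nonempty) :
    ∃ (u : E2) (ω : ℝ) (P : E2), ‖u‖ = 1 ∧ 0 ≤ ω ∧ Wid K ω ∧ P ∈ K ∧ P + ω • u ∈ K ∧
      ∀ z ∈ K, ⟪u, P⟫ ≤ ⟪u, z⟫ ∧ ⟪u, z⟫ ≤ ⟪u, P⟫ + ω := by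
  have hD : IsCompact (K - K) := by
    have := (hc.prod hc).image (continuous_fst.sub continuous_snd)
    convert this using 1
    ext z
    constructor
    · rintro ⟨x, hx, y, hy, rfl⟩; exact ⟨(x, y), ⟨hx, hy⟩, rfl⟩
    · rintro ⟨⟨x, y⟩, ⟨hx, hy⟩, rfl⟩; exact ⟨x, hx, y, hy, rfl⟩
  have hDv : Convex ℝ (K - K) := hv.sub hv
  have hDne : (K - K).Nonempty := hne.sub hne
  have hcont : Continuous (fun u : E2 => sSup ((fun z => ⟪u, z⟫) '' (K - K))) :=
    hD.continuous_sSup (f := fun (u z : E2) => ⟪u, z⟫) (by fun_prop)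
  have hsph : (Metric.sphere (0 : E2) 1).Nonempty := by
    refine ⟨EuclideanSpace.single 0 1, ?_⟩
    simp
  obtain ⟨u, hu, hmin⟩ := (isCompact_sphere (0 : E2) 1).exists_isMinOn hsph hcont.continuousOn
  have hu1 : ‖u‖ = 1 := by simpa using hu
  set w : E2 → ℝ := fun u => sSup ((fun z => ⟪u, z⟫) '' (K - K)) with hw
  have hwle : ∀ (v : E2), ∀ z ∈ K - K, ⟪v, z⟫ ≤ w v := by
    intro v z hz
    apply le_csSup
    · exact (hD.image (by fun_prop : Continuous fun z : E2 => ⟪v, z⟫)).bddAbove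
    · exact ⟨z, hz, rfl⟩
  have hwatt : ∀ (v : E2), ∃ z ∈ K - K, ⟪v, z⟫ = w v := by
    intro v
    have := (hD.image (by fun_prop : Continuous fun z : E2 => ⟪v, z⟫)).sSup_mem (hDne.image _)
    obtain ⟨z, hz, h⟩ := this
    exact ⟨z, hz, h⟩
  have h0 : (0 : E2) ∈ K - K := by
    obtain ⟨x, hx⟩ := hne
    exact ⟨x, hx, x, hx, by simp⟩
  set ω := w u with hω
  have hω0 : 0 ≤ ω := by
    have := hwle u 0 h0
    simpa using this
  have hWid : Wid K ω := by
    intro v hv1
    obtain ⟨z, ⟨x, hx, y, hy, rfl⟩, hz⟩ := hwatt v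
    refine ⟨x, hx, y, hy, ?_⟩
    simp only at hz
    rw [hz]
    exact hmin (by simpa using hv1 : v ∈ Metric.sphere (0 : E2) 1)
  have hmem : ω • u ∈ K - K := by
    by_contra hnot
    obtain ⟨f, c, h1, h2⟩ := geometric_hahn_banach_closed_point hDv hD.isClosed hnot
    set n := (InnerProductSpace.toDual ℝ E2).symm f with hn
    have hf : ∀ x, f x = ⟪n, x⟫ := by
      intro x
      rw [hn, InnerProductSpace.toDual_symm_apply]
    have hc0 : 0 < c := by have := h1 0 h0; simpa using this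
    have hn0 : n ≠ 0 := by
      intro h
      rw [hf, h] at h2
      simp at h2
      linarith
    have hnp : 0 < ‖n‖ := norm_pos_iff.2 hn0
    obtain ⟨x, hx, y, hy, hxy⟩ := hWid (‖n‖⁻¹ • n) (by rw [norm_smul, norm_inv, norm_norm]; field_simp)
    rw [real_inner_smul_left] at hxy
    have h3 : ‖n‖ * ω ≤ ⟪n, x - y⟫ := by
      have := mul_le_mul_of_nonneg_left hxy hnp.le
      rwa [← mul_assoc, mul_inv_cancel₀ hnp.ne', one_mul] at this
    have h4 := h1 (x - y) ⟨x, hx, y, hy, rfl⟩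
    rw [hf] at h4 h2
    rw [real_inner_smul_right] at h2
    have h5 : ⟪n, u⟫ ≤ ‖n‖ * ‖u‖ := real_inner_le_norm n u
    rw [hu1, mul_one] at h5
    have h6 := mul_le_mul_of_nonneg_left h5 hω0
    linarith
  obtain ⟨x, hx, y, hy, hxy⟩ := hmem
  simp only at hxy
  have hx' : y + ω • u = x := by rw [← hxy]; abel
  refine ⟨u, ω, y, hu1, hω0, hWid, hy, by rw [hx']; exact hx, fun z hz => ?_⟩
  constructor
  · have := hwle u (x - z) ⟨x, hx, z, hz, rfl⟩
    rw [← hx', inner_sub_right, inner_add_right, real_inner_smul_right,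
      real_inner_self_eq_norm_sq, hu1] at this
    linarith
  · have := hwle u (z - y) ⟨z, hz, y, hy, rfl⟩
    rw [inner_sub_right] at this
    linarith

end Pool.Agent.H77.Cov
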