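import Mathlib
import Pool.Agent.H77.Cov.MinWidth
import Pool.Agent.H77.Cov.FrameMain

set_option autoImplicit false
open MeasureTheory Set
open scoped RealInnerProductSpace Pointwise

namespace Pool.Agent.H77.Cov

/-- translation cover of all sets of diameter one -/
def IsCover (K : Set E2) : Prop :=
  ∀ S : Set E2, EMetric.diam S = 1 → ∃ v : E2, (fun x => x + v) '' S ⊆ K

lemma sd_comm (x1 y1 x2 y2 : ℝ) : sd x1 y1 x2 y2 = sd x2 y2 x1 y1 := by unfold sd; ring

lemma edist_phi_le (b : OrthonormalBasis (Fin 2) ℝ E2) {x1 y1 x2 y2 : ℝ} (h : sd x1 y1 x2 y2 ≤ 1) :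
    edist (phi b 0 (x1, y1)) (phi b 0 (x2, y2)) ≤ 1 := by
  rw [edist_dist, dist_eq_norm]
  rw [show (1 : ENNReal) = ENNReal.ofReal 1 by simp]
  apply ENNReal.ofReal_le_ofReal
  have h1 := phi_dist b 0 (x1, y1) (x2, y2)
  simp only at h1
  unfold sd at h
  rw [← h1] at h
  exact (sq_le_one_iff₀ (norm_nonneg _)).1 h

lemma edist_phi_eq (b : OrthonormalBasis (Fin 2) ℝ E2) {x1 y1 x2 y2 : ℝ} (h : sd x1 y1 x2 y2 = 1) :
    edist (phi b 0 (x1, y1)) (phi b 0 (x2, y2)) = 1 := by
  rw [edist_dist, dist_eq_norm]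
  rw [show (1 : ENNReal) = ENNReal.ofReal 1 by simp]
  congr 1
  have h1 := phi_dist b 0 (x1, y1) (x2, y2)
  simp only at h1
  unfold sd at h
  rw [← h1] at h
  exact (pow_eq_one_iff_of_nonneg (norm_nonneg _) two_ne_zero).1 h

lemma cover_cov5 {K : Set E2} (hcov : IsCover K) (b : OrthonormalBasis (Fin 2) ℝ E2) (P : E2) :
    Cov5 (phi b P ⁻¹' K) := by
  intro x1 y1 x2 y2 x3 y3 x4 y4 x5 y5 h12 h13 h14 h15 h23 h24 h25 h34 h35 h45
  have h12' := h12.le
  set S : Set E2 := {phi b 0 (x1, y1), phi b 0 (x2, y2), phi b 0 (x3, y3), phi b 0 (x4, y4),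
    phi b 0 (x5, y5)} with hS
  have hdiam : EMetric.diam S = 1 := by
    apply le_antisymm
    · apply EMetric.diam_le
      intro x hx y hy
      simp only [hS, mem_insert_iff, mem_singleton_iff] at hx hy
      rcases hx with rfl | rfl | rfl | rfl | rfl <;> rcases hy with rfl | rfl | rfl | rfl | rfl <;>
        apply edist_phi_le <;>
        first
          | assumption
          | (rw [sd_comm]; assumption)
          | (unfold sd; norm_num)
    · rw [← edist_phi_eq b h12]
      apply EMetric.edist_le_diam_of_mem <;> simp [hS]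
  obtain ⟨v, hvS⟩ := hcov S hdiam
  have key : ∀ x y, phi b 0 (x, y) ∈ S → (x + (psi b P v).1, y + (psi b P v).2) ∈ phi b P ⁻¹' K := by
    intro x y hxy
    have h1 : phi b 0 (x, y) + v ∈ K := hvS ⟨_, hxy, rfl⟩
    have h2 := phi_psi b P v
    rw [mem_preimage]
    convert h1 using 1
    nth_rewrite 3 [← h2]
    unfold phi
    simp only
    module
  exact ⟨(psi b P v).1, (psi b P v).2, key _ _ (by simp [hS]), key _ _ (by simp [hS]),
    key _ _ (by simp [hS]), key _ _ (by simp [hS]), key _ _ (by simp [hS])⟩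

lemma norm_lin (b : OrthonormalBasis (Fin 2) ℝ E2) (s : ℝ × ℝ) : ‖s.1 • b 0 + s.2 • b 1‖ = N2 s := by
  have h := phi_dist b 0 s 0
  unfold phi at h
  simp only [Prod.fst_zero, Prod.snd_zero, zero_smul, add_zero, zero_add, sub_zero] at h
  unfold N2
  rw [← h, Real.sqrt_sq (norm_nonneg _)]

theorem lower_compact {K : Set E2} (hc : IsCompact K) (hv : Convex ℝ K) (hcov : IsCover K) :
    ENNReal.ofReal A0 ≤ volume K := by
  have hne : K.Nonempty := by
    have h := cover_cov5 hcov (EuclideanSpace.basisFun (Fin 2) ℝ) 0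
    obtain ⟨v, t, h1, -⟩ := cfg h cc_mem0 (fun u => u) (fun u => u) (fun u w => rfl) (fun u w => rfl)
    exact ⟨_, h1⟩
  obtain ⟨u, ω, P, hu, hω0, hW, hP, hQ, hstrip⟩ := min_width hc hv hne
  obtain ⟨b, hb⟩ := exists_basis 0 u hu
  set K2 := phi b P ⁻¹' K with hK2
  have hC : Cov5 K2 := cover_cov5 hcov b P
  have hinner : ∀ z : ℝ × ℝ, ⟪u, phi b P z⟫ = ⟪u, P⟫ + z.1 := by
    intro z
    have h := b.orthonormal
    rw [orthonormal_iff_ite] at h
    unfold phi
    rw [← hb]
    simp [inner_add_right, inner_smul_right, h]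
  have hS0 : ∀ z ∈ K2, 0 ≤ z.1 ∧ z.1 ≤ ω := by
    intro z hz
    have := hstrip _ hz
    rw [hinner] at this
    constructor <;> linarith [this.1, this.2]
  have hω1 : 1 ≤ ω := by
    obtain ⟨v, t, h1, h2, -⟩ := cfg hC cc_mem0 (fun u => u) (fun u => u) (fun u w => rfl) (fun u w => rfl)
    have a1 := (hS0 _ h1).1
    have a2 := (hS0 _ h2).2
    simp only at a1 a2
    linarith
  set p := ω - 1 with hp
  have hωp : ω = 1 + p := by rw [hp]; ring
  have H : Strip K2 (1 + p) 0 := by
    refine ⟨by linarith, pre_compact b P hc, pre_convex b P hv, ?_, ?_, ?_⟩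
    · intro z hz
      rw [← hωp]; exact hS0 z hz
    · rw [hK2, mem_preimage]; unfold phi; simpa using hP
    · rw [hK2, mem_preimage]; unfold phi; rw [← hωp, hb]; simpa using hQ
  have hvol := H.vol
  set A := ∫ x in (0:ℝ)..(1 + p), (Tf K2 x - Bf K2 x) with hA
  have hA0 : 0 ≤ A := by
    apply intervalIntegral.integral_nonneg (by linarith)
    intro x hx
    linarith [H.B_le_T hx]
  have hvK : volume K = ENNReal.ofReal A := by
    rw [← phi_vol b P hc.measurableSet, ← hvol]
  have hM : MixHyp K2 p A := by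
    intro o s1 s2 s3 h0 h1 h2 h3 h4 h5 h6 h7
    have hadd : ∀ (q s : ℝ × ℝ), phi b P (q + s) = phi b P q + (s.1 • b 0 + s.2 • b 1) := by
      intro q s
      unfold phi
      simp only [Prod.fst_add, Prod.snd_add]
      module
    have := mixed hc hv hω0 hW (phi b P o) (s1.1 • b 0 + s1.2 • b 1) (s2.1 • b 0 + s2.2 • b 1)
      (s3.1 • b 0 + s3.2 • b 1) h0 (by rw [← hadd]; exact h1) (by rw [← hadd]; exact h2)
      (by rw [← hadd]; exact h3) (by rw [← hadd, ← hadd]; exact h4) (by rw [← hadd, ← hadd]; exact h5)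
      (by rw [← hadd, ← hadd]; exact h6) (by rw [← hadd, ← hadd, ← hadd]; exact h7)
    rw [norm_lin, norm_lin, norm_lin, hvK, ENNReal.toReal_ofReal hA0, hωp] at this
    exact this
  rw [hvK]
  exact ENNReal.ofReal_le_ofReal (frame_main (by linarith) H hC hA hM)

/-- unbounded convex sets containing a ball have infinite area -/
lemma bounded_of_finite {K : Set E2} (hv : Convex ℝ K) (hfin : volume K ≠ ⊤) {v : E2}
    (hball : Metric.closedBall v (1 / 2) ⊆ K) : Bornology.IsBounded K := by
  by_contra hnb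
  have hfar : ∀ R : ℝ, ∃ x ∈ K, R < ‖x - v‖ := by
    intro R
    by_contra hcon
    push Not at hcon
    apply hnb
    apply Metric.isBounded_closedBall.subset (t := Metric.closedBall v R)
    intro x hx
    rw [Metric.mem_closedBall, dist_eq_norm]
    exact hcon x hx
  have hc : volume (Metric.ball (0 : E2) (1 / 4)) ≠ 0 :=
    (Metric.measure_ball_pos volume _ (by norm_num)).ne'
  obtain ⟨n, hn⟩ := ENNReal.exists_nat_mul_gt hc hfin
  obtain ⟨x, hx, hxn⟩ := hfar (2 * n + 1)
  set L := ‖x - v‖ with hL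
  have hLpos : 0 < L := by
    have : (0:ℝ) ≤ n := Nat.cast_nonneg n
    linarith
  have hsub : (⋃ i ∈ Finset.range n, Metric.ball (v + ((i : ℝ) / L) • (x - v)) (1 / 4)) ⊆ K := by
    intro y hy
    simp only [mem_iUnion] at hy
    obtain ⟨i, hi, hy⟩ := hy
    rw [Finset.mem_range] at hi
    rw [Metric.mem_ball, dist_eq_norm] at hy
    have hin : (i : ℝ) ≤ n := by exact_mod_cast hi.le
    have ht0 : 0 ≤ (i : ℝ) / L := by positivity
    have ht1 : (i : ℝ) / L ≤ 1 / 2 := by
      rw [div_le_div_iff₀ hLpos (by norm_num)]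
      linarith
    set t := (i : ℝ) / L with ht
    set w := y - (v + t • (x - v)) with hw
    have h1 : v + (1 - t)⁻¹ • w ∈ K := by
      apply hball
      rw [Metric.mem_closedBall, dist_eq_norm]
      simp only [add_sub_cancel_left, norm_smul, norm_inv, Real.norm_eq_abs]
      rw [abs_of_pos (by linarith : 0 < 1 - t)]
      rw [inv_mul_le_iff₀ (by linarith)]
      linarith
    have h2 := hv h1 hx (by linarith : 0 ≤ 1 - t) ht0 (by ring)
    convert h2 using 1
    rw [smul_add, smul_smul, mul_inv_cancel₀ (by linarith : (1 - t) ≠ 0), hw]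
    module
  have hdisj : (Finset.range n : Set ℕ).PairwiseDisjoint
      (fun i : ℕ => Metric.ball (v + ((i : ℝ) / L) • (x - v)) (1 / 4)) := by
    intro i _ j _ hij
    apply Metric.ball_disjoint_ball
    rw [dist_eq_norm]
    have e : v + ((i : ℝ) / L) • (x - v) - (v + ((j : ℝ) / L) • (x - v)) = (((i : ℝ) - j) / L) • (x - v) := by
      rw [sub_div]; module
    rw [e, norm_smul, ← hL, Real.norm_eq_abs, abs_div, abs_of_pos hLpos, div_mul_cancel₀ _ hLpos.ne']
    have : (1 : ℝ) ≤ |(i : ℝ) - j| := by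
      have h := Int.one_le_abs (z := (i : ℤ) - j) (by
        intro h
        apply hij
        omega)
      exact_mod_cast h
    linarith
  have hle := measure_mono (μ := volume) hsub
  rw [measure_biUnion_finset hdisj (fun i _ => Metric.isOpen_ball.measurableSet)] at hle
  simp only [Measure.addHaar_ball_center] at hle
  have : ∀ y : E2, volume (Metric.ball y (1 / 4)) = volume (Metric.ball (0 : E2) (1 / 4)) :=
    fun y => Measure.addHaar_ball_center volume y (1 / 4)
  simp only [this, Finset.sum_const, Finset.card_range, nsmul_eq_mul] at hle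
  exact absurd hle (not_le.2 hn)

theorem lower {K : Set E2} (hv : Convex ℝ K) (hcov : IsCover K) :
    ENNReal.ofReal A0 ≤ volume K := by
  by_cases hfin : volume K = ⊤
  · rw [hfin]; exact le_top
  -- K contains a disc
  have hdisc : EMetric.diam (Metric.closedBall (0 : E2) (1 / 2)) = 1 := by
    apply le_antisymm
    · apply EMetric.diam_le
      intro x hx y hy
      rw [mem_closedBall_zero_iff] at hx hy
      rw [edist_dist, dist_eq_norm, show (1 : ENNReal) = ENNReal.ofReal 1 by simp]
      apply ENNReal.ofReal_le_ofReal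
      linarith [norm_sub_le x y]
    · have h1 : (EuclideanSpace.single 0 (1 / 2) : E2) ∈ Metric.closedBall (0 : E2) (1 / 2) := by
        rw [mem_closedBall_zero_iff]; simp
      have h2 : (EuclideanSpace.single 0 (-(1 / 2)) : E2) ∈ Metric.closedBall (0 : E2) (1 / 2) := by
        rw [mem_closedBall_zero_iff]; simp
      refine le_trans (le_of_eq ?_) (EMetric.edist_le_diam_of_mem h1 h2)
      rw [edist_dist, EuclideanSpace.dist_eq]
      simp
      rw [Real.dist_eq]
      norm_num
  obtain ⟨v, hvS⟩ := hcov _ hdisc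
  have hball : Metric.closedBall v (1 / 2) ⊆ K := by
    intro x hx
    apply hvS
    refine ⟨x - v, ?_, by simp⟩
    rw [mem_closedBall_zero_iff]
    rwa [Metric.mem_closedBall, dist_eq_norm] at hx
  have hb := bounded_of_finite hv hfin hball
  have hcomp : IsCompact (closure K) := hb.isCompact_closure
  have h1 := lower_compact hcomp hv.closure (fun S hS => by
    obtain ⟨w, hw⟩ := hcov S hS
    exact ⟨w, hw.trans subset_closure⟩)
  refine h1.trans ?_
  have h2 : closure K ⊆ K ∪ frontier K := by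
    rw [closure_eq_self_union_frontier]
  refine (measure_mono h2).trans ((measure_union_le _ _).trans ?_)
  rw [hv.addHaar_frontier volume, add_zero]

end Pool.Agent.H77.Cov
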